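import Pool.Agent.Lib.MP_305fdd_al.Su.Div.Dom
import Pool.Agent.Lib.MP_305fdd_al.Su.S.Defs

/-!
# MP_305fdd_al, surface groups, block DIV: the representation of the slice is good; the theorem
-/

set_option autoImplicit false
set_option linter.unusedSectionVars false

namespace Pool.Agent.SuDiv

open Matrix Pool.Agent.Su Pool.Agent.Lib.MP_305fdd_al Pool.Agent.SuS Pool.Agent.FrN

theorem inv1 {R : Type} [CommRing R] (A : SpecialLinearGroup (Fin 2) R) :
    A⁻¹.1 = !![A.1 1 1, -A.1 0 1; -A.1 1 0, A.1 0 0] := by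
  rw [Matrix.SpecialLinearGroup.SL2_inv_expl]
  rfl

theorem tr_comm {R : Type} [CommRing R] (h2 : (2 : R) = 0) {l l' : R} (hl : l * l' = 1)
    {A : SpecialLinearGroup (Fin 2) R} (hA : A.1 = !![l, 0; 0, l'])
    (B : SpecialLinearGroup (Fin 2) R) :
    (A ^ 2 * B * (A ^ 2)⁻¹ * B⁻¹).1.trace = (l + l') ^ 4 * (B.1 0 1 * B.1 1 0) := by
  have hdet := det_one B
  have h3 : (A ^ 2).1 = !![l ^ 2, 0; 0, l' ^ 2] := by
    rw [pow_two, mul1, hA]
    ext i j
    fin_cases i <;> fin_cases j <;> simp [Matrix.mul_apply, Fin.sum_univ_two, pow_two]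
  have h4 : (A ^ 2)⁻¹.1 = !![l' ^ 2, 0; 0, l ^ 2] := by
    rw [inv1, h3]
    ext i j
    fin_cases i <;> fin_cases j <;> simp
  have hBe : B.1 = !![B.1 0 0, B.1 0 1; B.1 1 0, B.1 1 1] := Matrix.eta_fin_two _
  rw [mul1, mul1, mul1, h3, h4, inv1, Matrix.trace_fin_two]
  generalize B.1 0 0 = b00 at *
  generalize B.1 0 1 = b01 at *
  generalize B.1 1 0 = b10 at *
  generalize B.1 1 1 = b11 at *
  rw [hBe]
  simp only [Matrix.mul_apply, Fin.sum_univ_two, Matrix.of_apply, Matrix.cons_val', Matrix.cons_val_zero,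
    Matrix.cons_val_one, Matrix.cons_val_fin_one]
  have h5 : l ^ 2 * l' ^ 2 = 1 := by rw [← mul_pow, hl, one_pow]
  have h6 : (l + l') ^ 4 = l ^ 4 + l' ^ 4 := by
    linear_combination (2 * l ^ 3 * l' + 3 * l ^ 2 * l' ^ 2 + 2 * l * l' ^ 3) * h2
  rw [h6]
  linear_combination (2 * b00 * b11) * h5 +
    (b00 * b11 - l ^ 4 * b01 * b10 - l' ^ 4 * b01 * b10) * h2

theorem ent_B {R : Type} [CommRing R] {l l' : R}
    {A : SpecialLinearGroup (Fin 2) R} (hA : A.1 = !![l, 0; 0, l'])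
    (M : SpecialLinearGroup (Fin 2) R) :
    (M * A * M * A⁻¹).1 0 1 = M.1 0 1 * (l ^ 2 * M.1 0 0 + l * l' * M.1 1 1) ∧
    (M * A * M * A⁻¹).1 1 0 = M.1 1 0 * (l * l' * M.1 0 0 + l' ^ 2 * M.1 1 1) := by
  rw [mul1, mul1, mul1, inv1, hA]
  constructor
  · simp [Matrix.mul_apply, Fin.sum_univ_two]
    ring
  · simp [Matrix.mul_apply, Fin.sum_univ_two]
    ring

section good

variable {n : ℕ} [NeZero n]

/-- the product of two variables which is not in the ideal -/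
theorem yw_notMem : (MvPowerSeries.X (Sum.inr (Sum.inl ((0 : Fin n), false))) *
    MvPowerSeries.X (Sum.inr (Sum.inr ((0 : Fin n), false))) : SS F4 n) ∉ II Ze_F4 n 3 := by
  classical
  intro hmem
  rw [mem_II] at hmem
  obtain ⟨c, hc⟩ := hmem
  set y : MvPolynomial (V (EE n) (JJ n)) F4 :=
    MvPolynomial.X (Sum.inr (Sum.inl ((0 : Fin n), false))) *
    MvPolynomial.X (Sum.inr (Sum.inr ((0 : Fin n), false))) with hy
  have hyc : (MvPowerSeries.X (Sum.inr (Sum.inl ((0 : Fin n), false))) *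
    MvPowerSeries.X (Sum.inr (Sum.inr ((0 : Fin n), false))) : SS F4 n) = (y : SS F4 n) := by
    rw [hy, MvPolynomial.coe_mul, MvPolynomial.coe_X, MvPolynomial.coe_X]
  rw [hyc] at hc
  have hyh : y.IsHomogeneous 2 :=
    (MvPolynomial.isHomogeneous_X _ _).mul (MvPolynomial.isHomogeneous_X _ _)
  have h1 : lead 2 (QS Ze_F4 * c) = y := by
    have := lead_of_lt (show 2 < 3 by norm_num) hc
    rw [lead_sub, sub_eq_zero, lead_coe hyh] at this
    exact this.symm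
  have h2 : om (EE n) F4 (bar n) ∣ lead 2 (QS Ze_F4 * c) :=
    (HQ_Q Ze_F4).lead_mul (Ideal.mul_mem_right _ _ (HQ_Q Ze_F4).two)
  rw [h1] at h2
  let ev : V (EE n) (JJ n) → F4 := fun v =>
    if v = Sum.inr (Sum.inl ((0 : Fin n), false)) ∨ v = Sum.inr (Sum.inr ((0 : Fin n), false))
    then 1 else 0
  have h3 := map_dvd (MvPolynomial.eval ev) h2
  have h4 : MvPolynomial.eval ev (om (EE n) F4 (bar n)) = 0 := by
    unfold om
    rw [map_sum]
    refine Finset.sum_eq_zero fun j _ => ?_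
    rw [map_mul, MvPolynomial.eval_X, MvPolynomial.eval_X]
    by_cases hj : j = ((0 : Fin n), false)
    · have : ev (Sum.inr (Sum.inr (bar n j))) = 0 := by
        subst hj
        simp [ev, bar]
      rw [this, mul_zero]
    · have : ev (Sum.inr (Sum.inl j)) = 0 := by
        simp [ev, hj]
      rw [this, zero_mul]
  have h5 : MvPolynomial.eval ev y = 1 := by
    rw [hy, map_mul, MvPolynomial.eval_X, MvPolynomial.eval_X]
    simp [ev]
  rw [h4, h5] at h3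
  exact one_ne_zero (zero_dvd_iff.1 h3)

/-- the element `a_0 ^ 2` -/
def wa (n : ℕ) [NeZero n] : FreeGroup (Fin (n + 1) ⊕ Fin (n + 1)) :=
  FreeGroup.of (Sum.inl 0) ^ 2

/-- the element `a_1 a_0 a_1 a_0⁻¹` -/
def wb (n : ℕ) [NeZero n] : FreeGroup (Fin (n + 1) ⊕ Fin (n + 1)) :=
  FreeGroup.of (Sum.inl (0 : Fin n).succ) * FreeGroup.of (Sum.inl 0) *
    FreeGroup.of (Sum.inl (0 : Fin n).succ) * (FreeGroup.of (Sum.inl 0))⁻¹

theorem wb_sq {G : Type} [Group G] (u a : G) : u * a * u * a⁻¹ ∈ Sqs G := by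
  have e : u * a * u * a⁻¹ = (u * a) ^ 2 * a⁻¹ ^ 2 := by
    rw [pow_two, pow_two]; group
  rw [e]
  exact mul_mem (sq_mem _) (sq_mem _)

theorem tr_notMem : (fS Ze_F4 n (wa n * wb n * (wa n)⁻¹ * (wb n)⁻¹)).1.trace ∉ II Ze_F4 n 3 := by
  have h2 := (hS F4 n).two
  have h := hS F4 n
  have hz := Ze_F4.rootC (n := n)
  intro hmem
  set A := A0 (hS F4 n) Ze_F4.rootC (uD F4 n).x0 with hA
  set M := (uD F4 n).M (hS F4 n) Ze_F4.rootC (0, false) with hM
  set l := lam (MvPowerSeries.C ze) ((uD F4 n).x0 : SS F4 n) with hl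
  set l' := lam (MvPowerSeries.C ze + 1) ((uD F4 n).x0 : SS F4 n) with hl'
  have hA1 : A.1 = !![l, 0; 0, l'] := rfl
  have hll : l * l' = 1 := lam_mul h hz (uD F4 n).x0.2
  have e : fS Ze_F4 n (wa n * wb n * (wa n)⁻¹ * (wb n)⁻¹) =
      A ^ 2 * (M * A * M * A⁻¹) * (A ^ 2)⁻¹ * (M * A * M * A⁻¹)⁻¹ := by
    unfold wa wb
    simp only [map_mul, map_inv, map_pow]
    rw [fS_A, fS_A0]
  rw [e, tr_comm h2 hll hA1, (ent_B hA1 M).1, (ent_B hA1 M).2] at hmem
  have hM01 : M.1 0 1 = MvPowerSeries.X (Sum.inr (Sum.inl ((0 : Fin n), false))) := rfl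
  have hM10 : M.1 1 0 = MvPowerSeries.X (Sum.inr (Sum.inr ((0 : Fin n), false))) := rfl
  have hMe := (M_cg (n := n) (0, false)).e
  obtain ⟨h00, h01, h10, h11⟩ := hMe
  rw [← hM] at h00 h01 h10 h11
  set U := (l + l') ^ 4 * (l ^ 2 * M.1 0 0 + l * l' * M.1 1 1) *
    (l * l' * M.1 0 0 + l' ^ 2 * M.1 1 1) with hU
  have hU1 : U - 1 ∈ nn F4 n := by
    rw [← Ideal.Quotient.eq_zero_iff_mem, hU]
    have q00 : Ideal.Quotient.mk (nn F4 n) (M.1 0 0) = 1 := by
      have := Ideal.Quotient.eq_zero_iff_mem.2 h00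
      rwa [map_sub, map_one, sub_eq_zero] at this
    have q11 : Ideal.Quotient.mk (nn F4 n) (M.1 1 1) = 1 := by
      have := Ideal.Quotient.eq_zero_iff_mem.2 h11
      rwa [map_sub, map_one, sub_eq_zero] at this
    have ql : Ideal.Quotient.mk (nn F4 n) l = Ideal.Quotient.mk (nn F4 n) (MvPowerSeries.C ze) :=
      mk_lam h (uD F4 n).x0.2
    have ql' : Ideal.Quotient.mk (nn F4 n) l' =
        Ideal.Quotient.mk (nn F4 n) (MvPowerSeries.C ze) + 1 := by
      rw [hl', mk_lam h (uD F4 n).x0.2, map_add, map_one]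
    have q2 : (2 : SS F4 n ⧸ nn F4 n) = 0 := by
      rw [← map_ofNat (Ideal.Quotient.mk (nn F4 n)) 2, h2, map_zero]
    have qz : (Ideal.Quotient.mk (nn F4 n) (MvPowerSeries.C ze)) ^ 2 +
        Ideal.Quotient.mk (nn F4 n) (MvPowerSeries.C ze) + 1 = 0 := by
      rw [← map_pow, ← map_add, ← map_one (Ideal.Quotient.mk (nn F4 n)), ← map_add, hz, map_zero]
    simp only [map_sub, map_mul, map_add, map_pow, map_one, q00, q11, ql, ql']
    set e := Ideal.Quotient.mk (nn F4 n) (MvPowerSeries.C ze)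
    have s1 : e + (e + 1) = 1 := by linear_combination e * q2
    have s2 : e * (e + 1) = 1 := by linear_combination qz - q2
    rw [s1, s2]
    have s3 : e ^ 2 * 1 + 1 * 1 = e := by linear_combination qz - e * q2
    have s4 : 1 * 1 + (e + 1) ^ 2 * 1 = e + 1 := by linear_combination qz + q2 * 0
    rw [s3, s4]
    linear_combination s2
  apply yw_notMem (n := n)
  rw [← hM01, ← hM10]
  have h5 : M.1 0 1 * M.1 1 0 * (U - 1) ∈ II Ze_F4 n 3 := by
    refine Jn_le_II _ _ ?_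
    exact Jn_mul (m := 2) (n := 1) (Jn_mul h01 h10) hU1
  have h6 : M.1 0 1 * M.1 1 0 = (l + l') ^ 4 * (M.1 0 1 * (l ^ 2 * M.1 0 0 + l * l' * M.1 1 1) *
      (M.1 1 0 * (l * l' * M.1 0 0 + l' ^ 2 * M.1 1 1))) - M.1 0 1 * M.1 1 0 * (U - 1) := by
    rw [hU]; ring
  rw [h6]
  exact sub_mem hmem h5

theorem map_Sqs {G G' Q : Type} [Group G] [Group G'] [Group Q] (f : G →* Q) (f' : G' →* Q)
    (hf : f.range = f'.range) : (Sqs G).map f = (Sqs G').map f' := by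
  have h1 : ∀ {H : Type} [Group H] (u : H →* Q), (Sqs H).map u =
      Subgroup.closure {z | ∃ y ∈ u.range, z = y ^ 2} := by
    intro H _ u
    unfold Sqs
    rw [MonoidHom.map_closure]
    congr 1
    ext z
    constructor
    · rintro ⟨_, ⟨y, rfl⟩, rfl⟩
      exact ⟨u y, ⟨y, rfl⟩, map_pow _ _ _⟩
    · rintro ⟨_, ⟨y, rfl⟩, rfl⟩
      exact ⟨y ^ 2, ⟨y, rfl⟩, map_pow _ _ _⟩
  rw [h1, h1, hf]

variable {Λ : Type} [Group Λ] (Φ : NatBij (SurfaceGroup (n + 1)) Λ)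

/-- the representation of the slice is good -/
theorem good : Gd (rLL Ze_F4 Φ) := by
  have hr : (rS Ze_F4 n 3).range = (rL Ze_F4 Φ 3).range := (Φ.range_eq _).symm
  have hs := map_Sqs (rS Ze_F4 n 3) (rL Ze_F4 Φ 3) hr
  have h1 : ∀ x ∈ Sqs (SurfaceGroup (n + 1)), ∃ x' ∈ Sqs Λ, rL Ze_F4 Φ 3 x' = rS Ze_F4 n 3 x := by
    intro x hx
    have h2 : rS Ze_F4 n 3 x ∈ (Sqs (SurfaceGroup (n + 1))).map (rS Ze_F4 n 3) := ⟨x, hx, rfl⟩
    rw [hs] at h2
    obtain ⟨x', hx', e⟩ := h2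
    exact ⟨x', hx', e⟩
  obtain ⟨a, ha, ea⟩ := h1 (pm (n + 1) (wa n)) (by
    unfold wa; rw [map_pow]; exact sq_mem _)
  obtain ⟨b, hb, eb⟩ := h1 (pm (n + 1) (wb n)) (by
    unfold wb; rw [map_mul, map_mul, map_mul, map_inv]; exact wb_sq _ _)
  refine ⟨a, ha, b, hb, fun h0 => tr_notMem (n := n) ?_⟩
  have h2 : (rL Ze_F4 Φ 3 (a * b * a⁻¹ * b⁻¹)).1.trace = 0 := by
    rw [← pN_rLL, MonoidHom.comp_apply, Matrix.trace_fin_two, slmap, slmap, ← map_add,
      ← Matrix.trace_fin_two, h0, map_zero]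
  have h3 : rL Ze_F4 Φ 3 (a * b * a⁻¹ * b⁻¹) =
      rS Ze_F4 n 3 (pm (n + 1) (wa n * wb n * (wa n)⁻¹ * (wb n)⁻¹)) := by
    simp only [map_mul, map_inv]
    rw [ea, eb]
  rw [h3, rS_pm, Matrix.trace_fin_two, slmap, slmap, ← map_add, ← Matrix.trace_fin_two,
    Ideal.Quotient.eq_zero_iff_mem] at h2
  exact h2

/-- DIVISION for closed surface groups: if `ρ` is universal for good representations over domains of
a finitely generated group with (naturally) the same homomorphisms to finite groups as a closed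
surface group, then only the matrix `1` of the image has trace zero -/
theorem div_of_WU (Φ : NatBij (SurfaceGroup (n + 1)) Λ) [Group.FG Λ] {F : Type} [Field F] [Algebra (ZMod 2) F]
    (ρ : Λ →* SpecialLinearGroup (Fin 2) F) (hu : WU ρ) (γ : Λ) (hγ : (ρ γ).1.trace = 0) :
    ρ γ = 1 := by
  have h2 : (2 : LL Ze_F4 n) = 0 := by
    refine LL_ext Ze_F4 fun N => ?_
    rw [map_ofNat, map_zero, ← map_ofNat (Ideal.Quotient.mk (II Ze_F4 n N)) 2, (hS F4 n).two,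
      map_zero]
  have hch : CharP (LL Ze_F4 n) 2 := CharTwo.of_one_ne_zero_of_two_eq_zero one_ne_zero h2
  let _ : Algebra (ZMod 2) (LL Ze_F4 n) := ZMod.algebra _ 2
  obtain ⟨φ, hφ⟩ := hu (LL Ze_F4 n) (rLL Ze_F4 Φ) (good Φ)
  have hft : Algebra.FiniteType (ZMod 2) (OO 2 ρ) :=
    (OO 2 ρ).fg_iff_finiteType.1 (Pool.Agent.FrX.OO_fg ρ)
  have hNoe : IsNoetherianRing (OO 2 ρ) := Algebra.FiniteType.isNoetherianRing (ZMod 2) _
  let ρO : Λ →* SpecialLinearGroup (Fin 2) (OO 2 ρ) := {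
    toFun := fun g => ⟨Matrix.of fun i j => ⟨(ρ g).1 i j, mem_OO ρ g i j⟩, by
      apply Subtype.val_injective
      rw [Matrix.det_fin_two]
      exact det_one (ρ g)⟩
    map_one' := by
      refine SL_ext fun i j => Subtype.val_injective ?_
      change (ρ 1).1 i j = (((1 : Matrix (Fin 2) (Fin 2) (OO 2 ρ)) i j : OO 2 ρ) : F)
      rw [map_one, one1, Matrix.one_apply, Matrix.one_apply]
      split_ifs <;> rfl
    map_mul' := fun g g' => by
      refine SL_ext fun i j => Subtype.val_injective ?_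
      change (ρ (g * g')).1 i j = ((((Matrix.of fun i j => ⟨(ρ g).1 i j, mem_OO ρ g i j⟩ :
        Matrix (Fin 2) (Fin 2) (OO 2 ρ)) * (Matrix.of fun i j => ⟨(ρ g').1 i j,
          mem_OO ρ g' i j⟩ : Matrix (Fin 2) (Fin 2) (OO 2 ρ))) i j : OO 2 ρ) : F)
      rw [map_mul, mul1, Matrix.mul_apply, Matrix.mul_apply, Fin.sum_univ_two, Fin.sum_univ_two]
      rfl }
  have hφ' : ∀ N, (SpecialLinearGroup.map ((pN Ze_F4 n N).comp φ.toRingHom)).comp ρO =
      rL Ze_F4 Φ N := by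
    intro N
    refine MonoidHom.ext fun g => SL_ext fun i j => ?_
    change pN Ze_F4 n N (φ ⟨(ρ g).1 i j, mem_OO ρ g i j⟩) = (rL Ze_F4 Φ N g).1 i j
    rw [hφ]
    rfl
  have h3 := D3 Φ ρO (fun N => (pN Ze_F4 n N).comp φ.toRingHom) hφ' γ (by
    apply Subtype.val_injective
    rw [Matrix.trace_fin_two] at hγ ⊢
    exact hγ)
  refine SL_ext fun i j => ?_
  have h4 := congrArg (fun g : SpecialLinearGroup (Fin 2) (OO 2 ρ) => ((g.1 i j : OO 2 ρ) : F)) h3
  change (ρ γ).1 i j = (((1 : Matrix (Fin 2) (Fin 2) (OO 2 ρ)) i j : OO 2 ρ) : F) at h4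
  rw [h4, one1, Matrix.one_apply, Matrix.one_apply]
  split_ifs <;> rfl

end good

/-- DIVISION for closed surface groups of genus `g ≥ 2` -/
theorem div_of_natBij {g : ℕ} (hg : 2 ≤ g) {Λ : Type} [Group Λ] [Group.FG Λ]
    (Φ : NatBij (SurfaceGroup g) Λ) {F : Type} [Field F] [Algebra (ZMod 2) F]
    (ρ : Λ →* SpecialLinearGroup (Fin 2) F) (hu : WU ρ) (γ : Λ) (hγ : (ρ γ).1.trace = 0) :
    ρ γ = 1 := by
  obtain ⟨n, rfl⟩ : ∃ n, g = n + 1 := ⟨g - 1, by omega⟩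
  have : NeZero n := ⟨by omega⟩
  exact div_of_WU Φ ρ hu γ hγ

/-- DIVISION for closed surface groups of genus `g ≥ 2`, in terms of the finite quotients -/
theorem div_of_same {g : ℕ} (hg : 2 ≤ g) {Λ : Type} [Group Λ] [Group.FG Λ]
    (Φ : NatBij Λ (SurfaceGroup g)) {F : Type} [Field F] [Algebra (ZMod 2) F]
    (ρ : Λ →* SpecialLinearGroup (Fin 2) F) (hu : WU ρ) (γ : Λ) (hγ : (ρ γ).1.trace = 0) :
    ρ γ = 1 := div_of_natBij hg Φ.symm ρ hu γ hγ

end Pool.Agent.SuDiv
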