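import Pool.Agent.Lib.MP_305fdd_al.Su.Div.Lim

/-!
# MP_305fdd_al, surface groups, block DIV: representations over Noetherian domains specialising to the
slice
-/

set_option autoImplicit false
set_option linter.unusedSectionVars false

namespace Pool.Agent.SuDiv

open Matrix Pool.Agent.Su Pool.Agent.Lib.MP_305fdd_al

section D2

variable {n : ℕ} [NeZero n]

theorem Dat.ext' {R : Type} [CommRing R] {𝔫 : Ideal R} {D D' : Dat 𝔫 n}
    (h1 : (D.x0 : R) = D'.x0) (h2 : (D.u : R) = D'.u) (h3 : ∀ j, (D.xs j : R) = D'.xs j)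
    (h4 : ∀ j, (D.ys j : R) = D'.ys j) (h5 : ∀ j, (D.ws j : R) = D'.ws j) : D = D' := by
  rcases D with ⟨x0, u, xs, ys, ws⟩
  rcases D' with ⟨x0', u', xs', ys', ws'⟩
  have e1 : x0 = x0' := Subtype.ext h1
  have e2 : u = u' := Subtype.ext h2
  have e3 : xs = xs' := funext fun j => Subtype.ext (h3 j)
  have e4 : ys = ys' := funext fun j => Subtype.ext (h4 j)
  have e5 : ws = ws' := funext fun j => Subtype.ext (h5 j)
  rw [e1, e2, e3, e4, e5]

/-- (D2), over the surface group: a representation over a ring with a nilpotent ideal, which is near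
the point of the slice, is conjugate to a specialisation of the slice -/
theorem D2 {A : Type} [CommRing A] [Algebra (ZMod 2) A] {𝔫 : Ideal A} {N : ℕ} (hN : 𝔫 ^ N = ⊥)
    {z : A} (hz : z ^ 2 + z + 1 = 0) (s : SurfaceGroup (n + 1) →* SpecialLinearGroup (Fin 2) A)
    (h00 : (s (pm (n + 1) (FreeGroup.of (Sum.inl 0)))).1 0 0 - z ∈ 𝔫)
    (h01 : (s (pm (n + 1) (FreeGroup.of (Sum.inl 0)))).1 0 1 ∈ 𝔫)
    (h10 : (s (pm (n + 1) (FreeGroup.of (Sum.inl 0)))).1 1 0 ∈ 𝔫)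
    (h11 : (s (pm (n + 1) (FreeGroup.of (Sum.inl 0)))).1 1 1 - (z + 1) ∈ 𝔫)
    (hb : Cg 𝔫 (s (pm (n + 1) (FreeGroup.of (Sum.inr 0)))))
    (hM : ∀ i : Fin n, Cg 𝔫 (s (pm (n + 1) (FreeGroup.of (Sum.inl i.succ)))))
    (hM' : ∀ i : Fin n, Cg 𝔫 (s (pm (n + 1) (FreeGroup.of (Sum.inr i.succ))))) :
    ∃ (c : SpecialLinearGroup (Fin 2) A) (ψ : SS F4 n ⧸ II Ze_F4 n N →+* A),
      s = ((MulAut.conj c).toMonoidHom.comp (SpecialLinearGroup.map ψ)).comp (rS Ze_F4 n N) := by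
  have h2 : (2 : A) = 0 := by
    rw [← map_ofNat (algebraMap (ZMod 2) A) 2, show (2 : ZMod 2) = 0 from rfl, map_zero]
  have h : LR A 𝔫 := LR.of_nilpotent h2 N hN
  obtain ⟨c, D, hQ, hD⟩ := slice h hz (s.comp (pm (n + 1))) (by
    rw [MonoidHom.comp_apply, pm_rel, map_one]) h00 h01 h10 h11 hb hM hM'
  let a : V (EE n) (JJ n) → A := fun v => match v with
    | Sum.inl (Sum.inl false) => D.x0
    | Sum.inl (Sum.inl true) => D.u
    | Sum.inl (Sum.inr j) => D.xs j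
    | Sum.inr (Sum.inl j) => D.ys j
    | Sum.inr (Sum.inr j) => D.ws j
  have ha : ∀ v, a v ∈ 𝔫 := by
    rintro ((_ | _) | j | j)
    · rename_i b
      cases b
      · exact D.x0.2
      · exact D.u.2
    · rename_i j
      exact (D.xs j).2
    · exact (D.ys j).2
    · exact (D.ws j).2
  let φ : SS F4 n →+* A := evS (f4lift hz) ha hN
  have hφ : ∀ f ∈ nn F4 n, φ f ∈ 𝔫 := by
    intro f hf
    refine evS_mem _ ha hN ?_
    exact (mem_Jn'.1 hf) 0 (by simp)
  have hφz : φ (MvPowerSeries.C ze) = z := by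
    change evS (f4lift hz) ha hN _ = z
    rw [evS_C, f4lift_ze]
  have hDat : (uD F4 n).map φ hφ = D := by
    refine Dat.ext' ?_ ?_ (fun j => ?_) (fun j => ?_) fun j => ?_
    · exact evS_X _ ha hN (Sum.inl (Sum.inl false))
    · exact evS_X _ ha hN (Sum.inl (Sum.inl true))
    · exact evS_X _ ha hN (Sum.inl (Sum.inr j))
    · exact evS_X _ ha hN (Sum.inr (Sum.inl j))
    · exact evS_X _ ha hN (Sum.inr (Sum.inr j))
  have hφQ : φ (QS Ze_F4) = 0 := by
    unfold QS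
    rw [map_Q (hS F4 n) h Ze_F4.rootC φ hφ hz hφz, hDat, hQ]
  have hφJ : ∀ f ∈ Jn (EE n) (JJ n) F4 N, φ f = 0 := by
    intro f hf
    exact evS_zero _ ha hN (mem_Jn'.1 hf)
  let ψ : SS F4 n ⧸ II Ze_F4 n N →+* A := Ideal.Quotient.lift _ φ (by
    intro f hf
    rw [mem_II] at hf
    obtain ⟨b, hb⟩ := hf
    have h3 := hφJ _ hb
    rw [map_sub, map_mul, hφQ, zero_mul, sub_zero] at h3
    exact h3)
  refine ⟨c, ψ, MonoidHom.ext fun t => ?_⟩
  obtain ⟨w, rfl⟩ := pm_surjective _ t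
  rw [MonoidHom.comp_apply, MonoidHom.comp_apply, rS_pm]
  have h4 : SpecialLinearGroup.map ψ (SpecialLinearGroup.map (Ideal.Quotient.mk (II Ze_F4 n N))
      (fS Ze_F4 n w)) = D.fr h hz w := by
    have h5 := map_fr (hS F4 n) h Ze_F4.rootC φ hφ hz hφz (uD F4 n) w
    rw [hDat] at h5
    rw [← h5]
    exact SL_ext fun i j => rfl
  rw [h4]
  exact hD w

end D2

end Pool.Agent.SuDiv
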