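import Pool.Agent.Lib.MP_305fdd_al.Su.Div.UniH

/-!
# MP_305fdd_al, surface groups, block DIV: every representation near the point of the slice is
conjugate to a point of the slice
-/

set_option autoImplicit false
set_option linter.unusedSectionVars false

namespace Pool.Agent.SuDiv

open Matrix Pool.Agent.Su

section det

variable {R : Type} [CommRing R] {𝔫 : Ideal R} {z : R} {n : ℕ}

theorem unit_one (h : LR R 𝔫) {d : R} (hd : d - 1 ∈ 𝔫) : IsUnit d := by
  have := h.unit _ hd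
  rwa [add_sub_cancel] at this

theorem inv_sub_one (h : LR R 𝔫) {d : R} (hd : d - 1 ∈ 𝔫) : Ring.inverse d - 1 ∈ 𝔫 := by
  have h1 := Ring.inverse_mul_cancel _ (unit_one h hd)
  have h2 : Ring.inverse d - 1 = - (Ring.inverse d * (d - 1)) := by
    linear_combination h1
  rw [h2]
  exact neg_mem (Ideal.mul_mem_left _ _ hd)

theorem mul_sub_one {a b : R} (ha : a - 1 ∈ 𝔫) (hb : b - 1 ∈ 𝔫) : a * b - 1 ∈ 𝔫 := by
  have e : a * b - 1 = a * (b - 1) + (a - 1) := by ring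
  rw [e]
  exact add_mem (Ideal.mul_mem_left _ _ hb) ha

/-- all elements `≡ 1` are values of `tau` -/
theorem exists_tau (h : LR R 𝔫) (z : R) {t : R} (ht : t - 1 ∈ 𝔫) :
    ∃ x : 𝔫, tau z x = t := by
  have h2 := h.two
  set d := z + t * (z + 1) with hd
  have hd1 : d - 1 ∈ 𝔫 := by
    have e : d - 1 = (t - 1) * (z + 1) := by rw [hd]; linear_combination z * h2
    rw [e]
    exact Ideal.mul_mem_right _ _ ht
  have hu := Ring.mul_inverse_cancel _ (unit_one h hd1)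
  have hx : (t - 1) * Ring.inverse d ∈ 𝔫 := Ideal.mul_mem_right _ _ ht
  refine ⟨⟨(t - 1) * Ring.inverse d, hx⟩, ?_⟩
  unfold tau
  change (1 + (t - 1) * Ring.inverse d * z) *
    Ring.inverse (1 + (t - 1) * Ring.inverse d * (z + 1)) = t
  have hv := Ring.mul_inverse_cancel _ (h.unit _ (Ideal.mul_mem_right (z + 1) _ hx))
  set i := Ring.inverse d with hi
  set v := Ring.inverse (1 + (t - 1) * i * (z + 1)) with hv'
  have key : 1 + (t - 1) * i * z = t * (1 + (t - 1) * i * (z + 1)) := by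
    have h3 : (z + t * (z + 1)) * i = 1 := by rw [← hd]; exact hu
    linear_combination (t - 1) * h3 - ((t - 1) * i * t * (z + 1)) * h2
  rw [key, mul_assoc, hv, mul_one]

/-- matrices `≡ 1` -/
def Cg (𝔫 : Ideal R) (g : SpecialLinearGroup (Fin 2) R) : Prop := ∀ i j, (g.1 - 1) i j ∈ 𝔫

theorem Cg.e {g : SpecialLinearGroup (Fin 2) R} (h : Cg 𝔫 g) :
    g.1 0 0 - 1 ∈ 𝔫 ∧ g.1 0 1 ∈ 𝔫 ∧ g.1 1 0 ∈ 𝔫 ∧ g.1 1 1 - 1 ∈ 𝔫 := by
  have h00 := h 0 0
  have h01 := h 0 1
  have h10 := h 1 0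
  have h11 := h 1 1
  rw [Matrix.sub_apply] at h00 h01 h10 h11
  rw [Matrix.one_apply_ne (by decide), sub_zero] at h01 h10
  rw [Matrix.one_apply_eq] at h00 h11
  exact ⟨h00, h01, h10, h11⟩

theorem det_one (g : SpecialLinearGroup (Fin 2) R) : g.1 0 0 * g.1 1 1 - g.1 0 1 * g.1 1 0 = 1 := by
  have := g.2
  rwa [Matrix.det_fin_two] at this

/-- all matrices `≡ 1` are of the form `MM` -/
theorem exists_MM (h : LR R 𝔫) (hz : z ^ 2 + z + 1 = 0) {g : SpecialLinearGroup (Fin 2) R}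
    (hg : Cg 𝔫 g) : ∃ x y w : 𝔫, MM h hz x y w = g := by
  obtain ⟨h00, h01, h10, h11⟩ := hg.e
  have he : g.1 0 1 * g.1 1 0 ∈ 𝔫 := Ideal.mul_mem_right _ _ h01
  have hdet := det_one g
  set q := asq 𝔫 (g.1 0 1 * g.1 1 0) with hq
  have hqm : q ∈ 𝔫 := h.asq_mem he
  have hu : (1 + q * z) - 1 ∈ 𝔫 := by
    rw [add_sub_cancel_left]
    exact Ideal.mul_mem_right _ _ hqm
  have hu1 := Ring.inverse_mul_cancel _ (unit_one h hu)
  obtain ⟨x, hx⟩ := exists_tau h z (mul_sub_one h00 (inv_sub_one h hu))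
  have hal : al 𝔫 z x (g.1 0 1 * g.1 1 0) = g.1 0 0 := by
    unfold al
    rw [hx, ← hq, mul_assoc, hu1, mul_one]
  have hal' : al 𝔫 (z + 1) x (g.1 0 1 * g.1 1 0) = g.1 1 1 := by
    have h1 := al_mul h hz x.2 he
    rw [hal] at h1
    obtain ⟨v, hv⟩ := unit_one h h00
    rw [← hv] at h1 hdet
    have h3 : (v : R) * al 𝔫 (z + 1) x (g.1 0 1 * g.1 1 0) = v * g.1 1 1 := by
      linear_combination h1 - hdet
    have h4 := congrArg (((v⁻¹ : Rˣ) : R) * ·) h3
    simpa only [← mul_assoc, Units.inv_mul, one_mul] using h4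
  refine ⟨x, ⟨g.1 0 1, h01⟩, ⟨g.1 1 0, h10⟩, SL_ext fun i j => ?_⟩
  fin_cases i <;> fin_cases j
  · exact hal
  · rfl
  · rfl
  · exact hal'

/-- all eigenvalues `≡ z` are of the form `lam` -/
theorem exists_lam (h : LR R 𝔫) (hz : z ^ 2 + z + 1 = 0) {l : R} (hl : l - z ∈ 𝔫) :
    ∃ x : 𝔫, lam z x = l := by
  have h2 := h.two
  have hz1 : z * (z + 1) = 1 := by linear_combination hz - h2
  have h3 : l * (z + 1) - 1 ∈ 𝔫 := by
    have e : l * (z + 1) - 1 = (l - z) * (z + 1) := by linear_combination hz1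
    rw [e]
    exact Ideal.mul_mem_right _ _ hl
  obtain ⟨x, hx⟩ := exists_tau h z h3
  refine ⟨x, ?_⟩
  unfold lam
  rw [hx]
  linear_combination l * hz1

/-- diagonalisation of matrices `≡ diag(z, z + 1)` -/
theorem exists_diag (h : LR R 𝔫) (hz : z ^ 2 + z + 1 = 0) {m : SpecialLinearGroup (Fin 2) R}
    (h00 : m.1 0 0 - z ∈ 𝔫) (h01 : m.1 0 1 ∈ 𝔫) (h10 : m.1 1 0 ∈ 𝔫)
    (h11 : m.1 1 1 - (z + 1) ∈ 𝔫) :
    ∃ (x : 𝔫) (c : SpecialLinearGroup (Fin 2) R), Cg 𝔫 c ∧ m * c = c * A0 h hz x := by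
  have h2 := h.two
  have hdet := det_one m
  set t := m.1 0 0 + m.1 1 1 with ht
  have ht1 : t - 1 ∈ 𝔫 := by
    have e : t - 1 = (m.1 0 0 - z) + (m.1 1 1 - (z + 1)) := by
      rw [ht]; linear_combination z * h2
    rw [e]
    exact add_mem h00 h11
  have htu := Ring.mul_inverse_cancel _ (unit_one h ht1)
  set s := Ring.inverse t with hs
  have hs1 : s - 1 ∈ 𝔫 := inv_sub_one h ht1
  have he : s * s + 1 ∈ 𝔫 := by
    have := mul_sub_one hs1 hs1
    have e : s * s + 1 = s * s - 1 := by linear_combination h2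
    rwa [e]
  set q := asq 𝔫 (s * s + 1) with hq
  have hqm : q ∈ 𝔫 := h.asq_mem he
  have hqe : q ^ 2 + q = s * s + 1 := h.asq_eq he
  set l := t * (z + q) with hl
  set l' := t * (z + 1 + q) with hl'
  have hll : l + l' = t := by rw [hl, hl']; linear_combination (t * z + t * q) * h2
  have hlm : l * l' = 1 := by
    rw [hl, hl']
    have h3 : (z + q) * (z + 1 + q) = s * s := by
      linear_combination hqe + hz + z * q * h2
    linear_combination t * t * h3 + (t * s + 1) * htu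
  have hlz : l - z ∈ 𝔫 := by
    have e : l - z = (t - 1) * z + t * q := by rw [hl]; ring
    rw [e]
    exact add_mem (Ideal.mul_mem_right _ _ ht1) (Ideal.mul_mem_left _ _ hqm)
  have hlz' : l' - (z + 1) ∈ 𝔫 := by
    have e : l' - (z + 1) = (t - 1) * (z + 1) + t * q := by rw [hl']; ring
    rw [e]
    exact add_mem (Ideal.mul_mem_right _ _ ht1) (Ideal.mul_mem_left _ _ hqm)
  obtain ⟨x, hx⟩ := exists_lam h hz hlz
  have hx' : lam (z + 1) x = l' := by
    have h3 := lam_mul h hz x.2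
    rw [hx] at h3
    linear_combination l' * h3 - lam (z + 1) x * hlm
  -- the eigenvectors
  set p := l + m.1 1 1 with hp
  set p' := l' + m.1 0 0 with hp'
  have hp1 : p - 1 ∈ 𝔫 := by
    have e : p - 1 = (l - z) + (m.1 1 1 - (z + 1)) := by rw [hp]; linear_combination z * h2
    rw [e]
    exact add_mem hlz h11
  have hp1' : p' - 1 ∈ 𝔫 := by
    have e : p' - 1 = (l' - (z + 1)) + (m.1 0 0 - z) := by rw [hp']; linear_combination z * h2
    rw [e]
    exact add_mem hlz' h00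
  set d := p * p' + m.1 0 1 * m.1 1 0 with hd
  have hd1 : d - 1 ∈ 𝔫 := by
    have e : d - 1 = (p * p' - 1) + m.1 0 1 * m.1 1 0 := by rw [hd]; ring
    rw [e]
    exact add_mem (mul_sub_one hp1 hp1') (Ideal.mul_mem_right _ _ h01)
  have hdu := Ring.mul_inverse_cancel _ (unit_one h hd1)
  set r := Ring.inverse d with hr
  have hr1 : r - 1 ∈ 𝔫 := inv_sub_one h hd1
  let c : SpecialLinearGroup (Fin 2) R := ⟨!![p, m.1 0 1 * r; m.1 1 0, p' * r], by
    rw [Matrix.det_fin_two_of]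
    linear_combination hdu - m.1 0 1 * m.1 1 0 * r * h2⟩
  refine ⟨x, c, ?_, ?_⟩
  · intro i j
    rw [Matrix.sub_apply]
    fin_cases i <;> fin_cases j
    · change p - 1 ∈ 𝔫
      exact hp1
    · change m.1 0 1 * r - 0 ∈ 𝔫
      rw [sub_zero]
      exact Ideal.mul_mem_right _ _ h01
    · change m.1 1 0 - 0 ∈ 𝔫
      rw [sub_zero]
      exact h10
    · change p' * r - 1 ∈ 𝔫
      exact mul_sub_one hp1' hr1
  · apply Subtype.ext
    rw [mul1, mul1]
    have hA : (A0 h hz x).1 = !![l, 0; 0, l'] := by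
      change !![lam z x, 0; 0, lam (z + 1) x] = _
      rw [hx, hx']
    rw [hA]
    change m.1 * !![p, m.1 0 1 * r; m.1 1 0, p' * r] =
      !![p, m.1 0 1 * r; m.1 1 0, p' * r] * !![l, 0; 0, l']
    have E1 : l ^ 2 + (m.1 0 0 + m.1 1 1) * l + 1 = 0 := by
      rw [← ht, ← hll]
      linear_combination hlm + (l ^ 2 + 1) * h2
    have E2 : l' ^ 2 + (m.1 0 0 + m.1 1 1) * l' + 1 = 0 := by
      rw [← ht, ← hll]
      linear_combination hlm + (l' ^ 2 + 1) * h2
    ext i j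
    rw [Matrix.mul_apply, Matrix.mul_apply, Fin.sum_univ_two, Fin.sum_univ_two]
    fin_cases i <;> fin_cases j
    · change m.1 0 0 * p + m.1 0 1 * m.1 1 0 = p * l + m.1 0 1 * r * 0
      rw [hp]
      linear_combination hdet - E1 + (1 + m.1 0 1 * m.1 1 0 + m.1 0 0 * l) * h2
    · change m.1 0 0 * (m.1 0 1 * r) + m.1 0 1 * (p' * r) = p * 0 + m.1 0 1 * r * l'
      rw [hp']
      linear_combination (m.1 0 0 * m.1 0 1 * r) * h2
    · change m.1 1 0 * p + m.1 1 1 * m.1 1 0 = m.1 1 0 * l + p' * r * 0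
      rw [hp]
      linear_combination (m.1 1 0 * m.1 1 1) * h2
    · change m.1 1 0 * (m.1 0 1 * r) + m.1 1 1 * (p' * r) = m.1 1 0 * 0 + p' * r * l'
      rw [hp']
      linear_combination r * hdet - r * E2 + r * (1 + m.1 0 1 * m.1 1 0 + m.1 1 1 * l') * h2

/-- uniqueness of the matrix `b_0` -/
theorem exists_B0 (h : LR R 𝔫) (hz : z ^ 2 + z + 1 = 0) {l l' : R} (hll : l * l' = 1)
    (hl : l - z ∈ 𝔫) (hl' : l' - (z + 1) ∈ 𝔫) {P : SpecialLinearGroup (Fin 2) R} (hP : Cg 𝔫 P)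
    (hd : dt l l' P.1 + 1 ∈ 𝔫) {B A : SpecialLinearGroup (Fin 2) R} (hB : Cg 𝔫 B)
    (hA : A.1 = !![l, 0; 0, l']) (hrel : P * A * B = B * A) :
    QQ l l' P.1 = 0 ∧ ∃ u : 𝔫, B0 h hz u hll hd = B := by
  have h2 := h.two
  obtain ⟨hP00, hP01, hP10, hP11⟩ := hP.e
  obtain ⟨hB00, hB01, hB10, hB11⟩ := hB.e
  have hdet := det_one B
  -- the trace
  have htr : P.1 0 0 * l + P.1 1 1 * l' = l + l' := by
    have h3 : P * A = B * A * B⁻¹ := by rw [← hrel]; group
    have h4 : (P * A).1.trace = A.1.trace := by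
      rw [h3, mul1, mul1, Matrix.trace_mul_comm, ← mul_assoc, ← mul1, inv_mul_cancel, one1, one_mul]
    rw [mul1, hA, Matrix.trace_fin_two, Matrix.trace_fin_two] at h4
    simpa [Matrix.mul_apply, Fin.sum_univ_two] using h4
  refine ⟨by unfold QQ; linear_combination htr + (l + l') * h2, ?_⟩
  -- the entries
  have hent : ∀ i j, (P.1 * !![l, 0; 0, l'] * B.1) i j = (B.1 * !![l, 0; 0, l']) i j := by
    intro i j
    have h3 := congrArg (fun g : SpecialLinearGroup (Fin 2) R => g.1 i j) hrel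
    simp only [mul1, hA] at h3
    exact h3
  have e10 : P.1 1 0 * l * B.1 0 0 + P.1 1 1 * l' * B.1 1 0 = B.1 1 0 * l := by
    have := hent 1 0
    simpa [Matrix.mul_apply, Fin.sum_univ_two] using this
  have e01 : P.1 0 0 * l * B.1 0 1 + P.1 0 1 * l' * B.1 1 1 = B.1 0 1 * l' := by
    have := hent 0 1
    simpa [Matrix.mul_apply, Fin.sum_univ_two] using this
  set p := l + P.1 1 1 * l' with hp
  set p' := l' + P.1 0 0 * l with hp'
  have hp1 : p - 1 ∈ 𝔫 := by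
    have e : p - 1 = (l - z) + (P.1 1 1 - 1) * l' + (l' - (z + 1)) := by
      rw [hp]; linear_combination z * h2
    rw [e]
    exact add_mem (add_mem hl (Ideal.mul_mem_right _ _ hP11)) hl'
  have hp1' : p' - 1 ∈ 𝔫 := by
    have e : p' - 1 = (l' - (z + 1)) + (P.1 0 0 - 1) * l + (l - z) := by
      rw [hp']; linear_combination z * h2
    rw [e]
    exact add_mem (add_mem hl' (Ideal.mul_mem_right _ _ hP00)) hl
  have hpu := Ring.mul_inverse_cancel _ (unit_one h hp1)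
  have hpu' := Ring.mul_inverse_cancel _ (unit_one h hp1')
  set r := Ring.inverse p with hr
  set r' := Ring.inverse p' with hr'
  set κ := B.1 0 0 * r with hκ
  set κ' := B.1 1 1 * r' with hκ'
  have hκ1 : κ - 1 ∈ 𝔫 := mul_sub_one hB00 (inv_sub_one h hp1)
  have f00 : κ * p = B.1 0 0 := by rw [hκ]; linear_combination B.1 0 0 * hpu
  have f11 : κ' * p' = B.1 1 1 := by rw [hκ']; linear_combination B.1 1 1 * hpu'
  have f10 : κ * (P.1 1 0 * l) = B.1 1 0 := by
    have h3 : B.1 1 0 * p = P.1 1 0 * l * B.1 0 0 := by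
      rw [hp]; linear_combination - e10 + (P.1 1 1 * l' * B.1 1 0) * h2
    rw [hκ]
    linear_combination B.1 1 0 * hpu - r * h3
  have f01 : κ' * (P.1 0 1 * l') = B.1 0 1 := by
    have h3 : B.1 0 1 * p' = P.1 0 1 * l' * B.1 1 1 := by
      rw [hp']; linear_combination - e01 + (P.1 0 0 * l * B.1 0 1) * h2
    rw [hκ']
    linear_combination B.1 0 1 * hpu' - r' * h3
  have hdt : dt l l' P.1 = p * p' + P.1 0 1 * P.1 1 0 := rfl
  have hkk : κ * κ' * dt l l' P.1 = 1 := by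
    rw [hdt]
    rw [← f00, ← f11, ← f10, ← f01] at hdet
    linear_combination hdet + κ * κ' * P.1 0 1 * P.1 1 0 * hll +
      κ * κ' * P.1 0 1 * P.1 1 0 * h2
  have hdu := Ring.mul_inverse_cancel _ (unit_of_one_add h hd)
  have hdi : κ * κ' = Ring.inverse (dt l l' P.1) := by
    linear_combination Ring.inverse (dt l l' P.1) * hkk - κ * κ' * hdu
  have hi1 := inv_add_one h hd
  set q := asq 𝔫 (Ring.inverse (dt l l' P.1) + 1) with hq
  have hqm : q ∈ 𝔫 := h.asq_mem hi1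
  have hu : (1 + q * z) - 1 ∈ 𝔫 := by
    rw [add_sub_cancel_left]
    exact Ideal.mul_mem_right _ _ hqm
  have hu1 := Ring.inverse_mul_cancel _ (unit_one h hu)
  obtain ⟨u, hux⟩ := exists_tau h z (mul_sub_one hκ1 (inv_sub_one h hu))
  have hk : kap 𝔫 z u (dt l l' P.1) = κ := by
    unfold kap
    rw [hux, ← hq, mul_assoc, hu1, mul_one]
  have hk' : kap 𝔫 (z + 1) u (dt l l' P.1) = κ' := by
    have h3 := kap_mul h hz u.2 hi1
    rw [hk, ← hdi] at h3
    obtain ⟨v, hv⟩ := unit_one h hκ1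
    rw [← hv] at h3
    have h4 := congrArg (((v⁻¹ : Rˣ) : R) * ·) h3
    simpa only [← mul_assoc, Units.inv_mul, one_mul] using h4
  refine ⟨u, SL_ext fun i j => ?_⟩
  fin_cases i <;> fin_cases j
  · change kap 𝔫 z u (dt l l' P.1) * p = _
    rw [hk]; exact f00
  · change kap 𝔫 (z + 1) u (dt l l' P.1) * (P.1 0 1 * l') = _
    rw [hk']; exact f01
  · change kap 𝔫 z u (dt l l' P.1) * (P.1 1 0 * l) = _
    rw [hk]; exact f10
  · change kap 𝔫 (z + 1) u (dt l l' P.1) * p' = _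
    rw [hk']; exact f11

theorem cg_iff {g : SpecialLinearGroup (Fin 2) R} :
    Cg 𝔫 g ↔ SpecialLinearGroup.map (Ideal.Quotient.mk 𝔫) g = 1 := by
  have h1 : ∀ i j, Ideal.Quotient.mk 𝔫 ((1 : Matrix (Fin 2) (Fin 2) R) i j) =
      (1 : SpecialLinearGroup (Fin 2) (R ⧸ 𝔫)).1 i j := by
    intro i j
    rw [one1, Matrix.one_apply, Matrix.one_apply]
    split_ifs <;> simp
  constructor
  · intro h
    refine SL_ext fun i j => ?_
    rw [slmap, ← h1, ← sub_eq_zero, ← map_sub, Ideal.Quotient.eq_zero_iff_mem]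
    exact h i j
  · intro h i j
    rw [← Ideal.Quotient.eq_zero_iff_mem, Matrix.sub_apply, map_sub, h1, ← h, slmap, sub_self]

theorem Cg.conj {g c : SpecialLinearGroup (Fin 2) R} (h : Cg 𝔫 g) : Cg 𝔫 (c⁻¹ * g * c) := by
  rw [cg_iff] at h ⊢
  rw [map_mul, map_mul, h, mul_one, ← map_mul, inv_mul_cancel, map_one]

/-- THE SLICE THEOREM: a representation near the point of the slice is conjugate to a point of the
slice -/
theorem slice (h : LR R 𝔫) (hz : z ^ 2 + z + 1 = 0)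
    (s : FreeGroup (Fin (n + 1) ⊕ Fin (n + 1)) →* SpecialLinearGroup (Fin 2) R)
    (hs : s (surfRel (n + 1)) = 1)
    (h00 : (s (FreeGroup.of (Sum.inl 0))).1 0 0 - z ∈ 𝔫)
    (h01 : (s (FreeGroup.of (Sum.inl 0))).1 0 1 ∈ 𝔫)
    (h10 : (s (FreeGroup.of (Sum.inl 0))).1 1 0 ∈ 𝔫)
    (h11 : (s (FreeGroup.of (Sum.inl 0))).1 1 1 - (z + 1) ∈ 𝔫)
    (hb : Cg 𝔫 (s (FreeGroup.of (Sum.inr 0))))
    (hM : ∀ i : Fin n, Cg 𝔫 (s (FreeGroup.of (Sum.inl i.succ))))
    (hM' : ∀ i : Fin n, Cg 𝔫 (s (FreeGroup.of (Sum.inr i.succ)))) :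
    ∃ (c : SpecialLinearGroup (Fin 2) R) (D : Dat 𝔫 n), D.Q h hz = 0 ∧
      ∀ w, s w = c * D.fr h hz w * c⁻¹ := by
  obtain ⟨x0, c, -, hc⟩ := exists_diag h hz h00 h01 h10 h11
  have hmk : ∀ j : Fin n × Bool, ∃ x y w : 𝔫, MM h hz x y w =
      c⁻¹ * s (FreeGroup.of (if j.2 then Sum.inr j.1.succ else Sum.inl j.1.succ)) * c := by
    rintro ⟨i, b⟩
    refine exists_MM h hz ?_
    cases b
    · exact (hM i).conj
    · exact (hM' i).conj
  choose xs ys ws hxyw using hmk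
  let s' : FreeGroup (Fin (n + 1) ⊕ Fin (n + 1)) →* SpecialLinearGroup (Fin 2) R :=
    (MulAut.conj c⁻¹).toMonoidHom.comp s
  have hs' : ∀ w, s' w = c⁻¹ * s w * c := by
    intro w
    change c⁻¹ * s w * c⁻¹⁻¹ = _
    rw [inv_inv]
  let D0 : Dat 𝔫 n := ⟨x0, 0, xs, ys, ws⟩
  have hMi : ∀ i : Fin n, D0.M h hz (i, false) = s' (FreeGroup.of (Sum.inl i.succ)) := by
    intro i
    rw [hs']
    exact hxyw (i, false)
  have hMi' : ∀ i : Fin n, D0.M h hz (i, true) = s' (FreeGroup.of (Sum.inr i.succ)) := by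
    intro i
    rw [hs']
    exact hxyw (i, true)
  have hA0 : A0 h hz x0 = s' (FreeGroup.of (Sum.inl 0)) := by
    rw [hs', mul_assoc, hc, inv_mul_cancel_left]
  set B := s' (FreeGroup.of (Sum.inr 0)) with hB
  have hBcg : Cg 𝔫 B := by rw [hB, hs']; exact hb.conj
  have hrel : A0 h hz x0 * B * (A0 h hz x0)⁻¹ * B⁻¹ * D0.P h hz = 1 := by
    have h3 : s' (surfRel (n + 1)) = 1 := by rw [hs', hs]; group
    rw [← h3]
    unfold surfRel genA genB
    rw [List.ofFn_succ, List.prod_cons, map_mul, map_list_prod, List.map_ofFn]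
    congr 1
    · simp only [map_mul, map_inv]
      rw [← hA0]
    · unfold Dat.P
      congr 2
      funext i
      simp only [Function.comp_apply, map_mul, map_inv]
      rw [hMi, hMi']
  have hrel' : D0.P h hz * A0 h hz x0 * B = B * A0 h hz x0 := by
    have h3 : D0.P h hz = B * A0 h hz x0 * B⁻¹ * (A0 h hz x0)⁻¹ := by
      have h4 := eq_inv_of_mul_eq_one_right hrel
      rw [h4]; group
    rw [h3]; group
  have hlz : lam z (x0 : R) - z ∈ 𝔫 := by
    rw [← Ideal.Quotient.eq_zero_iff_mem, map_sub, mk_lam h x0.2, sub_self]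
  have hlz' : lam (z + 1) (x0 : R) - (z + 1) ∈ 𝔫 := by
    rw [← Ideal.Quotient.eq_zero_iff_mem, map_sub, mk_lam h x0.2, sub_self]
  obtain ⟨hQ, u, hu⟩ := exists_B0 h hz (lam_mul h hz x0.2) hlz hlz' (cg_iff.2 (mk_P h hz D0))
    (dt_mem h hz D0) hBcg (A := A0 h hz x0) rfl hrel'
  let D : Dat 𝔫 n := ⟨x0, u, xs, ys, ws⟩
  refine ⟨c, D, hQ, fun w => ?_⟩
  have key : D.fr h hz = s' := by
    ext t : 1
    unfold Dat.fr
    rw [FreeGroup.lift_apply_of]
    rcases t with i | i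
    · refine Fin.cases ?_ (fun i => ?_) i
      · exact hA0
      · exact hMi i
    · refine Fin.cases ?_ (fun i => ?_) i
      · exact hu
      · exact hMi' i
  rw [key, hs']
  group

end det

end Pool.Agent.SuDiv
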