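import Pool.Agent.Lib.MP_305fdd_al.Su.Div.Fin

/-!
# MP_305fdd_al, surface groups, block DIV: the ring of the slice is a domain
-/

set_option autoImplicit false
set_option linter.unusedSectionVars false

namespace Pool.Agent.SuDiv

open Matrix Pool.Agent.Su Pool.Agent.Lib.MP_305fdd_al

section dom

variable {k : Type} [Field k] [Finite k] [CharP k 2] {n : ℕ} [NeZero n] {σ : k →+* k} {ζ : k}
  (h : Ze σ ζ)

/-- the limit of the rings `S / ((Q) + (order ≥ N))` -/
noncomputable def LL (n : ℕ) [NeZero n] : Subring (∀ N : ℕ, SS k n ⧸ II h n N) where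
  carrier := {x | ∀ (m N : ℕ) (hm : m ≤ N), fac h n hm (x N) = x m}
  mul_mem' {a b} ha hb m N hm := by
    rw [Pi.mul_apply, Pi.mul_apply, map_mul, ha, hb]
  one_mem' m N hm := by rw [Pi.one_apply, Pi.one_apply, map_one]
  add_mem' {a b} ha hb m N hm := by
    rw [Pi.add_apply, Pi.add_apply, map_add, ha, hb]
  zero_mem' m N hm := by rw [Pi.zero_apply, Pi.zero_apply, map_zero]
  neg_mem' {a} ha m N hm := by
    rw [Pi.neg_apply, Pi.neg_apply, map_neg, ha]

/-- the projections -/
noncomputable def pN (n : ℕ) [NeZero n] (N : ℕ) : LL h n →+* SS k n ⧸ II h n N :=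
  (Pi.evalRingHom (fun N => SS k n ⧸ II h n N) N).comp (LL h n).subtype

theorem LL_ext {x y : LL h n} (hxy : ∀ N, pN h n N x = pN h n N y) : x = y :=
  Subtype.ext (funext hxy)

theorem fac_pN {m N : ℕ} (hm : m ≤ N) (x : LL h n) : fac h n hm (pN h n N x) = pN h n m x :=
  x.2 m N hm

theorem one_notMem : (1 : SS k n) ∉ II h n 1 := by
  intro h1
  have h2 : II h n 1 ≤ nn k n := by
    unfold II
    refine sup_le ?_ le_rfl
    rw [Ideal.span_le, Set.singleton_subset_iff]
    exact Jn_mono (by norm_num) (HQ_Q h).two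
  have h4 := constCoeff_of_mem (h2 h1)
  rw [map_one] at h4
  exact one_ne_zero h4

instance LL_nontrivial : Nontrivial (LL h n) := by
  refine ⟨⟨0, 1, fun h01 => one_notMem (n := n) h ?_⟩⟩
  have h1 := congrArg (pN h n 1) h01
  rw [map_zero, map_one, ← map_one (Ideal.Quotient.mk (II h n 1))] at h1
  exact Ideal.Quotient.eq_zero_iff_mem.1 h1.symm

/-- elements not in one of the ideals -/
theorem exists_lead {f : SS k n} {m : ℕ} (hf : f ∉ II h n m) : ∃ d < m, ∃ a F,
    f = QS h * a + F ∧ F ∈ Jn (EE n) (JJ n) k d ∧ ¬ om (EE n) k (bar n) ∣ lead d F := by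
  rcases (HQ_Q h).dich f m with h1 | h1
  · exact absurd ((mem_II h).2 h1) hf
  · exact h1

theorem mul_notMem {f g : SS k n} {m m' : ℕ} (hf : f ∉ II h n m) (hg : g ∉ II h n m') :
    f * g ∉ II h n (m + m') := by
  obtain ⟨d, hd, a, F, hF, hFd, hFl⟩ := exists_lead h hf
  obtain ⟨e, he, b, G, hG, hGd, hGl⟩ := exists_lead h hg
  intro hfg
  have h1 : F * G ∈ II h n (m + m') := by
    have e1 : F * G = f * g - QS h * (a * g + F * b) := by rw [hF, hG]; ring
    rw [e1]
    exact sub_mem hfg (Ideal.mul_mem_right _ _ (Q_mem_II h _))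
  rw [mem_II] at h1
  obtain ⟨c, hc⟩ := h1
  have h2 : F * G ∈ Jn (EE n) (JJ n) k (d + e) := Jn_mul hFd hGd
  have h3 : QS h * c ∈ Jn (EE n) (JJ n) k (d + e) := by
    have := sub_mem h2 (Jn_mono (show d + e ≤ m + m' by omega) hc)
    rwa [sub_sub_cancel] at this
  have h4 := (HQ_Q h).lead_mul h3
  have h5 : lead (d + e) (F * G) = lead (d + e) (QS h * c) := by
    have := lead_of_lt (show d + e < m + m' by omega) hc
    rwa [lead_sub, sub_eq_zero] at this
  change om (EE n) k (bar n) ∣ lead (d + e) (QS h * c) at h4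
  rw [← h5, SuDiv.lead_mul hFd hGd] at h4
  rcases (om_prime (bar n)).dvd_or_dvd h4 with h6 | h6
  · exact hFl h6
  · exact hGl h6

instance LL_noZero : NoZeroDivisors (LL h n) where
  eq_zero_or_eq_zero_of_mul_eq_zero {x y} hxy := by
    by_contra hne
    push Not at hne
    obtain ⟨hx, hy⟩ := hne
    obtain ⟨m, hm⟩ : ∃ m, pN h n m x ≠ 0 := by
      by_contra hall
      push Not at hall
      exact hx (LL_ext h fun N => by rw [hall, map_zero])
    obtain ⟨m', hm'⟩ : ∃ m, pN h n m y ≠ 0 := by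
      by_contra hall
      push Not at hall
      exact hy (LL_ext h fun N => by rw [hall, map_zero])
    obtain ⟨f, hf⟩ := Ideal.Quotient.mk_surjective (pN h n (m + m') x)
    obtain ⟨g, hg⟩ := Ideal.Quotient.mk_surjective (pN h n (m + m') y)
    have hf' : f ∉ II h n m := by
      intro hmem
      apply hm
      rw [← fac_pN h (show m ≤ m + m' by omega), ← hf, fac_mk]
      exact Ideal.Quotient.eq_zero_iff_mem.2 hmem
    have hg' : g ∉ II h n m' := by
      intro hmem
      apply hm'
      rw [← fac_pN h (show m' ≤ m + m' by omega), ← hg, fac_mk]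
      exact Ideal.Quotient.eq_zero_iff_mem.2 hmem
    apply mul_notMem h hf' hg'
    rw [← Ideal.Quotient.eq_zero_iff_mem, map_mul, hf, hg, ← map_mul, hxy, map_zero]

instance LL_domain : IsDomain (LL h n) := NoZeroDivisors.to_isDomain _

variable {Λ : Type} [Group Λ] (Φ : NatBij (SurfaceGroup (n + 1)) Λ)

/-- the entries of the limit representation -/
noncomputable def entL (γ : Λ) (i j : Fin 2) : LL h n :=
  ⟨fun N => (rL h Φ N γ).1 i j, fun m N hm => by
    have h1 := congrArg (fun g : SpecialLinearGroup (Fin 2) (SS k n ⧸ II h n m) => g.1 i j)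
      (DFunLike.congr_fun (rL_fac h Φ hm) γ)
    exact h1⟩

theorem pN_entL (N : ℕ) (γ : Λ) (i j : Fin 2) :
    pN h n N (entL h Φ γ i j) = (rL h Φ N γ).1 i j := rfl

/-- the limit representation -/
noncomputable def rLL : Λ →* SpecialLinearGroup (Fin 2) (LL h n) where
  toFun γ := ⟨Matrix.of fun i j => entL h Φ γ i j, by
    rw [Matrix.det_fin_two]
    refine LL_ext h fun N => ?_
    rw [map_sub, map_mul, map_mul, map_one]
    simp only [Matrix.of_apply, pN_entL]
    exact det_one _⟩
  map_one' := by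
    refine SL_ext fun i j => LL_ext h fun N => ?_
    change pN h n N (entL h Φ 1 i j) = pN h n N ((1 : Matrix (Fin 2) (Fin 2) (LL h n)) i j)
    rw [pN_entL, map_one, one1, Matrix.one_apply, Matrix.one_apply]
    split_ifs <;> simp
  map_mul' γ γ' := by
    refine SL_ext fun i j => LL_ext h fun N => ?_
    have h1 : ∀ (A B : SpecialLinearGroup (Fin 2) (LL h n)),
        pN h n N ((A * B).1 i j) = pN h n N (A.1 i 0) * pN h n N (B.1 0 j) +
          pN h n N (A.1 i 1) * pN h n N (B.1 1 j) := by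
      intro A B
      rw [mul1, Matrix.mul_apply, Fin.sum_univ_two, map_add, map_mul, map_mul]
    refine Eq.trans ?_ (h1 _ _).symm
    change pN h n N (entL h Φ (γ * γ') i j) = pN h n N (entL h Φ γ i 0) *
      pN h n N (entL h Φ γ' 0 j) + pN h n N (entL h Φ γ i 1) * pN h n N (entL h Φ γ' 1 j)
    simp only [pN_entL]
    rw [map_mul, mul1, Matrix.mul_apply, Fin.sum_univ_two]

theorem pN_rLL (N : ℕ) : (SpecialLinearGroup.map (pN h n N)).comp (rLL h Φ) = rL h Φ N :=
  MonoidHom.ext fun _ => SL_ext fun _ _ => rfl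

end dom

end Pool.Agent.SuDiv
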