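import Pool.Agent.Lib.MP_305fdd_al.Su.Div.Map

/-!
# MP_305fdd_al, surface groups, block DIV: evaluation of power series at nilpotent elements; the field
with four elements
-/

set_option autoImplicit false
set_option linter.unusedSectionVars false

namespace Pool.Agent.SuDiv

open Matrix Pool.Agent.Su

section ev

variable {W k A : Type} [Finite W] [Field k] [CommRing A] {𝔫 : Ideal A}

theorem ideal_le (f0 : k →+* A) {a : W → A} (ha : ∀ v, a v ∈ 𝔫) (N : ℕ) :
    MvPolynomial.idealOfVars W k ^ N ≤
      Ideal.comap (MvPolynomial.eval₂Hom f0 a) (𝔫 ^ N) := by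
  rw [← Ideal.map_le_iff_le_comap, Ideal.map_pow]
  refine Ideal.pow_right_mono ?_ N
  rw [MvPolynomial.idealOfVars, Ideal.map_span, Ideal.span_le]
  rintro _ ⟨_, ⟨v, rfl⟩, rfl⟩
  simpa using ha v

/-- evaluation of power series at nilpotent elements -/
noncomputable def evS (f0 : k →+* A) {a : W → A} (ha : ∀ v, a v ∈ 𝔫) {N : ℕ} (hN : 𝔫 ^ N = ⊥) :
    MvPowerSeries W k →+* A :=
  (Ideal.Quotient.lift (MvPolynomial.idealOfVars W k ^ N) (MvPolynomial.eval₂Hom f0 a)
    (fun p hp => by
      have := ideal_le f0 ha N hp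
      rwa [Ideal.mem_comap, hN, Ideal.mem_bot] at this)).comp
    (MvPowerSeries.truncTotalAlgHom W k N).toRingHom

variable (f0 : k →+* A) {a : W → A} (ha : ∀ v, a v ∈ 𝔫) {N : ℕ} (hN : 𝔫 ^ N = ⊥)

theorem evS_apply (f : MvPowerSeries W k) :
    evS f0 ha hN f = MvPolynomial.eval₂Hom f0 a (MvPowerSeries.truncTotal N f) := rfl

theorem evS_coe (p : MvPolynomial W k) :
    evS f0 ha hN (p : MvPowerSeries W k) = MvPolynomial.eval₂Hom f0 a p := by
  have h1 := (MvPowerSeries.truncTotalAlgHom W k N).commutes p
  unfold evS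
  rw [RingHom.comp_apply]
  change Ideal.Quotient.lift _ _ _ (MvPowerSeries.truncTotalAlgHom W k N
    (algebraMap (MvPolynomial W k) (MvPowerSeries W k) p)) = _
  rw [h1]
  rfl

theorem evS_X (v : W) : evS f0 ha hN (MvPowerSeries.X v) = a v := by
  have h1 := evS_coe f0 ha hN (MvPolynomial.X v)
  rw [MvPolynomial.coe_X] at h1
  rw [h1]
  simp

theorem evS_C (c : k) : evS f0 ha hN (MvPowerSeries.C c) = f0 c := by
  have h1 := evS_coe f0 ha hN (MvPolynomial.C c)
  rw [MvPolynomial.coe_C] at h1
  rw [h1]
  simp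

theorem evS_zero {f : MvPowerSeries W k} (hf : ∀ m : W →₀ ℕ, m.degree < N →
    MvPowerSeries.coeff m f = 0) : evS f0 ha hN f = 0 := by
  rw [evS_apply]
  have h1 : MvPowerSeries.truncTotal N f = 0 := by
    ext m
    rw [MvPolynomial.coeff_zero]
    by_cases h : m.degree < N
    · rw [MvPowerSeries.coeff_truncTotal f h, hf m h]
    · exact MvPowerSeries.coeff_truncTotal_eq_zero f (not_lt.1 h)
  rw [h1, map_zero]

theorem evS_mem {f : MvPowerSeries W k} (hf : MvPowerSeries.coeff 0 f = 0) :
    evS f0 ha hN f ∈ 𝔫 := by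
  rw [evS_apply]
  have h1 : MvPowerSeries.truncTotal N f ∈ MvPolynomial.idealOfVars W k ^ 1 := by
    rw [MvPolynomial.mem_pow_idealOfVars_iff']
    intro m hm
    have hm0 : m = 0 := by
      rw [Nat.lt_one_iff, Finsupp.degree_eq_zero_iff] at hm
      exact hm
    subst hm0
    by_cases h : (0 : W →₀ ℕ).degree < N
    · rw [MvPowerSeries.coeff_truncTotal f h, hf]
    · exact MvPowerSeries.coeff_truncTotal_eq_zero f (not_lt.1 h)
  have h2 := ideal_le f0 ha 1 h1
  rwa [Ideal.mem_comap, pow_one] at h2

end ev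

/-! ### the field with four elements -/

open Polynomial in
/-- the polynomial `X ^ 2 + X + 1` over the field with two elements -/
noncomputable def f4 : Polynomial (ZMod 2) := X ^ 2 + X + 1

theorem f4_monic : f4.Monic := by
  unfold f4
  monicity!

instance f4_irr : Fact (Irreducible f4) := ⟨by
  have hd : f4.natDegree = 2 := by unfold f4; compute_degree!
  rw [Polynomial.Monic.irreducible_iff_roots_eq_zero_of_degree_le_three f4_monic (by omega) (by omega)]
  rw [Multiset.eq_zero_iff_forall_notMem]
  intro a ha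
  rw [Polynomial.mem_roots f4_monic.ne_zero, Polynomial.IsRoot.def] at ha
  unfold f4 at ha
  simp only [Polynomial.eval_add, Polynomial.eval_pow, Polynomial.eval_X, Polynomial.eval_one] at ha
  revert ha
  revert a
  decide⟩

/-- the field with four elements -/
abbrev F4 : Type := AdjoinRoot f4

/-- the root -/
noncomputable def ze : F4 := AdjoinRoot.root f4

instance : CharP F4 2 := charP_of_injective_algebraMap (algebraMap (ZMod 2) F4).injective 2

instance : Finite F4 := by
  have : Module.Finite (ZMod 2) F4 := f4_monic.finite_adjoinRoot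
  exact Module.finite_of_finite (ZMod 2)

theorem ze_root : ze ^ 2 + ze + 1 = 0 := by
  have h1 := AdjoinRoot.eval₂_root f4
  unfold f4 at h1
  simp only [Polynomial.eval₂_add, Polynomial.eval₂_pow, Polynomial.eval₂_X,
    Polynomial.eval₂_one] at h1
  exact h1

theorem Ze_F4 : Ze (frobenius F4 2) ze where
  root := ze_root
  swap := by
    rw [frobenius_def]
    have h2 : (2 : F4) = 0 := CharTwo.two_eq_zero
    linear_combination ze_root - (ze + 1) * h2
  invol := by
    have key : (frobenius F4 2).comp (frobenius F4 2) = RingHom.id F4 := by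
      refine AdjoinRoot.ringHom_ext (Subsingleton.elim _ _) ?_
      change (ze ^ 2) ^ 2 = ze
      have h2 : (2 : F4) = 0 := CharTwo.two_eq_zero
      linear_combination (ze ^ 2 - ze) * ze_root + ze * (0 : F4) * h2
    intro a
    exact DFunLike.congr_fun key a

/-- homomorphisms of the field with four elements -/
noncomputable def f4lift {A : Type} [CommRing A] [Algebra (ZMod 2) A] {z : A}
    (hz : z ^ 2 + z + 1 = 0) : F4 →+* A :=
  AdjoinRoot.lift (algebraMap (ZMod 2) A) z (by
    unfold f4
    simp only [Polynomial.eval₂_add, Polynomial.eval₂_pow, Polynomial.eval₂_X,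
      Polynomial.eval₂_one]
    exact hz)

theorem f4lift_ze {A : Type} [CommRing A] [Algebra (ZMod 2) A] {z : A}
    (hz : z ^ 2 + z + 1 = 0) : f4lift hz ze = z := AdjoinRoot.lift_root _

end Pool.Agent.SuDiv
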