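import Pool.Agent.Lib.MP_305fdd_al.Su.Div.Cpl

/-!
# MP_305fdd_al, surface groups, block DIV: representations over Noetherian domains
-/

set_option autoImplicit false
set_option linter.unusedSectionVars false

namespace Pool.Agent.SuDiv

open Matrix Pool.Agent.Su Pool.Agent.Lib.MP_305fdd_al

section D3

variable {n : ℕ} [NeZero n] {Λ : Type} [Group Λ] (Φ : NatBij (SurfaceGroup (n + 1)) Λ)

theorem II_one_le : II Ze_F4 n 1 ≤ nn F4 n := by
  unfold II
  refine sup_le ?_ le_rfl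
  rw [Ideal.span_le, Set.singleton_subset_iff]
  exact Jn_mono (by norm_num) (HQ_Q Ze_F4).two

/-- modulo the maximal ideal the representation of the slice is `a_0 ↦ diag(ζ, ζ + 1)`, the other
generators go to one -/
theorem fS_one (w : FreeGroup (Fin (n + 1) ⊕ Fin (n + 1))) {g : SpecialLinearGroup (Fin 2) (SS F4 n)}
    (hg : Cg (nn F4 n) g) (hw : fS Ze_F4 n w = g) (i j : Fin 2) :
    (rS Ze_F4 n 1 (pm (n + 1) w)).1 i j = (1 : Matrix (Fin 2) (Fin 2) _) i j := by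
  rw [rS_pm, slmap, hw]
  have h1 := hg i j
  rw [Matrix.sub_apply] at h1
  have h2 : g.1 i j - (1 : Matrix (Fin 2) (Fin 2) (SS F4 n)) i j ∈ II Ze_F4 n 1 :=
    Jn_le_II _ _ h1
  have h3 := Ideal.Quotient.eq_zero_iff_mem.2 h2
  rw [map_sub, sub_eq_zero] at h3
  rw [h3, Matrix.one_apply, Matrix.one_apply]
  split_ifs <;> simp

theorem B0_cg : Cg (nn F4 n) (fS Ze_F4 n (FreeGroup.of (Sum.inr 0))) := by
  have h2 := (hS F4 n).two
  have hQ3 : (2 : SS F4 n ⧸ nn F4 n) = 0 := by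
    rw [← map_ofNat (Ideal.Quotient.mk (nn F4 n)) 2, h2, map_zero]
  have h := hS F4 n
  have hz := Ze_F4.rootC (n := n)
  set D := uD F4 n with hD
  have hP : ∀ i j, Ideal.Quotient.mk (nn F4 n) ((D.P h hz).1 i j) =
      (1 : Matrix (Fin 2) (Fin 2) (SS F4 n ⧸ nn F4 n)) i j := by
    intro i j
    have := congrArg (fun g : SpecialLinearGroup (Fin 2) (SS F4 n ⧸ nn F4 n) => g.1 i j)
      (mk_P h hz D)
    exact this
  have hd := dt_mem h hz D
  have hi := inv_add_one h hd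
  have hk : ∀ z : SS F4 n, Ideal.Quotient.mk (nn F4 n) (kap (nn F4 n) z D.u
      (dt (lam (MvPowerSeries.C ze) (D.x0 : SS F4 n))
        (lam (MvPowerSeries.C ze + 1) (D.x0 : SS F4 n)) (D.P h hz).1)) = 1 := by
    intro z
    unfold kap
    rw [map_mul, mk_tau h D.u.2, one_mul, map_add, map_one,
      Ideal.Quotient.eq_zero_iff_mem.2 (Ideal.mul_mem_right _ _ (h.asq_mem hi)), add_zero]
  rw [cg_iff]
  have hfS : fS Ze_F4 n (FreeGroup.of (Sum.inr 0)) =
      B0 h hz D.u (lam_mul h hz D.x0.2) (dt_mem h hz D) := by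
    unfold fS Dat.fr
    rw [FreeGroup.lift_apply_of]
    rfl
  rw [hfS]
  have hl := mk_lam (z := (MvPowerSeries.C ze : SS F4 n)) h D.x0.2
  have hl' := mk_lam (z := (MvPowerSeries.C ze + 1 : SS F4 n)) h D.x0.2
  refine SL_ext fun i j => ?_
  rw [slmap]
  fin_cases i <;> fin_cases j
  · change Ideal.Quotient.mk (nn F4 n) (kap (nn F4 n) (MvPowerSeries.C ze) D.u _ *
      (lam (MvPowerSeries.C ze) D.x0 + (D.P h hz).1 1 1 * lam (MvPowerSeries.C ze + 1) D.x0)) = 1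
    rw [map_mul, hk, map_add, map_mul, hP, hl, hl', Matrix.one_apply_eq, map_add, map_one]
    linear_combination Ideal.Quotient.mk (nn F4 n) (MvPowerSeries.C ze) * hQ3
  · change Ideal.Quotient.mk (nn F4 n) (kap (nn F4 n) (MvPowerSeries.C ze + 1) D.u _ *
      ((D.P h hz).1 0 1 * lam (MvPowerSeries.C ze + 1) D.x0)) = 0
    rw [map_mul, map_mul, hP, Matrix.one_apply_ne (by decide), zero_mul, mul_zero]
  · change Ideal.Quotient.mk (nn F4 n) (kap (nn F4 n) (MvPowerSeries.C ze) D.u _ *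
      ((D.P h hz).1 1 0 * lam (MvPowerSeries.C ze) D.x0)) = 0
    rw [map_mul, map_mul, hP, Matrix.one_apply_ne (by decide), zero_mul, mul_zero]
  · change Ideal.Quotient.mk (nn F4 n) (kap (nn F4 n) (MvPowerSeries.C ze + 1) D.u _ *
      (lam (MvPowerSeries.C ze + 1) D.x0 + (D.P h hz).1 0 0 * lam (MvPowerSeries.C ze) D.x0)) = 1
    rw [map_mul, hk, map_add, map_mul, hP, hl, hl', Matrix.one_apply_eq, map_add, map_one]
    linear_combination Ideal.Quotient.mk (nn F4 n) (MvPowerSeries.C ze) * hQ3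

theorem M_cg (j : JJ n) : Cg (nn F4 n) ((uD F4 n).M (hS F4 n) Ze_F4.rootC j) := M_one Ze_F4 j

theorem fS_A (i : Fin n) : fS Ze_F4 n (FreeGroup.of (Sum.inl i.succ)) =
    (uD F4 n).M (hS F4 n) Ze_F4.rootC (i, false) := by
  unfold fS Dat.fr
  rw [FreeGroup.lift_apply_of]
  rfl

theorem fS_B (i : Fin n) : fS Ze_F4 n (FreeGroup.of (Sum.inr i.succ)) =
    (uD F4 n).M (hS F4 n) Ze_F4.rootC (i, true) := by
  unfold fS Dat.fr
  rw [FreeGroup.lift_apply_of]
  rfl

theorem fS_A0 : fS Ze_F4 n (FreeGroup.of (Sum.inl 0)) =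
    A0 (hS F4 n) Ze_F4.rootC (uD F4 n).x0 := by
  unfold fS Dat.fr
  rw [FreeGroup.lift_apply_of]
  rfl

/-- the representation of `Λ` over a ring with a nilpotent ideal, near the point of the slice, is
conjugate to a specialisation of the slice -/
theorem D2L {A : Type} [CommRing A] [Algebra (ZMod 2) A] [Finite A] {N : ℕ}
    (θ : A →+* SS F4 n ⧸ II Ze_F4 n 1) (hN : (RingHom.ker θ) ^ N = ⊥)
    (r : Λ →* SpecialLinearGroup (Fin 2) A)
    (hr : (SpecialLinearGroup.map θ).comp r = rL Ze_F4 Φ 1) :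
    ∃ (c : SpecialLinearGroup (Fin 2) A) (ψ : SS F4 n ⧸ II Ze_F4 n N →+* A),
      r = ((MulAut.conj c).toMonoidHom.comp (SpecialLinearGroup.map ψ)).comp
        (rL Ze_F4 Φ N) := by
  have h2 : (2 : A) = 0 := by
    rw [← map_ofNat (algebraMap (ZMod 2) A) 2, show (2 : ZMod 2) = 0 from rfl, map_zero]
  set 𝔫 := RingHom.ker θ with h𝔫
  have h : LR A 𝔫 := LR.of_nilpotent h2 N hN
  set s : SurfaceGroup (n + 1) →* SpecialLinearGroup (Fin 2) A := Φ.invFun _ r with hs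
  have hrs : Φ.toFun _ s = r := Φ.right_inv _ r
  have hres : (SpecialLinearGroup.map θ).comp s = rS Ze_F4 n 1 := by
    apply Φ.injective
    rw [Φ.nat, hrs, hr]
    rfl
  have hres' : ∀ w i j, θ ((s (pm (n + 1) w)).1 i j) = (rS Ze_F4 n 1 (pm (n + 1) w)).1 i j := by
    intro w i j
    rw [← hres]
    rfl
  have hcg : ∀ w, Cg (nn F4 n) (fS Ze_F4 n w) → Cg 𝔫 (s (pm (n + 1) w)) := by
    intro w hw i j
    rw [h𝔫, RingHom.mem_ker, Matrix.sub_apply, map_sub, hres', fS_one w hw rfl, sub_eq_zero,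
      Matrix.one_apply, Matrix.one_apply]
    split_ifs <;> simp
  -- the entries of the image of `a_0`
  have hA0 : ∀ i j, θ ((s (pm (n + 1) (FreeGroup.of (Sum.inl 0)))).1 i j) =
      Ideal.Quotient.mk (II Ze_F4 n 1) ((A0 (hS F4 n) Ze_F4.rootC (uD F4 n).x0).1 i j) := by
    intro i j
    rw [hres', rS_pm, slmap, fS_A0]
  have hlam : ∀ z : SS F4 n, Ideal.Quotient.mk (II Ze_F4 n 1) (lam z (uD F4 n).x0) =
      Ideal.Quotient.mk (II Ze_F4 n 1) z := by
    intro z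
    rw [← sub_eq_zero, ← map_sub, Ideal.Quotient.eq_zero_iff_mem]
    refine Jn_le_II _ _ ?_
    rw [← Ideal.Quotient.eq_zero_iff_mem, map_sub, mk_lam (hS F4 n) (uD F4 n).x0.2, sub_self]
  set z0 := (s (pm (n + 1) (FreeGroup.of (Sum.inl 0)))).1 0 0 with hz0
  have hθz0 : θ z0 = Ideal.Quotient.mk (II Ze_F4 n 1) (MvPowerSeries.C ze) := by
    rw [hz0, hA0]
    exact hlam _
  have he : z0 ^ 2 + z0 + 1 ∈ 𝔫 := by
    rw [h𝔫, RingHom.mem_ker, map_add, map_add, map_pow, map_one, hθz0, ← map_pow, ← map_add,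
      ← map_one (Ideal.Quotient.mk (II Ze_F4 n 1)), ← map_add, Ze_F4.rootC, map_zero]
  set z := z0 + asq 𝔫 (z0 ^ 2 + z0 + 1) with hz
  have hzr : z ^ 2 + z + 1 = 0 := by
    have h3 := h.asq_eq he
    rw [hz]
    linear_combination h3 + (z0 ^ 2 + z0 + 1 + z0 * asq 𝔫 (z0 ^ 2 + z0 + 1)) * h2
  have hθz : θ z = Ideal.Quotient.mk (II Ze_F4 n 1) (MvPowerSeries.C ze) := by
    have h3 : θ (asq 𝔫 (z0 ^ 2 + z0 + 1)) = 0 := by
      rw [← RingHom.mem_ker]
      exact h.asq_mem he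
    rw [hz, map_add, h3, add_zero, hθz0]
  obtain ⟨c, ψ, hc⟩ := D2 hN hzr s (by
      rw [RingHom.mem_ker, map_sub, hθz, hθz0, sub_self]) (by
      rw [RingHom.mem_ker, hA0]
      exact map_zero _) (by
      rw [RingHom.mem_ker, hA0]
      exact map_zero _) (by
      rw [RingHom.mem_ker, map_sub, hA0, map_add, hθz, map_one, sub_eq_zero]
      exact (hlam (MvPowerSeries.C ze + 1)).trans (by rw [map_add, map_one]))
      (hcg _ B0_cg) (fun i => hcg _ (by rw [fS_A]; exact M_cg _))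
      (fun i => hcg _ (by rw [fS_B]; exact M_cg _))
  refine ⟨c, ψ, ?_⟩
  rw [← hrs, hc, Φ.nat]
  rfl

/-- (D3), core: a representation over a Noetherian domain which specialises to the slice -/
theorem D3 {O : Type} [CommRing O] [IsDomain O] [IsNoetherianRing O] [Algebra (ZMod 2) O]
    (ρ : Λ →* SpecialLinearGroup (Fin 2) O) (φ : ∀ N, O →+* SS F4 n ⧸ II Ze_F4 n N)
    (hφ : ∀ N, (SpecialLinearGroup.map (φ N)).comp ρ = rL Ze_F4 Φ N) (γ : Λ)
    (hγ : (ρ γ).1.trace = 0) : ρ γ = 1 := by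
  have h1 : ∀ N, rL Ze_F4 Φ N γ = 1 := by
    refine D1 Ze_F4 Φ γ fun N => ?_
    rw [← hφ, MonoidHom.comp_apply, Matrix.trace_fin_two, slmap, slmap, ← map_add,
      ← Matrix.trace_fin_two, hγ, map_zero]
  set 𝔪 := RingHom.ker (φ 1) with h𝔪
  have hne : 𝔪 ≠ ⊤ := by
    intro h
    have h3 : (1 : O) ∈ 𝔪 := by rw [h]; trivial
    rw [h𝔪, RingHom.mem_ker, map_one, ← map_one (Ideal.Quotient.mk (II Ze_F4 n 1)),
      Ideal.Quotient.eq_zero_iff_mem] at h3
    have h4 := constCoeff_of_mem (II_one_le h3)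
    rw [map_one] at h4
    exact one_ne_zero h4
  have hfin : Finite (O ⧸ 𝔪) := by
    refine Finite.of_injective (Ideal.Quotient.lift 𝔪 (φ 1) fun a ha => ha) ?_
    exact RingHom.kerLift_injective (φ 1)
  have key : ∀ (N : ℕ) (i j : Fin 2), (ρ γ).1 i j - (1 : Matrix (Fin 2) (Fin 2) O) i j ∈
      𝔪 ^ (N + 1) := by
    intro N i j
    have hfin' : Finite (O ⧸ 𝔪 ^ (N + 1)) :=
      Ideal.finite_quotient_pow (IsNoetherian.noetherian 𝔪) (N + 1)
    let θ : O ⧸ 𝔪 ^ (N + 1) →+* SS F4 n ⧸ II Ze_F4 n 1 :=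
      Ideal.Quotient.lift (𝔪 ^ (N + 1)) (φ 1) fun a ha =>
        (Ideal.pow_le_self (Nat.succ_ne_zero N)) ha
    have hker : RingHom.ker θ = 𝔪.map (Ideal.Quotient.mk (𝔪 ^ (N + 1))) := by
      ext x
      obtain ⟨y, rfl⟩ := Ideal.Quotient.mk_surjective x
      rw [RingHom.mem_ker, Ideal.mem_map_iff_of_surjective _ Ideal.Quotient.mk_surjective]
      constructor
      · intro h
        exact ⟨y, h, rfl⟩
      · rintro ⟨y', hy', e⟩
        rw [← e]
        exact hy'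
    have hpow : (RingHom.ker θ) ^ (N + 1) = ⊥ := by
      rw [hker, ← Ideal.map_pow, Ideal.map_quotient_self]
    obtain ⟨c, ψ, hc⟩ := D2L Φ θ hpow
      ((SpecialLinearGroup.map (Ideal.Quotient.mk (𝔪 ^ (N + 1)))).comp ρ) (by
        rw [← hφ 1]
        exact MonoidHom.ext fun g => SL_ext fun i j => rfl)
    have h3 := DFunLike.congr_fun hc γ
    rw [MonoidHom.comp_apply, MonoidHom.comp_apply, h1, map_one] at h3
    have h4 := congrArg (fun g : SpecialLinearGroup (Fin 2) (O ⧸ 𝔪 ^ (N + 1)) => g.1 i j) h3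
    change Ideal.Quotient.mk (𝔪 ^ (N + 1)) ((ρ γ).1 i j) =
      (1 : Matrix (Fin 2) (Fin 2) (O ⧸ 𝔪 ^ (N + 1))) i j at h4
    rw [← Ideal.Quotient.eq_zero_iff_mem, map_sub, h4, Matrix.one_apply, Matrix.one_apply]
    split_ifs <;> simp
  refine SL_ext fun i j => ?_
  rw [one1, ← sub_eq_zero]
  have h5 := Ideal.iInf_pow_eq_bot_of_isDomain 𝔪 hne
  rw [← Ideal.mem_bot, ← h5, Ideal.mem_iInf]
  intro N
  rcases N with _ | N
  · rw [pow_zero, Ideal.one_eq_top]; trivial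
  · exact key N i j

end D3

end Pool.Agent.SuDiv
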