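import Pool.Agent.Lib.MP_305fdd_al.Su.Div.Lead

/-!
# MP_305fdd_al, surface groups, block DIV: the main lemma on power series
-/

set_option autoImplicit false
set_option linter.unusedSectionVars false

namespace Pool.Agent.SuDiv

open Finsupp

variable {E J k : Type} [Field k] [Finite E] [Fintype J] [Nontrivial J]

/-- the hypotheses on the equation `Q` of the slice -/
structure HQ (σ : k →+* k) (bar : J ≃ J) (Q : S E J k) : Prop where
  two : Q ∈ Jn E J k 2
  ld : lead 2 Q = om E k bar
  wt : Q ∈ Wt E J k 0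
  inv : tH σ Q = Q

variable {σ : k →+* k} {bar : J ≃ J} {Q : S E J k}

theorem HQ.order (h : HQ σ bar Q) : Q.order = 2 := by
  have h1 : (2 : ℕ∞) ≤ Q.order := by exact_mod_cast mem_Jn.1 h.two
  refine le_antisymm ?_ h1
  by_contra hlt
  push Not at hlt
  have h2 : Q ∈ Jn E J k 3 := by
    rw [mem_Jn]
    exact_mod_cast Order.add_one_le_of_lt hlt
  have h3 := lead_of_lt (by norm_num : (2 : ℕ) < 3) h2
  rw [h.ld] at h3
  exact (om_prime (E := E) (k := k) bar).ne_zero h3

theorem HQ.lead_mul (h : HQ σ bar Q) {d : ℕ} {c : S E J k} (hc : Q * c ∈ Jn E J k d) :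
    om E k bar ∣ lead d (Q * c) := by
  rcases Nat.lt_or_ge d 2 with hd | hd
  · rw [lead_of_lt hd (Ideal.mul_mem_right c _ h.two)]
    exact dvd_zero _
  · obtain ⟨e, rfl⟩ : ∃ e, d = 2 + e := ⟨d - 2, by omega⟩
    have h1 : c ∈ Jn E J k e := by
      rw [mem_Jn] at hc ⊢
      rw [MvPowerSeries.order_mul, h.order] at hc
      push_cast at hc
      exact (ENat.add_le_add_iff_left (by exact_mod_cast ENat.natCast_ne_top 2)).1 hc
    rw [SuDiv.lead_mul h.two h1, h.ld]
    exact Dvd.intro _ rfl

theorem om_homogeneous (E k : Type) [Field k] (bar : J ≃ J) : (om E k bar).IsHomogeneous 2 := by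
  unfold om
  refine MvPolynomial.IsHomogeneous.sum _ _ _ fun j _ => ?_
  exact (MvPolynomial.isHomogeneous_X _ _).mul (MvPolynomial.isHomogeneous_X _ _)

/-- the quotient of a homogeneous multiple of the quadric can be taken homogeneous -/
theorem dvd_lead (bar : J ≃ J) {m : ℕ} {p : MvPolynomial (V E J) k} (hp : p.IsHomogeneous m)
    (h : om E k bar ∣ p) : p = 0 ∨ ∃ e h', m = 2 + e ∧ h'.IsHomogeneous e ∧ p = om E k bar * h' := by
  obtain ⟨g, rfl⟩ := h
  have hp' := (MvPolynomial.homogeneousComponent_of_mem (m := m)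
    ((MvPolynomial.mem_homogeneousSubmodule _ _).2 hp))
  rw [if_pos rfl] at hp'
  by_cases hm : m < 2
  · left
    rw [← hp']
    conv_lhs => rw [← MvPolynomial.sum_homogeneousComponent g, Finset.mul_sum, map_sum]
    refine Finset.sum_eq_zero fun i _ => ?_
    have h1 : (om E k bar * MvPolynomial.homogeneousComponent i g).IsHomogeneous (2 + i) :=
      (om_homogeneous E k bar).mul (MvPolynomial.homogeneousComponent_isHomogeneous i g)
    rw [MvPolynomial.homogeneousComponent_of_mem ((MvPolynomial.mem_homogeneousSubmodule _ _).2 h1),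
      if_neg (by omega)]
  · right
    obtain ⟨e, rfl⟩ : ∃ e, m = 2 + e := ⟨m - 2, by omega⟩
    refine ⟨e, MvPolynomial.homogeneousComponent e g, rfl,
      MvPolynomial.homogeneousComponent_isHomogeneous e g, ?_⟩
    rw [← hp']
    conv_lhs => rw [← MvPolynomial.sum_homogeneousComponent g, Finset.mul_sum, map_sum]
    have h2 : ∀ i, MvPolynomial.homogeneousComponent (2 + e)
        (om E k bar * MvPolynomial.homogeneousComponent i g) =
        if i = e then om E k bar * MvPolynomial.homogeneousComponent i g else 0 := by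
      intro i
      have h1 : (om E k bar * MvPolynomial.homogeneousComponent i g).IsHomogeneous (2 + i) :=
        (om_homogeneous E k bar).mul (MvPolynomial.homogeneousComponent_isHomogeneous i g)
      rw [MvPolynomial.homogeneousComponent_of_mem
        ((MvPolynomial.mem_homogeneousSubmodule _ _).2 h1)]
      by_cases hi : i = e
      · rw [if_pos (by omega), if_pos hi]
      · rw [if_neg (by omega), if_neg hi]
    rw [Finset.sum_congr rfl fun i _ => h2 i, Finset.sum_ite_eq']
    split_ifs with hmem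
    · rfl
    · have : MvPolynomial.homogeneousComponent e g = 0 := by
        apply MvPolynomial.homogeneousComponent_eq_zero
        rw [Finset.mem_range] at hmem
        omega
      rw [this, mul_zero]

theorem lead_homogeneous (d : ℕ) (f : S E J k) : (lead d f).IsHomogeneous d :=
  MvPolynomial.homogeneousComponent_isHomogeneous _ _

/-- `f` is congruent to an element of order `≥ m`, or to an element of order `d < m` whose leading
form is not divisible by the quadric -/
theorem HQ.dich (h : HQ σ bar Q) (f : S E J k) (m : ℕ) :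
    (∃ a, f - Q * a ∈ Jn E J k m) ∨
    ∃ d < m, ∃ a F, f = Q * a + F ∧ F ∈ Jn E J k d ∧ ¬ om E k bar ∣ lead d F := by
  induction m with
  | zero => exact Or.inl ⟨0, by rw [Jn_zero]; trivial⟩
  | succ m ih =>
    rcases ih with ⟨a, ha⟩ | ⟨d, hd, hh⟩
    · by_cases hdv : om E k bar ∣ lead m (f - Q * a)
      · left
        rcases dvd_lead bar (lead_homogeneous m _) hdv with h1 | ⟨e, g, he, hg, h1⟩
        · exact ⟨a, mem_succ ha h1⟩
        · subst he
          refine ⟨a + (g : S E J k), ?_⟩
          have h2 : f - Q * (a + (g : S E J k)) = (f - Q * a) - Q * (g : S E J k) := by ring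
          rw [h2]
          have h3 : Q * (g : S E J k) ∈ Jn E J k (2 + e) := Jn_mul h.two (coe_mem hg)
          refine mem_succ (sub_mem ha h3) ?_
          rw [lead_sub, SuDiv.lead_mul h.two (coe_mem hg), h.ld, lead_coe hg, h1, sub_self]
      · exact Or.inr ⟨m, Nat.lt_succ_self m, a, f - Q * a, by ring, ha, hdv⟩
    · exact Or.inr ⟨d, by omega, hh⟩

theorem coeff_pr_lead (w : ℤ) (d : ℕ) (F : S E J k) (m : V E J →₀ ℕ)
    (hm : m ∈ (lead d (pr w F)).support) : (wd yw m : ℤ) - wd zw m = w := by
  rw [MvPolynomial.mem_support_iff, coeff_lead] at hm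
  split_ifs at hm with h1
  · exact pr_mem w F m hm
  · exact absurd rfl hm

/-- MAIN LEMMA -/
theorem HQ.main [CharP k 2] (h : HQ σ bar Q) (hσ : ∀ a, σ (σ a) = a) (hbar : ∀ j, bar (bar j) = j)
    {f g : S E J k} (hf : f ∈ Wt E J k 1) {n m : ℕ} (hmn : 2 * m ≤ n)
    (hfg : ∃ a, f * tH σ f - g ^ 2 - Q * a ∈ Jn E J k n) :
    (∃ a, f - Q * a ∈ Jn E J k m) ∧ ∃ a, g - Q * a ∈ Jn E J k m := by
  have h20 : (2 : S E J k) = 0 := by
    rw [← map_ofNat (MvPowerSeries.C (σ := V E J) (R := k)) 2, CharTwo.two_eq_zero, map_zero]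
  obtain ⟨a₀, ha₀⟩ := hfg
  have hp := om_prime (E := E) (k := k) bar
  have key : ∃ a, f - Q * a ∈ Jn E J k m := by
    rcases h.dich f m with h1 | ⟨d, hd, a, F₀, hF₀, hF₀d, hF₀l⟩
    · exact h1
    exfalso
    -- the part of weight one
    set F := pr 1 F₀ with hFdef
    have hF1 : f = Q * pr 1 a + F := by
      have := congrArg (pr 1) hF₀
      rwa [pr_eq hf, pr_add, pr_mul h.wt] at this
    have hFd : F ∈ Jn E J k d := pr_Jn hF₀d
    have hFl : ¬ om E k bar ∣ lead d F := by
      intro hdv
      apply hF₀l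
      have h2 : F₀ - F = Q * (pr 1 a - a) := by
        have : Q * a + F₀ = Q * pr 1 a + F := hF₀.symm.trans hF1
        linear_combination this
      have h3 : om E k bar ∣ lead d (Q * (pr 1 a - a)) :=
        h.lead_mul (by rw [← h2]; exact sub_mem hF₀d hFd)
      rw [← h2, lead_sub] at h3
      have := dvd_add h3 hdv
      rwa [sub_add_cancel] at this
    have hFw : ∀ e ∈ (lead d F).support, wd yw e = wd zw e + 1 := by
      intro e he
      have := coeff_pr_lead 1 d F₀ e he
      omega
    -- the product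
    obtain ⟨c, hc⟩ : ∃ c, F * tH σ F - g ^ 2 - Q * c ∈ Jn E J k n := by
      refine ⟨a₀ - pr 1 a * tH σ f - f * tH σ (pr 1 a) + Q * pr 1 a * tH σ (pr 1 a), ?_⟩
      have h2 : F = f - Q * pr 1 a := by rw [hF1]; ring
      have h3 : tH σ F = tH σ f - Q * tH σ (pr 1 a) := by
        rw [h2, map_sub, map_mul, h.inv]
      have h4 : F * tH σ F - g ^ 2 -
          Q * (a₀ - pr 1 a * tH σ f - f * tH σ (pr 1 a) + Q * pr 1 a * tH σ (pr 1 a)) =
          f * tH σ f - g ^ 2 - Q * a₀ := by
        rw [h3, h2]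
        ring
      rw [h4]
      exact ha₀
    have hn : n = 2 * d + 1 + (n - (2 * d + 1)) := by omega
    have hc' : F * tH σ F - g ^ 2 - Q * c ∈ Jn E J k (2 * d + 1) :=
      Jn_mono (by omega) hc
    have hFF : F * tH σ F ∈ Jn E J k (d + d) := Jn_mul hFd (tH_Jn σ hFd)
    -- `g ^ 2 + Q c` has order `≥ 2 d` with the same leading form
    obtain ⟨H, hH⟩ : ∃ H : MvPolynomial (V E J) k,
        om E k bar ∣ lead (d + d) (F * tH σ F) - H ^ 2 := by
      rcases h.dich g d with ⟨b, hb⟩ | ⟨d', hd', b, G, hG, hGd, hGl⟩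
      · refine ⟨lead d (g - Q * b), ?_⟩
        set G := g - Q * b with hGdef
        have h2 : F * tH σ F - G * G = Q * (c + Q * b ^ 2) + (F * tH σ F - g ^ 2 - Q * c) := by
          rw [hGdef]
          linear_combination (Q * g * b - Q * Q * b ^ 2) * h20
        have h3 : G * G ∈ Jn E J k (d + d) := Jn_mul hb hb
        have h4 : Q * (c + Q * b ^ 2) ∈ Jn E J k (d + d) := by
          have : Q * (c + Q * b ^ 2) = (F * tH σ F - G * G) - (F * tH σ F - g ^ 2 - Q * c) := by
            rw [h2]; ring
          rw [this]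
          exact sub_mem (sub_mem hFF h3) (Jn_mono (by omega) hc')
        have h5 := h.lead_mul h4
        have h6 : lead (d + d) (F * tH σ F) - lead (d + d) (G * G) =
            lead (d + d) (Q * (c + Q * b ^ 2)) := by
          rw [← lead_sub, h2, lead_add, lead_of_lt (by omega) hc', add_zero]
        rw [SuDiv.lead_mul hb hb, ← pow_two] at h6
        rw [h6]
        exact h5
      · exfalso
        have h2 : G * G = Q * (c + Q * b ^ 2) + (F * tH σ F - (F * tH σ F - g ^ 2 - Q * c)) := by
          rw [hG]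
          linear_combination (- Q * c - Q * Q * b ^ 2 - Q * b * G) * h20
        have h3 : G * G ∈ Jn E J k (d' + d') := Jn_mul hGd hGd
        have h4 : F * tH σ F - (F * tH σ F - g ^ 2 - Q * c) ∈ Jn E J k (d' + d' + 1) :=
          sub_mem (Jn_mono (by omega) hFF) (Jn_mono (by omega) hc')
        have h5 : Q * (c + Q * b ^ 2) ∈ Jn E J k (d' + d') := by
          have : Q * (c + Q * b ^ 2) = G * G - (F * tH σ F - (F * tH σ F - g ^ 2 - Q * c)) := by
            rw [h2]; ring
          rw [this]
          exact sub_mem h3 (Jn_mono (by omega) h4)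
        have h6 := h.lead_mul h5
        have h7 : lead (d' + d') (G * G) = lead (d' + d') (Q * (c + Q * b ^ 2)) := by
          rw [h2, lead_add, lead_of_lt (by omega) h4, add_zero]
        rw [SuDiv.lead_mul hGd hGd] at h7
        rw [← h7] at h6
        rcases hp.dvd_or_dvd h6 with h8 | h8
        · exact hGl h8
        · exact hGl h8
    rw [SuDiv.lead_mul hFd (tH_Jn σ hFd), lead_tH] at hH
    exact parity hσ bar hbar (lead d F) H hFw hFl hH
  refine ⟨key, ?_⟩
  obtain ⟨a, ha⟩ := key
  rcases h.dich g m with h1 | ⟨d', hd', b, G, hG, hGd, hGl⟩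
  · exact h1
  exfalso
  have h1 : (f - Q * a) * tH σ (f - Q * a) ∈ Jn E J k (m + m) := Jn_mul ha (tH_Jn σ ha)
  have h2 : tH σ (f - Q * a) = tH σ f - Q * tH σ a := by rw [map_sub, map_mul, h.inv]
  set c := a₀ - a * tH σ f - f * tH σ a + Q * a * tH σ a - Q * b ^ 2 with hc
  have h3 : G * G = (f - Q * a) * tH σ (f - Q * a) - (f * tH σ f - g ^ 2 - Q * a₀) - Q * c := by
    rw [h2, hc, hG]
    linear_combination (-(Q * b * G) - Q * Q * b ^ 2) * h20
  have h4 : (f - Q * a) * tH σ (f - Q * a) - (f * tH σ f - g ^ 2 - Q * a₀) ∈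
      Jn E J k (d' + d' + 1) :=
    sub_mem (Jn_mono (by omega) h1) (Jn_mono (by omega) ha₀)
  have h5 : G * G ∈ Jn E J k (d' + d') := Jn_mul hGd hGd
  have h6 : Q * c ∈ Jn E J k (d' + d') := by
    have : Q * c = ((f - Q * a) * tH σ (f - Q * a) - (f * tH σ f - g ^ 2 - Q * a₀)) - G * G := by
      rw [h3]; ring
    rw [this]
    exact sub_mem (Jn_mono (by omega) h4) h5
  have h7 := h.lead_mul h6
  have h8 : lead (d' + d') (G * G) = - lead (d' + d') (Q * c) := by
    rw [h3, lead_sub, lead_of_lt (by omega) h4, zero_sub]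
  rw [SuDiv.lead_mul hGd hGd] at h8
  have h9 : om E k bar ∣ lead d' G * lead d' G := by
    rw [h8]
    exact (dvd_neg).2 h7
  rcases hp.dvd_or_dvd h9 with h10 | h10
  · exact hGl h10
  · exact hGl h10

end Pool.Agent.SuDiv
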