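import Pool.Agent.Lib.MP_305fdd_al.Su.Div.Parity

/-!
# MP_305fdd_al, surface groups, block DIV: power series, leading forms modulo the quadric

`S = k[[V]]`; `J n` = the ideal of the power series of order `≥ n`; `lead d f` = the homogeneous
component of degree `d` as a polynomial; `Q` is a power series with leading form `om` (degree two),
of weight zero and invariant under `tH σ`.  MAIN LEMMA: if `f` has weight one and
`f * tH f - h ^ 2 ∈ (Q) + J n`, `2 m ≤ n`, then `f, h ∈ (Q) + J m`.
-/

set_option autoImplicit false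
set_option linter.unusedSectionVars false

namespace Pool.Agent.SuDiv

open Finsupp

variable {E J k : Type} [Field k]

/-- the power series ring -/
abbrev S (E J k : Type) : Type := MvPowerSeries (V E J) k

section basic

variable [Finite E] [Finite J]

/-- the power series of order `≥ n` -/
def Jn (E J k : Type) [Field k] (n : ℕ) : Ideal (S E J k) where
  carrier := {f | (n : ℕ∞) ≤ f.order}
  add_mem' {f g} hf hg := le_trans (le_min hf hg) MvPowerSeries.min_order_le_add
  zero_mem' := by
    simp only [Set.mem_ofPred_eq, MvPowerSeries.order_zero]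
    exact le_top
  smul_mem' c f hf := by
    simp only [Set.mem_ofPred_eq, smul_eq_mul, MvPowerSeries.order_mul] at hf ⊢
    exact le_trans hf le_add_self

theorem mem_Jn {n : ℕ} {f : S E J k} : f ∈ Jn E J k n ↔ (n : ℕ∞) ≤ f.order := Iff.rfl

theorem mem_Jn' {n : ℕ} {f : S E J k} :
    f ∈ Jn E J k n ↔ ∀ d : V E J →₀ ℕ, d.degree < n → MvPowerSeries.coeff d f = 0 := by
  constructor
  · intro h d hd
    exact MvPowerSeries.coeff_of_lt_order (lt_of_lt_of_le (by exact_mod_cast hd) h)
  · intro h
    exact MvPowerSeries.nat_le_order h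

theorem Jn_mono {m n : ℕ} (h : m ≤ n) : Jn E J k n ≤ Jn E J k m := by
  intro f hf
  rw [mem_Jn] at hf ⊢
  exact le_trans (by exact_mod_cast h) hf

theorem Jn_zero : Jn E J k 0 = ⊤ := by
  rw [eq_top_iff]
  intro f _
  rw [mem_Jn]
  simp

theorem Jn_mul {m n : ℕ} {f g : S E J k} (hf : f ∈ Jn E J k m) (hg : g ∈ Jn E J k n) :
    f * g ∈ Jn E J k (m + n) := by
  rw [mem_Jn] at *
  rw [MvPowerSeries.order_mul]
  push_cast
  exact add_le_add hf hg

/-- the homogeneous component of degree `d` as a polynomial -/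
noncomputable def lead (d : ℕ) (f : S E J k) : MvPolynomial (V E J) k :=
  MvPolynomial.homogeneousComponent d (MvPowerSeries.truncTotal (d + 1) f)

theorem coeff_lead (d : ℕ) (f : S E J k) (m : V E J →₀ ℕ) :
    (lead d f).coeff m = if m.degree = d then MvPowerSeries.coeff m f else 0 := by
  unfold lead
  rw [MvPolynomial.coeff_homogeneousComponent]
  split_ifs with h
  · exact MvPowerSeries.coeff_truncTotal f (by omega)
  · rfl

theorem coe_lead (d : ℕ) (f : S E J k) :
    ((lead d f : MvPolynomial (V E J) k) : S E J k) = MvPowerSeries.homogeneousComponent d f := by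
  ext m
  rw [MvPolynomial.coeff_coe, coeff_lead, MvPowerSeries.coeff_homogeneousComponent]

theorem lead_add (d : ℕ) (f g : S E J k) : lead d (f + g) = lead d f + lead d g := by
  simp [lead, map_add]

theorem lead_sub (d : ℕ) (f g : S E J k) : lead d (f - g) = lead d f - lead d g := by
  simp [lead, map_sub]

theorem lead_mul {a b : ℕ} {f g : S E J k} (hf : f ∈ Jn E J k a) (hg : g ∈ Jn E J k b) :
    lead (a + b) (f * g) = lead a f * lead b g := by
  apply MvPolynomial.coe_injective
  rw [MvPolynomial.coe_mul, coe_lead, coe_lead, coe_lead]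
  exact MvPowerSeries.homogeneousComponent_mul_of_le_order hf hg

theorem lead_of_lt {d n : ℕ} (h : d < n) {f : S E J k} (hf : f ∈ Jn E J k n) : lead d f = 0 := by
  ext m
  rw [coeff_lead]
  split_ifs with hm
  · rw [mem_Jn'] at hf
    rw [hf m (by omega), MvPolynomial.coeff_zero]
  · rw [MvPolynomial.coeff_zero]

theorem mem_succ {d : ℕ} {f : S E J k} (hf : f ∈ Jn E J k d) (h : lead d f = 0) :
    f ∈ Jn E J k (d + 1) := by
  rw [mem_Jn'] at hf ⊢
  intro m hm
  rcases Nat.lt_succ_iff_lt_or_eq.1 hm with h1 | h1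
  · exact hf m h1
  · have := coeff_lead d f m
    rw [if_pos h1, h, MvPolynomial.coeff_zero] at this
    exact this.symm

theorem coe_mem {d : ℕ} {p : MvPolynomial (V E J) k} (hp : p.IsHomogeneous d) :
    (p : S E J k) ∈ Jn E J k d := by
  rw [mem_Jn']
  intro m hm
  rw [MvPolynomial.coeff_coe]
  by_contra hne
  have := hp hne
  change Finsupp.weight (fun _ => 1) m = d at this
  rw [← Finsupp.degree_eq_weight_one] at this
  exact absurd this hm.ne

theorem lead_coe {d : ℕ} {p : MvPolynomial (V E J) k} (hp : p.IsHomogeneous d) :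
    lead d (p : S E J k) = p := by
  ext m
  rw [coeff_lead, MvPolynomial.coeff_coe]
  split_ifs with hm
  · rfl
  · by_contra hne
    have := hp (Ne.symm hne)
    change Finsupp.weight (fun _ => 1) m = d at this
    rw [← Finsupp.degree_eq_weight_one] at this
    exact hm this

/-! ### finite quotients -/

instance finite_quot [Finite k] (n : ℕ) : Finite (S E J k ⧸ Jn E J k n) := by
  classical
  have hfin : Finite {m : V E J →₀ ℕ // m.degree < n} := (Finsupp.finite_of_degree_lt n).to_subtype
  let g : S E J k →+ ({m : V E J →₀ ℕ // m.degree < n} → k) :=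
    { toFun := fun f m => MvPowerSeries.coeff m.1 f
      map_zero' := by ext; simp
      map_add' := by intro a b; ext; simp }
  have hle : (Jn E J k n).toAddSubgroup ≤ g.ker := by
    intro f hf
    rw [AddMonoidHom.mem_ker]
    ext m
    exact (mem_Jn'.1 hf) m.1 m.2
  let g' : (S E J k ⧸ Jn E J k n) →+ ({m : V E J →₀ ℕ // m.degree < n} → k) :=
    QuotientAddGroup.lift _ g hle
  refine Finite.of_injective g' ?_
  rw [injective_iff_map_eq_zero]
  intro a ha
  obtain ⟨f, rfl⟩ := Ideal.Quotient.mk_surjective a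
  rw [Ideal.Quotient.eq_zero_iff_mem, mem_Jn']
  intro m hm
  exact congrFun (show g f = 0 from ha) ⟨m, hm⟩

end basic

/-! ### weights -/

/-- `f` is homogeneous of weight `w` (`y` has weight one, `z` has weight `-1`) -/
def Wt (E J k : Type) [Field k] (w : ℤ) : AddSubgroup (S E J k) where
  carrier := {f | ∀ m, MvPowerSeries.coeff m f ≠ 0 → (wd yw m : ℤ) - wd zw m = w}
  add_mem' {f g} hf hg m hm := by
    by_cases h : MvPowerSeries.coeff m f = 0
    · refine hg m fun h' => hm ?_
      rw [map_add, h, h', add_zero]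
    · exact hf m h
  zero_mem' m hm := absurd (map_zero _) hm
  neg_mem' {f} hf m hm := hf m fun h => hm (by rw [map_neg, h, neg_zero])

theorem mem_Wt {w : ℤ} {f : S E J k} : f ∈ Wt E J k w ↔
    ∀ m, MvPowerSeries.coeff m f ≠ 0 → (wd yw m : ℤ) - wd zw m = w := Iff.rfl

theorem wd_add (w : V E J → ℕ) (a b : V E J →₀ ℕ) : wd w (a + b) = wd w a + wd w b := by
  classical
  unfold wd
  exact Finsupp.sum_add_index' (by simp) (by intros; ring)

theorem Wt_mul {a b : ℤ} {f g : S E J k} (hf : f ∈ Wt E J k a) (hg : g ∈ Wt E J k b) :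
    f * g ∈ Wt E J k (a + b) := by
  classical
  intro m hm
  rw [MvPowerSeries.coeff_mul] at hm
  obtain ⟨p, hp, hne⟩ := Finset.exists_ne_zero_of_sum_ne_zero hm
  have h1 := hf p.1 (left_ne_zero_of_mul hne)
  have h2 := hg p.2 (right_ne_zero_of_mul hne)
  rw [← Finset.HasAntidiagonal.mem_antidiagonal.1 hp, wd_add, wd_add]
  push_cast
  linarith

theorem one_Wt : (1 : S E J k) ∈ Wt E J k 0 := by
  classical
  intro m hm
  rw [MvPowerSeries.coeff_one] at hm
  split_ifs at hm with h
  · rw [h]; simp [wd]
  · exact absurd rfl hm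

/-- the part of weight `w` -/
noncomputable def pr (w : ℤ) (f : S E J k) : S E J k :=
  fun m => if (wd yw m : ℤ) - wd zw m = w then MvPowerSeries.coeff m f else 0

theorem coeff_pr (w : ℤ) (f : S E J k) (m : V E J →₀ ℕ) : MvPowerSeries.coeff m (pr w f) =
    if (wd yw m : ℤ) - wd zw m = w then MvPowerSeries.coeff m f else 0 := rfl

theorem pr_mem (w : ℤ) (f : S E J k) : pr w f ∈ Wt E J k w := by
  intro m hm
  rw [coeff_pr] at hm
  split_ifs at hm with h
  · exact h
  · exact absurd rfl hm

theorem pr_eq {w : ℤ} {f : S E J k} (hf : f ∈ Wt E J k w) : pr w f = f := by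
  ext m
  rw [coeff_pr]
  split_ifs with h
  · rfl
  · by_contra hne
    exact h (hf m (Ne.symm hne))

theorem pr_add (w : ℤ) (f g : S E J k) : pr w (f + g) = pr w f + pr w g := by
  ext m
  rw [map_add, coeff_pr, coeff_pr, coeff_pr, map_add]
  split_ifs <;> simp

theorem pr_mul {w : ℤ} {q : S E J k} (hq : q ∈ Wt E J k 0) (f : S E J k) :
    pr w (q * f) = q * pr w f := by
  classical
  ext m
  rw [coeff_pr, MvPowerSeries.coeff_mul, MvPowerSeries.coeff_mul]
  have key : ∀ p ∈ Finset.HasAntidiagonal.antidiagonal m, MvPowerSeries.coeff p.1 q ≠ 0 →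
      (wd yw p.2 : ℤ) - wd zw p.2 = (wd yw m : ℤ) - wd zw m := by
    intro p hp h
    have h1 := hq p.1 h
    rw [← Finset.HasAntidiagonal.mem_antidiagonal.1 hp, wd_add, wd_add]
    push_cast
    linarith
  split_ifs with h
  · refine Finset.sum_congr rfl fun p hp => ?_
    by_cases h1 : MvPowerSeries.coeff p.1 q = 0
    · rw [h1, zero_mul, zero_mul]
    · rw [coeff_pr, if_pos ((key p hp h1).trans h)]
  · symm
    refine Finset.sum_eq_zero fun p hp => ?_
    by_cases h1 : MvPowerSeries.coeff p.1 q = 0
    · rw [h1, zero_mul]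
    · rw [coeff_pr, if_neg (fun h2 => h ((key p hp h1).symm.trans h2)), mul_zero]

section theta

variable [Finite E] [Finite J]

theorem pr_Jn {w : ℤ} {n : ℕ} {f : S E J k} (hf : f ∈ Jn E J k n) : pr w f ∈ Jn E J k n := by
  rw [mem_Jn'] at hf ⊢
  intro m hm
  rw [coeff_pr, hf m hm, ite_self]

/-- the exchange of the variables and `σ` on the coefficients -/
noncomputable def tH (σ : k →+* k) : S E J k →+* S E J k :=
  (MvPowerSeries.map σ).comp (MvPowerSeries.rename (R := k) (sw E J)).toRingHom

theorem coeff_tH (σ : k →+* k) (f : S E J k) (m : V E J →₀ ℕ) :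
    MvPowerSeries.coeff (m.embDomain (sw E J).toEmbedding) (tH σ f) =
      σ (MvPowerSeries.coeff m f) := by
  unfold tH
  rw [RingHom.comp_apply, MvPowerSeries.coeff_map]
  congr 1
  exact MvPowerSeries.coeff_embDomain_rename (sw E J).toEmbedding f m

theorem exists_emb (m : V E J →₀ ℕ) : ∃ m' : V E J →₀ ℕ, m = m'.embDomain (sw E J).toEmbedding := by
  refine ⟨m.embDomain (sw E J).toEmbedding, ?_⟩
  ext v
  obtain ⟨v', rfl⟩ := (sw E J).surjective v
  have h1 := Finsupp.embDomain_apply_self (sw E J).toEmbedding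
    (m.embDomain (sw E J).toEmbedding) v'
  rw [Equiv.coe_toEmbedding] at h1
  rw [h1]
  obtain ⟨v'', rfl⟩ := (sw E J).surjective v'
  have h2 := Finsupp.embDomain_apply_self (sw E J).toEmbedding m v''
  rw [Equiv.coe_toEmbedding] at h2
  rw [h2, sw_sw]

theorem degree_emb (m : V E J →₀ ℕ) : (m.embDomain (sw E J).toEmbedding).degree = m.degree := by
  classical
  rw [Finsupp.degree_apply, Finsupp.degree_apply, Finsupp.support_embDomain, Finset.sum_map]
  refine Finset.sum_congr rfl fun v _ => ?_
  exact Finsupp.embDomain_apply_self _ m v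

theorem wd_emb (w : V E J → ℕ) (m : V E J →₀ ℕ) :
    wd w (m.embDomain (sw E J).toEmbedding) = wd (fun v => w (sw E J v)) m := by
  unfold wd
  rw [Finsupp.sum, Finsupp.support_embDomain, Finset.sum_map]
  refine Finset.sum_congr rfl fun v _ => ?_
  rw [Finsupp.embDomain_apply_self]
  rfl

theorem tH_Jn (σ : k →+* k) {n : ℕ} {f : S E J k} (hf : f ∈ Jn E J k n) :
    tH σ f ∈ Jn E J k n := by
  rw [mem_Jn'] at hf ⊢
  intro m hm
  obtain ⟨m', rfl⟩ := exists_emb m
  rw [coeff_tH, hf m' (by rwa [degree_emb] at hm), map_zero]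

theorem tH_Wt (σ : k →+* k) {w : ℤ} {f : S E J k} (hf : f ∈ Wt E J k w) :
    tH σ f ∈ Wt E J k (-w) := by
  intro m hm
  obtain ⟨m', rfl⟩ := exists_emb m
  rw [coeff_tH] at hm
  have h1 := hf m' (fun h => hm (by rw [h, map_zero]))
  rw [wd_emb, wd_emb]
  simp only [yw_sw, zw_sw]
  change (wd zw m' : ℤ) - wd yw m' = -w
  linarith

theorem tH_coe (σ : k →+* k) (p : MvPolynomial (V E J) k) :
    tH σ (p : S E J k) = ((th E J σ p : MvPolynomial (V E J) k) : S E J k) := by
  have : (tH σ).comp MvPolynomial.coeToMvPowerSeries.ringHom =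
      MvPolynomial.coeToMvPowerSeries.ringHom.comp (th E J σ) := by
    refine MvPolynomial.ringHom_ext (fun r => ?_) (fun v => ?_)
    · simp only [RingHom.comp_apply, MvPolynomial.coeToMvPowerSeries.ringHom_apply, th_C,
        MvPolynomial.coe_C]
      unfold tH
      rw [RingHom.comp_apply]
      change MvPowerSeries.map σ (MvPowerSeries.rename _ _) = _
      rw [MvPowerSeries.rename_C, MvPowerSeries.map_C]
    · simp only [RingHom.comp_apply, MvPolynomial.coeToMvPowerSeries.ringHom_apply, th_X,
        MvPolynomial.coe_X]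
      unfold tH
      rw [RingHom.comp_apply]
      change MvPowerSeries.map σ (MvPowerSeries.rename _ _) = _
      rw [MvPowerSeries.rename_X, MvPowerSeries.map_X]
  exact congrArg (fun φ : MvPolynomial (V E J) k →+* S E J k => φ p) this

theorem lead_tH (σ : k →+* k) (d : ℕ) (f : S E J k) : lead d (tH σ f) = th E J σ (lead d f) := by
  apply MvPolynomial.coe_injective
  rw [← tH_coe, coe_lead, coe_lead]
  ext m
  obtain ⟨m', rfl⟩ := exists_emb m
  rw [coeff_tH, MvPowerSeries.coeff_homogeneousComponent, MvPowerSeries.coeff_homogeneousComponent,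
    coeff_tH, degree_emb]
  split_ifs
  · rfl
  · rw [map_zero]

end theta

end Pool.Agent.SuDiv
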