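import Pool.Agent.Lib.MP_305fdd_al.Su.Div.Ev
import Pool.Agent.Lib.MP_305fdd_al.NatBij

/-!
# MP_305fdd_al, surface groups, block DIV: trace zero implies one on the slice
-/

set_option autoImplicit false
set_option linter.unusedSectionVars false

namespace Pool.Agent.SuDiv

open Matrix Pool.Agent.Su Pool.Agent.Lib.MP_305fdd_al

section lim

variable {k : Type} [Field k] [Finite k] [CharP k 2] {n : ℕ} [NeZero n] {σ : k →+* k} {ζ : k}
  (h : Ze σ ζ)

/-- the equation of the universal slice -/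
noncomputable def QS : SS k n := (uD k n).Q (hS k n) h.rootC

/-- the ideals `(Q) + (order ≥ N)` -/
noncomputable def II (n : ℕ) (N : ℕ) : Ideal (SS k n) :=
  Ideal.span {QS (n := n) h} ⊔ Jn (EE n) (JJ n) k N

theorem mem_II {N : ℕ} {f : SS k n} :
    f ∈ II h n N ↔ ∃ a, f - QS h * a ∈ Jn (EE n) (JJ n) k N := by
  unfold II
  rw [Ideal.mem_span_singleton_sup]
  constructor
  · rintro ⟨a, b, hb, e⟩
    refine ⟨a, ?_⟩
    have : f - QS h * a = b := by rw [← e]; ring
    rwa [this]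
  · rintro ⟨a, ha⟩
    exact ⟨a, _, ha, by ring⟩

theorem II_mono {m N : ℕ} (hm : m ≤ N) : II h n N ≤ II h n m :=
  sup_le_sup le_rfl (Jn_mono hm)

theorem Q_mem_II (N : ℕ) : QS h ∈ II h n N :=
  Ideal.mem_sup_left (Ideal.mem_span_singleton_self _)

theorem Jn_le_II (N : ℕ) : Jn (EE n) (JJ n) k N ≤ II h n N := le_sup_right

instance finite_II (N : ℕ) : Finite (SS k n ⧸ II h n N) := by
  have h1 : Function.Surjective (Ideal.Quotient.factor (Jn_le_II (n := n) h N)) :=
    Ideal.Quotient.factor_surjective _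
  exact Finite.of_surjective _ h1

/-- the representations of the surface group -/
noncomputable def rS (n : ℕ) [NeZero n] (N : ℕ) :
    SurfaceGroup (n + 1) →* SpecialLinearGroup (Fin 2) (SS k n ⧸ II h n N) :=
  (uD k n).rep (hS k n) h.rootC (II h n N) (Q_mem_II h N)

/-- the representation of the free group -/
noncomputable def fS (n : ℕ) [NeZero n] :
    FreeGroup (Fin (n + 1) ⊕ Fin (n + 1)) →* SpecialLinearGroup (Fin 2) (SS k n) :=
  (uD k n).fr (hS k n) h.rootC

theorem rS_pm (N : ℕ) (w : FreeGroup (Fin (n + 1) ⊕ Fin (n + 1))) :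
    rS h n N (pm (n + 1) w) =
      SpecialLinearGroup.map (Ideal.Quotient.mk (II h n N)) (fS h n w) :=
  rep_pm _ _ _ _ _ w

/-- the maps between the quotients -/
noncomputable def fac (n : ℕ) [NeZero n] {m N : ℕ} (hm : m ≤ N) :
    SS k n ⧸ II h n N →+* SS k n ⧸ II h n m :=
  Ideal.Quotient.factor (II_mono h hm)

theorem fac_mk {m N : ℕ} (hm : m ≤ N) (f : SS k n) :
    fac h n hm (Ideal.Quotient.mk _ f) = Ideal.Quotient.mk _ f := rfl

theorem rS_fac {m N : ℕ} (hm : m ≤ N) :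
    (SpecialLinearGroup.map (fac h n hm)).comp (rS h n N) = rS h n m := by
  refine MonoidHom.ext fun s => ?_
  obtain ⟨w, rfl⟩ := pm_surjective _ s
  rw [MonoidHom.comp_apply, rS_pm, rS_pm]
  exact SL_ext fun i j => rfl

variable {Λ : Type} [Group Λ] (Φ : NatBij (SurfaceGroup (n + 1)) Λ)

/-- the representations of `Λ` -/
noncomputable def rL (N : ℕ) : Λ →* SpecialLinearGroup (Fin 2) (SS k n ⧸ II h n N) :=
  Φ.toFun _ (rS h n N)

theorem rL_fac {m N : ℕ} (hm : m ≤ N) :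
    (SpecialLinearGroup.map (fac h n hm)).comp (rL h Φ N) = rL h Φ m := by
  unfold rL
  rw [← Φ.nat, rS_fac]

theorem rL_mem (N : ℕ) (γ : Λ) : ∃ w : FreeGroup (Fin (n + 1) ⊕ Fin (n + 1)),
    rL h Φ N γ = SpecialLinearGroup.map (Ideal.Quotient.mk (II h n N)) (fS h n w) := by
  have h1 : rL h Φ N γ ∈ (rS h n N).range := by
    rw [← Φ.range_eq]
    exact ⟨γ, rfl⟩
  obtain ⟨s, hs⟩ := h1
  obtain ⟨w, rfl⟩ := pm_surjective _ s
  exact ⟨w, by rw [← hs, rS_pm]⟩

theorem tH_II {N : ℕ} {f : SS k n} (hf : f ∈ II h n N) : tH σ f ∈ II h n N := by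
  rw [mem_II] at hf ⊢
  obtain ⟨a, ha⟩ := hf
  refine ⟨tH σ a, ?_⟩
  have h1 : tH σ (QS h : SS k n) = QS h := (HQ_Q h).inv
  have h2 := tH_Jn σ ha
  rwa [map_sub, map_mul, h1] at h2

/-- (D1): trace zero implies one -/
theorem D1 (γ : Λ) (hγ : ∀ N, (rL h Φ N γ).1.trace = 0) (m : ℕ) : rL h Φ m γ = 1 := by
  have h2 := (hS k n).two
  obtain ⟨w, hw⟩ := rL_mem h Φ (2 * m) γ
  set g := fS h n w with hg
  have hT := (mem_GT h2).1 (fr_GT h w)
  have hW := mem_GW.1 (fr_GW h w)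
  have hdet := det_one g
  have e0 : Fin.rev (0 : Fin 2) = 1 := rfl
  have e1 : Fin.rev (1 : Fin 2) = 0 := rfl
  have hT01 : tH σ (g.1 0 1) = g.1 1 0 := hT 0 1
  have hT00 : tH σ (g.1 0 0) = g.1 1 1 := hT 0 0
  have htr : g.1 0 0 + g.1 1 1 ∈ II h n (2 * m) := by
    have h3 := hγ (2 * m)
    rw [hw, Matrix.trace_fin_two, slmap, slmap, ← map_add, Ideal.Quotient.eq_zero_iff_mem] at h3
    exact h3
  have key : ∃ a, g.1 0 1 * tH σ (g.1 0 1) - (g.1 0 0 + 1) ^ 2 - QS h * a ∈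
      Jn (EE n) (JJ n) k (2 * m) := by
    rw [← mem_II, hT01]
    have e : g.1 0 1 * g.1 1 0 - (g.1 0 0 + 1) ^ 2 =
        g.1 0 0 * (g.1 0 0 + g.1 1 1) := by
      linear_combination - hdet - (g.1 0 0 ^ 2 + g.1 0 0 + 1) * h2
    rw [e]
    exact Ideal.mul_mem_left _ _ htr
  obtain ⟨h3, h4⟩ := (HQ_Q h).main h.invol (bar_bar n) (hW 0 1) le_rfl key
  have h01 : g.1 0 1 ∈ II h n m := (mem_II h).2 h3
  have h00 : g.1 0 0 + 1 ∈ II h n m := (mem_II h).2 h4
  have h10 : g.1 1 0 ∈ II h n m := by rw [← hT01]; exact tH_II h h01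
  have h11 : g.1 1 1 + 1 ∈ II h n m := by
    have := tH_II h h00
    rwa [map_add, map_one, hT00] at this
  have h5 : rL h Φ m γ = SpecialLinearGroup.map (Ideal.Quotient.mk (II h n m)) g := by
    rw [← rL_fac h Φ (show m ≤ 2 * m by omega), MonoidHom.comp_apply, hw]
    exact SL_ext fun i j => rfl
  rw [h5]
  have h6 : (2 : SS k n ⧸ II h n m) = 0 := by
    rw [← map_ofNat (Ideal.Quotient.mk (II h n m)) 2, h2, map_zero]
  refine SL_ext fun i j => ?_
  rw [slmap, one1]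
  fin_cases i <;> fin_cases j
  · change Ideal.Quotient.mk (II h n m) (g.1 0 0) = 1
    have := Ideal.Quotient.eq_zero_iff_mem.2 h00
    rw [map_add, map_one] at this
    linear_combination this - h6
  · change Ideal.Quotient.mk (II h n m) (g.1 0 1) = 0
    exact Ideal.Quotient.eq_zero_iff_mem.2 h01
  · change Ideal.Quotient.mk (II h n m) (g.1 1 0) = 0
    exact Ideal.Quotient.eq_zero_iff_mem.2 h10
  · change Ideal.Quotient.mk (II h n m) (g.1 1 1) = 1
    have := Ideal.Quotient.eq_zero_iff_mem.2 h11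
    rw [map_add, map_one] at this
    linear_combination this - h6

end lim

end Pool.Agent.SuDiv
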