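import Pool.Agent.Lib.MP_305fdd_al.Su.Div.Key

/-!
# MP_305fdd_al, surface groups, block DIV: rings with Artin-Schreier solutions, the matrices of the slice

`LR R 𝔫`: the ring `R` has characteristic two, the elements of `1 + 𝔫` are units and every equation
`q ^ 2 + q = e`, `e ∈ 𝔫`, has a solution in `𝔫` (it is unique).  Examples: the power series ring with the
ideal of the power series without constant term, and nilpotent ideals.
-/

set_option autoImplicit false
set_option linter.unusedSectionVars false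

namespace Pool.Agent.SuDiv

open Finsupp

/-- rings with inverses and Artin-Schreier solutions -/
structure LR (R : Type) [CommRing R] (𝔫 : Ideal R) : Prop where
  two : (2 : R) = 0
  unit : ∀ n ∈ 𝔫, IsUnit (1 + n)
  as : ∀ e ∈ 𝔫, ∃ q ∈ 𝔫, q ^ 2 + q = e

section LR

variable {R : Type} [CommRing R] {𝔫 : Ideal R}

theorem LR.as_unique (h : LR R 𝔫) {q q' : R} (hq : q ∈ 𝔫) (hq' : q' ∈ 𝔫)
    (e : q ^ 2 + q = q' ^ 2 + q') : q = q' := by
  have h1 : (q - q') * (1 + (q + q')) = 0 := by linear_combination e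
  obtain ⟨u, hu⟩ := h.unit (q + q') (add_mem hq hq')
  rw [← hu] at h1
  have h2 := congrArg (· * ((u⁻¹ : Rˣ) : R)) h1
  simp only [zero_mul, mul_assoc, Units.mul_inv, mul_one] at h2
  exact sub_eq_zero.1 h2

theorem as_fin (h2 : (2 : R) = 0) (e : R) (N : ℕ) :
    (∑ i ∈ Finset.range N, e ^ 2 ^ i) ^ 2 + ∑ i ∈ Finset.range N, e ^ 2 ^ i = e + e ^ 2 ^ N := by
  induction N with
  | zero => simp only [Finset.range_zero, Finset.sum_empty, pow_zero, pow_one]; linear_combination (-e) * h2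
  | succ N ih =>
    rw [Finset.sum_range_succ]
    have h3 : e ^ 2 ^ (N + 1) = (e ^ 2 ^ N) ^ 2 := by rw [← pow_mul, pow_succ]
    rw [h3]
    linear_combination ih + (e ^ 2 ^ N + e ^ 2 ^ N * ∑ i ∈ Finset.range N, e ^ 2 ^ i) * h2

theorem LR.of_nilpotent (h2 : (2 : R) = 0) (N : ℕ) (h : 𝔫 ^ N = ⊥) : LR R 𝔫 where
  two := h2
  unit n hn := by
    have : IsNilpotent n := ⟨N, by
      have := Ideal.pow_mem_pow hn N
      rwa [h, Ideal.mem_bot] at this⟩
    exact this.isUnit_one_add
  as e he := by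
    refine ⟨∑ i ∈ Finset.range N, e ^ 2 ^ i, Ideal.sum_mem _ fun i _ => Ideal.pow_mem_of_mem _ he _
      (by positivity), ?_⟩
    rw [as_fin h2]
    have h3 : e ^ N = 0 := by
      have := Ideal.pow_mem_pow he N
      rwa [h, Ideal.mem_bot] at this
    have h4 : e ^ 2 ^ N = 0 := by
      obtain ⟨m, hm⟩ := Nat.exists_eq_add_of_le (Nat.lt_two_pow_self (n := N)).le
      rw [hm, pow_add, h3, zero_mul]
    rw [h4, add_zero]

open Classical in
/-- the Artin-Schreier solution -/
noncomputable def asq (𝔫 : Ideal R) (e : R) : R :=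
  if h : ∃ q ∈ 𝔫, q ^ 2 + q = e then h.choose else 0

theorem LR.asq_mem (h : LR R 𝔫) {e : R} (he : e ∈ 𝔫) : asq 𝔫 e ∈ 𝔫 := by
  unfold asq
  rw [dif_pos (h.as e he)]
  exact (h.as e he).choose_spec.1

theorem LR.asq_eq (h : LR R 𝔫) {e : R} (he : e ∈ 𝔫) : asq 𝔫 e ^ 2 + asq 𝔫 e = e := by
  unfold asq
  rw [dif_pos (h.as e he)]
  exact (h.as e he).choose_spec.2

theorem LR.asq_unique (h : LR R 𝔫) {e q : R} (he : e ∈ 𝔫) (hq : q ∈ 𝔫) (h1 : q ^ 2 + q = e) :
    asq 𝔫 e = q :=
  h.as_unique (h.asq_mem he) hq ((h.asq_eq he).trans h1.symm)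

variable {R' : Type} [CommRing R'] {𝔫' : Ideal R'}

theorem LR.map_asq (h : LR R 𝔫) (h' : LR R' 𝔫') (φ : R →+* R') (hφ : ∀ n ∈ 𝔫, φ n ∈ 𝔫') {e : R}
    (he : e ∈ 𝔫) : φ (asq 𝔫 e) = asq 𝔫' (φ e) := by
  symm
  refine h'.asq_unique (hφ e he) (hφ _ (h.asq_mem he)) ?_
  rw [← map_pow, ← map_add, h.asq_eq he]

theorem map_inverse {a : R} (ha : IsUnit a) (φ : R →+* R') :
    φ (Ring.inverse a) = Ring.inverse (φ a) := by
  obtain ⟨u, rfl⟩ := ha
  rw [Ring.inverse_unit]
  have : φ (u : R) = ((Units.map φ.toMonoidHom u : R'ˣ) : R') := rfl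
  rw [this, Ring.inverse_unit, ← map_inv]
  rfl

end LR

/-! ### the power series ring -/

section PS

variable {E J k : Type} [Field k] [Finite E] [Finite J]

theorem two_S [CharP k 2] : (2 : S E J k) = 0 := by
  rw [← map_ofNat (MvPowerSeries.C (σ := V E J) (R := k)) 2, CharTwo.two_eq_zero, map_zero]

theorem eq_zero_of_forall {f : S E J k} (h : ∀ n, f ∈ Jn E J k n) : f = 0 := by
  ext m
  exact (mem_Jn'.1 (h (m.degree + 1))) m (Nat.lt_succ_self _)

theorem pow_Jn {f : S E J k} (hf : f ∈ Jn E J k 1) (n : ℕ) : f ^ n ∈ Jn E J k n := by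
  induction n with
  | zero => rw [Jn_zero]; trivial
  | succ n ih => rw [pow_succ]; exact Jn_mul ih hf

theorem constCoeff_of_mem {f : S E J k} (hf : f ∈ Jn E J k 1) : MvPowerSeries.constantCoeff f = 0 := by
  have := (mem_Jn'.1 hf) 0 (by simp)
  rwa [MvPowerSeries.coeff_zero_eq_constantCoeff_apply] at this

theorem LR_S [CharP k 2] : LR (S E J k) (Jn E J k 1) where
  two := two_S
  unit n hn := by
    rw [MvPowerSeries.isUnit_iff_constantCoeff, map_add, map_one, constCoeff_of_mem hn, add_zero]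
    exact isUnit_one
  as e he := by
    classical
    let q : S E J k := fun m => MvPowerSeries.coeff m (∑ i ∈ Finset.range (m.degree + 1), e ^ 2 ^ i)
    have hq : ∀ N, q - ∑ i ∈ Finset.range N, e ^ 2 ^ i ∈ Jn E J k N := by
      intro N
      rw [mem_Jn']
      intro m hm
      have h1 : MvPowerSeries.coeff m q =
          MvPowerSeries.coeff m (∑ i ∈ Finset.range (m.degree + 1), e ^ 2 ^ i) := rfl
      rw [map_sub, h1, sub_eq_zero]
      obtain ⟨t, ht⟩ := Nat.exists_eq_add_of_le (show m.degree + 1 ≤ N from hm)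
      rw [ht, Finset.sum_range_add (fun i => e ^ 2 ^ i) (m.degree + 1) t, map_add, left_eq_add, map_sum]
      refine Finset.sum_eq_zero fun i _ => ?_
      have h2 : e ^ 2 ^ (m.degree + 1 + i) ∈ Jn E J k (2 ^ (m.degree + 1 + i)) := pow_Jn he _
      refine (mem_Jn'.1 h2) m ?_
      calc m.degree < m.degree + 1 + i := by omega
        _ < 2 ^ (m.degree + 1 + i) := Nat.lt_two_pow_self
    refine ⟨q, ?_, ?_⟩
    · have h1 := hq 1
      simp only [Finset.range_one, Finset.sum_singleton, pow_zero, pow_one] at h1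
      have := add_mem h1 he
      rwa [sub_add_cancel] at this
    · rw [← sub_eq_zero]
      refine eq_zero_of_forall fun N => ?_
      set p := ∑ i ∈ Finset.range N, e ^ 2 ^ i with hp
      have h1 : q ^ 2 + q - e = (q - p) * (q + p + 1) + e ^ 2 ^ N := by
        have := as_fin two_S e N
        rw [← hp] at this
        linear_combination this
      rw [h1]
      refine add_mem (Ideal.mul_mem_right _ _ (hq N)) ?_
      exact Jn_mono (Nat.lt_two_pow_self).le (pow_Jn he _)

end PS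

end Pool.Agent.SuDiv
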