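import Pool.Agent.Lib.MP_305fdd_al.Su.Div.Det

/-!
# MP_305fdd_al, surface groups, block DIV: functoriality of the slice
-/

set_option autoImplicit false
set_option linter.unusedSectionVars false

namespace Pool.Agent.SuDiv

open Matrix Pool.Agent.Su

section map

variable {R R' : Type} [CommRing R] [CommRing R'] {𝔫 : Ideal R} {𝔫' : Ideal R'} {z : R} {n : ℕ}

/-- the image of the parameters -/
def Dat.map (D : Dat 𝔫 n) (φ : R →+* R') (hφ : ∀ n ∈ 𝔫, φ n ∈ 𝔫') : Dat 𝔫' n where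
  x0 := ⟨φ D.x0, hφ _ D.x0.2⟩
  u := ⟨φ D.u, hφ _ D.u.2⟩
  xs j := ⟨φ (D.xs j), hφ _ (D.xs j).2⟩
  ys j := ⟨φ (D.ys j), hφ _ (D.ys j).2⟩
  ws j := ⟨φ (D.ws j), hφ _ (D.ws j).2⟩

theorem map_M (h : LR R 𝔫) (h' : LR R' 𝔫') (hz : z ^ 2 + z + 1 = 0) (φ : R →+* R')
    (hφ : ∀ n ∈ 𝔫, φ n ∈ 𝔫') {z' : R'} (hz' : z' ^ 2 + z' + 1 = 0) (hzz : φ z = z') (D : Dat 𝔫 n)
    (j : Fin n × Bool) :
    SpecialLinearGroup.map φ (D.M h hz j) = (D.map φ hφ).M h' hz' j := by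
  have he : (D.ys j : R) * D.ws j ∈ 𝔫 := Ideal.mul_mem_right _ _ (D.ys j).2
  refine SL_ext fun i i' => ?_
  rw [slmap]
  fin_cases i <;> fin_cases i'
  · change φ (al 𝔫 z (D.xs j) (D.ys j * D.ws j)) =
      al 𝔫' z' (φ (D.xs j)) (φ (D.ys j) * φ (D.ws j))
    rw [map_al h h' φ hφ (D.xs j).2 he, hzz, map_mul]
  · rfl
  · rfl
  · change φ (al 𝔫 (z + 1) (D.xs j) (D.ys j * D.ws j)) =
      al 𝔫' (z' + 1) (φ (D.xs j)) (φ (D.ys j) * φ (D.ws j))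
    rw [map_al h h' φ hφ (D.xs j).2 he, map_add, map_one, hzz, map_mul]

theorem map_A0 (h : LR R 𝔫) (h' : LR R' 𝔫') (hz : z ^ 2 + z + 1 = 0) (φ : R →+* R')
    (hφ : ∀ n ∈ 𝔫, φ n ∈ 𝔫') {z' : R'} (hz' : z' ^ 2 + z' + 1 = 0) (hzz : φ z = z') (D : Dat 𝔫 n) :
    SpecialLinearGroup.map φ (A0 h hz D.x0) = A0 h' hz' (D.map φ hφ).x0 := by
  refine SL_ext fun i i' => ?_
  rw [slmap]
  fin_cases i <;> fin_cases i'
  · change φ (lam z D.x0) = lam z' (φ D.x0)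
    rw [map_lam h φ D.x0.2, hzz]
  · exact map_zero φ
  · exact map_zero φ
  · change φ (lam (z + 1) D.x0) = lam (z' + 1) (φ D.x0)
    rw [map_lam h φ D.x0.2, map_add, map_one, hzz]

theorem map_P (h : LR R 𝔫) (h' : LR R' 𝔫') (hz : z ^ 2 + z + 1 = 0) (φ : R →+* R')
    (hφ : ∀ n ∈ 𝔫, φ n ∈ 𝔫') {z' : R'} (hz' : z' ^ 2 + z' + 1 = 0) (hzz : φ z = z') (D : Dat 𝔫 n) :
    SpecialLinearGroup.map φ (D.P h hz) = (D.map φ hφ).P h' hz' := by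
  unfold Dat.P
  rw [map_list_prod, List.map_ofFn]
  congr 2
  funext i
  simp only [Function.comp_apply, map_mul, map_inv]
  rw [map_M h h' hz φ hφ hz' hzz, map_M h h' hz φ hφ hz' hzz]

theorem map_dt (φ : R →+* R') {l l' : R} {P : SpecialLinearGroup (Fin 2) R} :
    φ (dt l l' P.1) = dt (φ l) (φ l') (SpecialLinearGroup.map φ P).1 := by
  unfold dt
  rw [map_add, map_mul, map_add, map_add, map_mul, map_mul, map_mul, slmap, slmap, slmap, slmap]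

theorem map_Q (h : LR R 𝔫) (h' : LR R' 𝔫') (hz : z ^ 2 + z + 1 = 0) (φ : R →+* R')
    (hφ : ∀ n ∈ 𝔫, φ n ∈ 𝔫') {z' : R'} (hz' : z' ^ 2 + z' + 1 = 0) (hzz : φ z = z') (D : Dat 𝔫 n) :
    φ (D.Q h hz) = (D.map φ hφ).Q h' hz' := by
  unfold Dat.Q QQ
  rw [← map_P h h' hz φ hφ hz' hzz, slmap, slmap]
  simp only [map_add, map_mul, map_one]
  rw [map_lam h φ D.x0.2, map_lam h φ D.x0.2, map_add, map_one, hzz]
  rfl

theorem map_B0 (h : LR R 𝔫) (h' : LR R' 𝔫') (hz : z ^ 2 + z + 1 = 0) (φ : R →+* R')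
    (hφ : ∀ n ∈ 𝔫, φ n ∈ 𝔫') {z' : R'} (hz' : z' ^ 2 + z' + 1 = 0) (hzz : φ z = z') (D : Dat 𝔫 n) :
    SpecialLinearGroup.map φ (B0 h hz D.u (lam_mul h hz D.x0.2) (dt_mem h hz D)) =
      B0 h' hz' (D.map φ hφ).u (lam_mul h' hz' (D.map φ hφ).x0.2) (dt_mem h' hz' (D.map φ hφ)) := by
  have hl : φ (lam z D.x0) = lam z' (φ D.x0) := by rw [map_lam h φ D.x0.2, hzz]
  have hl' : φ (lam (z + 1) D.x0) = lam (z' + 1) (φ D.x0) := by
    rw [map_lam h φ D.x0.2, map_add, map_one, hzz]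
  have hP := map_P h h' hz φ hφ hz' hzz D
  have hPe : ∀ i j, φ ((D.P h hz).1 i j) = ((D.map φ hφ).P h' hz').1 i j := fun i j => by
    rw [← hP, slmap]
  have hd : φ (dt (lam z (D.x0 : R)) (lam (z + 1) (D.x0 : R)) (D.P h hz).1) =
      dt (lam z' (φ D.x0)) (lam (z' + 1) (φ D.x0)) ((D.map φ hφ).P h' hz').1 := by
    rw [map_dt, hl, hl', hP]
  have hk : φ (kap 𝔫 z D.u (dt (lam z (D.x0 : R)) (lam (z + 1) (D.x0 : R)) (D.P h hz).1)) =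
      kap 𝔫' z' (φ D.u)
        (dt (lam z' (φ D.x0)) (lam (z' + 1) (φ D.x0)) ((D.map φ hφ).P h' hz').1) := by
    rw [map_kap h h' φ hφ D.u.2 (dt_mem h hz D), hzz, hd]
  have hk' : φ (kap 𝔫 (z + 1) D.u (dt (lam z (D.x0 : R)) (lam (z + 1) (D.x0 : R)) (D.P h hz).1)) =
      kap 𝔫' (z' + 1) (φ D.u)
        (dt (lam z' (φ D.x0)) (lam (z' + 1) (φ D.x0)) ((D.map φ hφ).P h' hz').1) := by
    rw [map_kap h h' φ hφ D.u.2 (dt_mem h hz D), map_add, map_one, hzz, hd]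
  refine SL_ext fun i i' => ?_
  rw [slmap]
  fin_cases i <;> fin_cases i'
  · change φ (kap 𝔫 z D.u _ * (lam z D.x0 + (D.P h hz).1 1 1 * lam (z + 1) D.x0)) =
      kap 𝔫' z' (φ D.u) _ * (lam z' (φ D.x0) + ((D.map φ hφ).P h' hz').1 1 1 * lam (z' + 1) (φ D.x0))
    rw [map_mul, map_add, map_mul, hk, hl, hl', hPe]
    rfl
  · change φ (kap 𝔫 (z + 1) D.u _ * ((D.P h hz).1 0 1 * lam (z + 1) D.x0)) =
      kap 𝔫' (z' + 1) (φ D.u) _ * (((D.map φ hφ).P h' hz').1 0 1 * lam (z' + 1) (φ D.x0))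
    rw [map_mul, map_mul, hk', hl', hPe]
    rfl
  · change φ (kap 𝔫 z D.u _ * ((D.P h hz).1 1 0 * lam z D.x0)) =
      kap 𝔫' z' (φ D.u) _ * (((D.map φ hφ).P h' hz').1 1 0 * lam z' (φ D.x0))
    rw [map_mul, map_mul, hk, hl, hPe]
    rfl
  · change φ (kap 𝔫 (z + 1) D.u _ * (lam (z + 1) D.x0 + (D.P h hz).1 0 0 * lam z D.x0)) =
      kap 𝔫' (z' + 1) (φ D.u) _ *
        (lam (z' + 1) (φ D.x0) + ((D.map φ hφ).P h' hz').1 0 0 * lam z' (φ D.x0))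
    rw [map_mul, map_add, map_mul, hk', hl, hl', hPe]
    rfl

theorem map_fr (h : LR R 𝔫) (h' : LR R' 𝔫') (hz : z ^ 2 + z + 1 = 0) (φ : R →+* R')
    (hφ : ∀ n ∈ 𝔫, φ n ∈ 𝔫') {z' : R'} (hz' : z' ^ 2 + z' + 1 = 0) (hzz : φ z = z') (D : Dat 𝔫 n)
    (w : FreeGroup (Fin (n + 1) ⊕ Fin (n + 1))) :
    SpecialLinearGroup.map φ (D.fr h hz w) = (D.map φ hφ).fr h' hz' w := by
  have key : (SpecialLinearGroup.map φ).comp (D.fr h hz) = (D.map φ hφ).fr h' hz' := by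
    ext t : 1
    rw [MonoidHom.comp_apply]
    unfold Dat.fr
    rw [FreeGroup.lift_apply_of, FreeGroup.lift_apply_of]
    rcases t with i | i
    · refine Fin.cases ?_ (fun i => ?_) i
      · exact map_A0 h h' hz φ hφ hz' hzz D
      · exact map_M h h' hz φ hφ hz' hzz D _
    · refine Fin.cases ?_ (fun i => ?_) i
      · exact map_B0 h h' hz φ hφ hz' hzz D
      · exact map_M h h' hz φ hφ hz' hzz D _
  exact DFunLike.congr_fun key w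

end map

end Pool.Agent.SuDiv
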