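import Pool.Agent.Lib.MP_305fdd_al.Su.Div.Loc

/-!
# MP_305fdd_al, surface groups, block DIV: the matrices of the slice

`z` is a root of `z ^ 2 + z + 1`.  `a_0 = diag(lam, lam⁻¹)`; the matrices `a_i, b_i`, `i ≥ 1`, are free;
`P = ∏ [a_i, b_i]`, `i ≥ 1`; `Q = T(P a_0) + T(a_0)`; `b_0` consists of eigenvectors of `P a_0`, up to
multiples of `Q`.
-/

set_option autoImplicit false
set_option linter.unusedSectionVars false

namespace Pool.Agent.SuDiv

open Matrix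

section mat

variable {R : Type} [CommRing R] {𝔫 : Ideal R} {z : R}

/-- an element of norm one, `≡ 1 + x` -/
noncomputable def tau (z x : R) : R := (1 + x * z) * Ring.inverse (1 + x * (z + 1))

theorem zz (h2 : (2 : R) = 0) : z + 1 + 1 = z := by linear_combination h2

theorem tau_mul (h : LR R 𝔫) {x : R} (hx : x ∈ 𝔫) : tau z x * tau (z + 1) x = 1 := by
  unfold tau
  rw [zz h.two]
  have h1 : IsUnit (1 + x * z) := h.unit _ (Ideal.mul_mem_right _ _ hx)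
  have h2 : IsUnit (1 + x * (z + 1)) := h.unit _ (Ideal.mul_mem_right _ _ hx)
  have h3 := Ring.mul_inverse_cancel _ h1
  have h4 := Ring.mul_inverse_cancel _ h2
  linear_combination (1 + x * (z + 1)) * Ring.inverse (1 + x * (z + 1)) * h3 + h4

/-- a diagonal entry of the matrix with the parameters `x, y, w`, `e = y w` -/
noncomputable def al (𝔫 : Ideal R) (z x e : R) : R := tau z x * (1 + asq 𝔫 e * z)

theorem al_mul (h : LR R 𝔫) (hz : z ^ 2 + z + 1 = 0) {x e : R} (hx : x ∈ 𝔫) (he : e ∈ 𝔫) :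
    al 𝔫 z x e * al 𝔫 (z + 1) x e = 1 + e := by
  unfold al
  have h1 := tau_mul (z := z) h hx
  have h3 := h.asq_eq he
  have h4 : (1 + asq 𝔫 e * z) * (1 + asq 𝔫 e * (z + 1)) = 1 + e := by
    linear_combination h3 + (asq 𝔫 e) ^ 2 * hz - ((asq 𝔫 e) ^ 2 - asq 𝔫 e * z) * h.two
  linear_combination (1 + asq 𝔫 e * z) * (1 + asq 𝔫 e * (z + 1)) * h1 + h4

/-- the matrix with the parameters `x, y, w` -/
noncomputable def MM (h : LR R 𝔫) (hz : z ^ 2 + z + 1 = 0) (x y w : 𝔫) :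
    SpecialLinearGroup (Fin 2) R :=
  ⟨!![al 𝔫 z x (y * w), y; w, al 𝔫 (z + 1) x (y * w)], by
    rw [Matrix.det_fin_two_of, al_mul h hz x.2 (Ideal.mul_mem_right _ _ y.2)]
    ring⟩

/-- the eigenvalue of `a_0` -/
noncomputable def lam (z x : R) : R := z * tau z x

theorem lam_mul (h : LR R 𝔫) (hz : z ^ 2 + z + 1 = 0) {x : R} (hx : x ∈ 𝔫) :
    lam z x * lam (z + 1) x = 1 := by
  unfold lam
  have h1 := tau_mul (z := z) h hx
  linear_combination (z * (z + 1)) * h1 + hz - h.two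

/-- the matrix `a_0` -/
noncomputable def A0 (h : LR R 𝔫) (hz : z ^ 2 + z + 1 = 0) (x : 𝔫) : SpecialLinearGroup (Fin 2) R :=
  ⟨!![lam z x, 0; 0, lam (z + 1) x], by
    rw [Matrix.det_fin_two_of, lam_mul h hz x.2]
    ring⟩

/-- the equation of the slice -/
def QQ (l l' : R) (P : Matrix (Fin 2) (Fin 2) R) : R := l * (P 0 0 + 1) + l' * (P 1 1 + 1)

/-- the determinant of the eigenvectors -/
def dt (l l' : R) (P : Matrix (Fin 2) (Fin 2) R) : R :=
  (l + P 1 1 * l') * (l' + P 0 0 * l) + P 0 1 * P 1 0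

/-- the factor of the first eigenvector -/
noncomputable def kap (𝔫 : Ideal R) (z u d : R) : R :=
  tau z u * (1 + asq 𝔫 (Ring.inverse d + 1) * z)

theorem kap_mul (h : LR R 𝔫) (hz : z ^ 2 + z + 1 = 0) {u d : R} (hu : u ∈ 𝔫)
    (hd : Ring.inverse d + 1 ∈ 𝔫) : kap 𝔫 z u d * kap 𝔫 (z + 1) u d = Ring.inverse d := by
  have h1 := al_mul h hz hu hd
  unfold al at h1
  unfold kap
  rw [h1]
  linear_combination h.two

theorem unit_of_one_add (h : LR R 𝔫) {d : R} (hd : d + 1 ∈ 𝔫) : IsUnit d := by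
  have := h.unit _ hd
  have e : 1 + (d + 1) = d := by linear_combination h.two
  rwa [e] at this

theorem inv_add_one (h : LR R 𝔫) {d : R} (hd : d + 1 ∈ 𝔫) : Ring.inverse d + 1 ∈ 𝔫 := by
  have h1 := Ring.inverse_mul_cancel _ (unit_of_one_add h hd)
  have h2 : Ring.inverse d + 1 = Ring.inverse d * (d + 1) := by
    linear_combination (-1 : R) * h1
  rw [h2]
  exact Ideal.mul_mem_left _ _ hd

/-- the matrix `b_0` (entries) -/
noncomputable def b0m (𝔫 : Ideal R) (z u l l' : R) (P : Matrix (Fin 2) (Fin 2) R) :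
    Matrix (Fin 2) (Fin 2) R :=
  !![kap 𝔫 z u (dt l l' P) * (l + P 1 1 * l'), kap 𝔫 (z + 1) u (dt l l' P) * (P 0 1 * l');
    kap 𝔫 z u (dt l l' P) * (P 1 0 * l), kap 𝔫 (z + 1) u (dt l l' P) * (l' + P 0 0 * l)]

theorem det_b0m (h : LR R 𝔫) (hz : z ^ 2 + z + 1 = 0) {u l l' : R} (hu : u ∈ 𝔫)
    {P : Matrix (Fin 2) (Fin 2) R} (hl : l * l' = 1) (hd : dt l l' P + 1 ∈ 𝔫) :
    (b0m 𝔫 z u l l' P).det = 1 := by
  unfold b0m
  rw [Matrix.det_fin_two_of]
  have h1 := kap_mul h hz hu (inv_add_one h hd)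
  have h2 := Ring.inverse_mul_cancel _ (unit_of_one_add h hd)
  have h3 : kap 𝔫 z u (dt l l' P) * kap 𝔫 (z + 1) u (dt l l' P) * dt l l' P = 1 := by
    rw [h1, h2]
  unfold dt at h3 ⊢
  set κ := kap 𝔫 z u ((l + P 1 1 * l') * (l' + P 0 0 * l) + P 0 1 * P 1 0)
  set κ' := kap 𝔫 (z + 1) u ((l + P 1 1 * l') * (l' + P 0 0 * l) + P 0 1 * P 1 0)
  linear_combination h3 - κ * κ' * P 0 1 * P 1 0 * hl - κ * κ' * P 0 1 * P 1 0 * h.two

/-- the matrix `b_0` -/
noncomputable def B0 (h : LR R 𝔫) (hz : z ^ 2 + z + 1 = 0) (u : 𝔫) {l l' : R}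
    {P : Matrix (Fin 2) (Fin 2) R} (hl : l * l' = 1) (hd : dt l l' P + 1 ∈ 𝔫) :
    SpecialLinearGroup (Fin 2) R :=
  ⟨b0m 𝔫 z u l l' P, det_b0m h hz u.2 hl hd⟩

/-- the relation holds modulo `Q` -/
theorem rel_mod (h : LR R 𝔫) {u l l' : R} {P : Matrix (Fin 2) (Fin 2) R} (hP : P.det = 1)
    (hl : l * l' = 1) : P * !![l, 0; 0, l'] * b0m 𝔫 z u l l' P =
      b0m 𝔫 z u l l' P * !![l, 0; 0, l'] + QQ l l' P •
        !![kap 𝔫 z u (dt l l' P) * l, 0; 0, kap 𝔫 (z + 1) u (dt l l' P) * l'] := by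
  unfold b0m QQ
  generalize kap 𝔫 z u (dt l l' P) = κ
  generalize kap 𝔫 (z + 1) u (dt l l' P) = κ'
  rw [Matrix.det_fin_two] at hP
  have h2 := h.two
  ext i j
  fin_cases i <;> fin_cases j
  · simp [Matrix.mul_apply, Fin.sum_univ_two]
    linear_combination κ * (P 0 0 * P 1 1 + P 0 1 * P 1 0 - 2 * P 1 1 - 1) * hl + κ * hP +
      κ * (P 0 1 * P 1 0 - l ^ 2 - P 1 1) * h2
  · simp [Matrix.mul_apply, Fin.sum_univ_two]
    linear_combination (P 0 0 * P 0 1 * l * l' * κ') * h2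
  · simp [Matrix.mul_apply, Fin.sum_univ_two]
    linear_combination (P 1 0 * P 1 1 * l * l' * κ) * h2
  · simp [Matrix.mul_apply, Fin.sum_univ_two]
    linear_combination κ' * (P 0 0 * P 1 1 + P 0 1 * P 1 0 - 2 * P 0 0 - 1) * hl + κ' * hP +
      κ' * (P 0 1 * P 1 0 - l' ^ 2 - P 0 0) * h2

end mat

end Pool.Agent.SuDiv
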