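import Mathlib

/-!
# MP_305fdd_al, surface groups, block DIV: the quadric and the parity argument

`V E J = E ⊕ (J ⊕ J)`: the variables `x_e` (`e ∈ E`), `y_j`, `z_j` (`j ∈ J`).  `om` is the quadric
`∑ y_j z_(bar j)`, `bar` an involution of `J`.  `th σ` exchanges the `y_j` and the `z_j` and applies `σ`
to the coefficients.  If `F` has weight one (`deg_y = deg_z + 1`) and is not divisible by `om`, then
`F * th F - H ^ 2` is not divisible by `om`.
-/

set_option autoImplicit false

namespace Pool.Agent.SuDiv

open MvPolynomial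

/-- the variables -/
abbrev V (E J : Type) : Type := E ⊕ (J ⊕ J)

variable {E J k : Type} [Field k]

/-- the exchange of the `y_j` and the `z_j` -/
def sw (E J : Type) : V E J ≃ V E J := Equiv.sumCongr (Equiv.refl E) (Equiv.sumComm J J)

@[simp] theorem sw_inl (e : E) : sw E J (Sum.inl e) = Sum.inl e := rfl
@[simp] theorem sw_y (j : J) : sw E J (Sum.inr (Sum.inl j)) = Sum.inr (Sum.inr j) := rfl
@[simp] theorem sw_z (j : J) : sw E J (Sum.inr (Sum.inr j)) = Sum.inr (Sum.inl j) := rfl

theorem sw_sw (v : V E J) : sw E J (sw E J v) = v := by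
  rcases v with e | (j | j) <;> rfl

/-- the `y`-weights -/
def yw : V E J → ℕ
  | Sum.inl _ => 0
  | Sum.inr (Sum.inl _) => 1
  | Sum.inr (Sum.inr _) => 0

/-- the `z`-weights -/
def zw : V E J → ℕ
  | Sum.inl _ => 0
  | Sum.inr (Sum.inl _) => 0
  | Sum.inr (Sum.inr _) => 1

theorem yw_sw (v : V E J) : yw (sw E J v) = zw v := by
  rcases v with e | (j | j) <;> rfl

theorem zw_sw (v : V E J) : zw (sw E J v) = yw v := by
  rcases v with e | (j | j) <;> rfl

/-- the quadric -/
noncomputable def om [Fintype J] (E k : Type) [Field k] (bar : J ≃ J) : MvPolynomial (V E J) k :=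
  ∑ j, X (Sum.inr (Sum.inl j)) * X (Sum.inr (Sum.inr (bar j)))

theorem om_prime [Fintype J] [Nontrivial J] (bar : J ≃ J) : Prime (om E k bar) := by
  classical
  let c : J →₀ k := Finsupp.equivFunOnFinite.symm fun _ => 1
  have hc : ∀ j, c j = 1 := fun j => rfl
  have h1 : Irreducible (sumSMulXSMulY c) := by
    refine irreducible_sumSMulXSMulY c ?_ ?_
    · obtain ⟨a, b, hab⟩ := exists_pair_ne J
      exact ⟨a, by simp [hc], b, by simp [hc], hab⟩
    · intro r hr
      obtain ⟨a, b, hab⟩ := exists_pair_ne J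
      have := hr a
      rw [hc] at this
      exact isUnit_of_dvd_one this
  have h2 : Prime (sumSMulXSMulY c) := UniqueFactorizationMonoid.irreducible_iff_prime.1 h1
  -- the embedding of the variables
  let f : J ⊕ J → V E J := fun v => Sum.inr (Equiv.sumCongr (Equiv.refl J) bar v)
  have hf : Function.Injective f := by
    intro a b hab
    exact (Equiv.sumCongr (Equiv.refl J) bar).injective (Sum.inr_injective hab)
  have h3 : om E k bar = rename f (sumSMulXSMulY c) := by
    unfold om sumSMulXSMulY
    rw [Finsupp.linearCombination_apply, Finsupp.sum_fintype _ _ (by simp), map_sum]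
    refine Finset.sum_congr rfl fun j _ => ?_
    rw [hc, one_smul, map_mul, rename_X, rename_X]
    rfl
  rw [h3]
  let g : J ⊕ J ≃ Set.range f := Equiv.ofInjective f hf
  have h4 : rename f (sumSMulXSMulY c) =
      rename ((↑) : Set.range f → V E J) (renameEquiv k g (sumSMulXSMulY c)) := by
    rw [renameEquiv_apply, rename_rename]
    rfl
  rw [h4, prime_rename_iff]
  exact (MulEquiv.prime_iff (renameEquiv k g)).2 h2

/-- the exchange of the variables and `σ` on the coefficients -/
noncomputable def th (E J : Type) (σ : k →+* k) : MvPolynomial (V E J) k →+* MvPolynomial (V E J) k :=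
  eval₂Hom (C.comp σ) fun v => X (sw E J v)

theorem th_C (σ : k →+* k) (a : k) : th E J σ (C a) = C (σ a) := by simp [th]

theorem th_X (σ : k →+* k) (v : V E J) : th E J σ (X v) = X (sw E J v) := by simp [th]

theorem th_th {σ : k →+* k} (hσ : ∀ a, σ (σ a) = a) (F : MvPolynomial (V E J) k) :
    th E J σ (th E J σ F) = F := by
  have : (th E J σ).comp (th E J σ) = RingHom.id _ := by
    refine MvPolynomial.ringHom_ext (fun r => ?_) (fun v => ?_)
    · rw [RingHom.comp_apply, th_C, th_C, hσ]; rfl
    · rw [RingHom.comp_apply, th_X, th_X, sw_sw]; rfl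
  exact congrArg (fun φ : MvPolynomial (V E J) k →+* MvPolynomial (V E J) k => φ F) this

theorem th_om [Fintype J] (σ : k →+* k) (bar : J ≃ J) (hbar : ∀ j, bar (bar j) = j) :
    th E J σ (om E k bar) = om E k bar := by
  unfold om
  rw [map_sum]
  refine Finset.sum_equiv bar (by simp) fun j _ => ?_
  rw [map_mul, th_X, th_X, sw_y, sw_z, hbar, mul_comm]

section parity

variable {D : Type} [CommRing D]

/-- `X_v ↦ t ^ (w v) * f (X_v)` -/
noncomputable def Th (w : V E J → ℕ) (f : MvPolynomial (V E J) k →+* D) :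
    MvPolynomial (V E J) k →+* Polynomial D :=
  eval₂Hom (Polynomial.C.comp (f.comp C)) fun v => Polynomial.X ^ w v * Polynomial.C (f (X v))

theorem Th_C (w : V E J → ℕ) (f : MvPolynomial (V E J) k →+* D) (a : k) :
    Th w f (C a) = Polynomial.C (f (C a)) := by simp [Th]

theorem Th_X (w : V E J → ℕ) (f : MvPolynomial (V E J) k →+* D) (v : V E J) :
    Th w f (X v) = Polynomial.X ^ w v * Polynomial.C (f (X v)) := by simp [Th]

theorem eval_Th (w : V E J → ℕ) (f : MvPolynomial (V E J) k →+* D) (F : MvPolynomial (V E J) k) :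
    (Th w f F).eval 1 = f F := by
  have : (Polynomial.evalRingHom 1).comp (Th w f) = f := by
    refine MvPolynomial.ringHom_ext (fun r => ?_) (fun v => ?_)
    · rw [RingHom.comp_apply, Th_C]; simp
    · rw [RingHom.comp_apply, Th_X]; simp
  exact congrArg (fun φ : MvPolynomial (V E J) k →+* D => φ F) this

/-- the weight of an exponent -/
def wd (w : V E J → ℕ) (d : V E J →₀ ℕ) : ℕ := d.sum fun v n => n * w v

theorem Th_monomial (w : V E J → ℕ) (f : MvPolynomial (V E J) k →+* D) (d : V E J →₀ ℕ) (a : k) :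
    Th w f (monomial d a) = Polynomial.X ^ wd w d * Polynomial.C (f (monomial d a)) := by
  rw [monomial_eq, map_mul, map_mul, Th_C, map_mul, Finsupp.prod, map_prod, map_prod, wd, Finsupp.sum,
    ← Finset.prod_pow_eq_pow_sum, map_prod, mul_left_comm, ← Finset.prod_mul_distrib]
  congr 1
  refine Finset.prod_congr rfl fun v _ => ?_
  rw [map_pow, map_pow, Th_X, mul_pow, ← pow_mul, map_pow, mul_comm (w v)]

theorem Th_om [Fintype J] (bar : J ≃ J) (f : MvPolynomial (V E J) k →+* D)
    (hf : f (om E k bar) = 0) : Th yw f (om E k bar) = 0 := by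
  have : Th yw f (om E k bar) = Polynomial.X * Polynomial.C (f (om E k bar)) := by
    unfold om
    rw [map_sum, map_sum, map_sum, Finset.mul_sum]
    refine Finset.sum_congr rfl fun j _ => ?_
    rw [map_mul, map_mul, map_mul, Th_X, Th_X]
    simp only [yw, pow_one, pow_zero, one_mul]
    ring
  rw [this, hf, map_zero, mul_zero]

theorem Th_weight (f : MvPolynomial (V E J) k →+* D) (F : MvPolynomial (V E J) k)
    (hF : ∀ d ∈ F.support, wd yw d = wd zw d + 1) : Th yw f F = Polynomial.X * Th zw f F := by
  rw [F.as_sum, map_sum, map_sum, Finset.mul_sum]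
  refine Finset.sum_congr rfl fun d hd => ?_
  rw [Th_monomial, Th_monomial, hF d hd, pow_succ]
  ring

/-- the parity argument -/
theorem parity [Fintype J] [Nontrivial J] {σ : k →+* k} (hσ : ∀ a, σ (σ a) = a) (bar : J ≃ J)
    (hbar : ∀ j, bar (bar j) = j) (F H : MvPolynomial (V E J) k)
    (hF : ∀ d ∈ F.support, wd yw d = wd zw d + 1) (h1 : ¬ om E k bar ∣ F) :
    ¬ om E k bar ∣ F * th E J σ F - H ^ 2 := by
  intro h2
  have hp := om_prime (E := E) (k := k) bar
  let I : Ideal (MvPolynomial (V E J) k) := Ideal.span {om E k bar}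
  have hI : I.IsPrime := (Ideal.span_singleton_prime hp.ne_zero).2 hp
  let f := Ideal.Quotient.mk I
  have hf : ∀ G, f G = 0 ↔ om E k bar ∣ G := fun G => by
    rw [Ideal.Quotient.eq_zero_iff_mem, Ideal.mem_span_singleton]
  -- the involution on the quotient
  let θ : (MvPolynomial (V E J) k ⧸ I) →+* (MvPolynomial (V E J) k ⧸ I) :=
    Ideal.Quotient.lift I (f.comp (th E J σ)) (by
      intro G hG
      rw [Ideal.mem_span_singleton] at hG
      obtain ⟨G', rfl⟩ := hG
      rw [RingHom.comp_apply, map_mul, th_om σ bar hbar, map_mul, (hf _).2 dvd_rfl, zero_mul])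
  have hθ : ∀ G, θ (f G) = f (th E J σ G) := fun G => rfl
  have hinj : Function.Injective θ := by
    intro a b hab
    obtain ⟨a, rfl⟩ := Ideal.Quotient.mk_surjective a
    obtain ⟨b, rfl⟩ := Ideal.Quotient.mk_surjective b
    have h3 := congrArg θ hab
    change θ (θ (f a)) = θ (θ (f b)) at h3
    rw [hθ, hθ, hθ, hθ, th_th hσ, th_th hσ] at h3
    exact h3
  have hTh : ∀ G, Th yw f (th E J σ G) = (Th zw f G).map θ := by
    intro G
    have : (Th yw f).comp (th E J σ) = (Polynomial.mapRingHom θ).comp (Th zw f) := by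
      refine MvPolynomial.ringHom_ext (fun r => ?_) (fun v => ?_)
      · rw [RingHom.comp_apply, RingHom.comp_apply, th_C, Th_C, Th_C, Polynomial.coe_mapRingHom,
          Polynomial.map_C, hθ, th_C]
      · rw [RingHom.comp_apply, RingHom.comp_apply, th_X, Th_X, Th_X, Polynomial.coe_mapRingHom,
          Polynomial.map_mul, Polynomial.map_pow, Polynomial.map_X, Polynomial.map_C, hθ, th_X, yw_sw]
    exact congrArg (fun φ : MvPolynomial (V E J) k →+* _ => φ G) this
  have h3 : Th yw f F ≠ 0 := by
    intro h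
    apply h1
    rw [← hf, ← eval_Th yw f F, h, Polynomial.eval_zero]
  have h4 : Th zw f F ≠ 0 := by
    intro h
    apply h3
    rw [Th_weight f F hF, h, mul_zero]
  have h5 : Th yw f (th E J σ F) ≠ 0 := by
    rw [hTh, Polynomial.map_ne_zero_iff hinj]
    exact h4
  have h6 : Th yw f F * Th yw f (th E J σ F) = (Th yw f H) ^ 2 := by
    obtain ⟨G, hG⟩ := h2
    have : Th yw f (F * th E J σ F - H ^ 2) = 0 := by
      rw [hG, map_mul, Th_om bar f ((hf _).2 dvd_rfl), zero_mul]
    rw [map_sub, map_mul, map_pow] at this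
    exact sub_eq_zero.1 this
  have h7 : Th yw f H ≠ 0 := by
    intro h
    rw [h, zero_pow two_ne_zero] at h6
    exact (mul_ne_zero h3 h5) h6
  have h8 := congrArg Polynomial.natTrailingDegree h6
  rw [Polynomial.natTrailingDegree_mul h3 h5, pow_two, Polynomial.natTrailingDegree_mul h7 h7] at h8
  have h9 : (Th yw f (th E J σ F)).natTrailingDegree = (Th zw f F).natTrailingDegree := by
    have hne : (Th zw f F).map θ ≠ 0 := by rwa [hTh] at h5
    rw [hTh]
    refine le_antisymm (Polynomial.natTrailingDegree_le_of_ne_zero ?_)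
      (Polynomial.natTrailingDegree_le_of_ne_zero ?_)
    · rw [Polynomial.coeff_map]
      intro h
      exact (Polynomial.coeff_natTrailingDegree_ne_zero.2 h4) (hinj (h.trans (map_zero θ).symm))
    · intro h
      apply Polynomial.coeff_natTrailingDegree_ne_zero.2 hne
      rw [Polynomial.coeff_map, h, map_zero]
  have h10 : (Th yw f F).natTrailingDegree = 1 + (Th zw f F).natTrailingDegree := by
    rw [Th_weight f F hF, Polynomial.natTrailingDegree_mul Polynomial.X_ne_zero h4,
      Polynomial.natTrailingDegree_X]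
  omega

end parity

end Pool.Agent.SuDiv
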