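import Pool.Agent.Lib.MP_305fdd_al.Su.Div.Mat
import Pool.Agent.Lib.MP_305fdd_al.Su.Defs

/-!
# MP_305fdd_al, surface groups, block DIV: the representations of the slice
-/

set_option autoImplicit false
set_option linter.unusedSectionVars false

namespace Pool.Agent.SuDiv

open Matrix Pool.Agent.Su

/-- the projection of the free group onto the surface group -/
def pm (g : ℕ) : FreeGroup (Fin g ⊕ Fin g) →* SurfaceGroup g :=
  PresentedGroup.mk ({surfRel g} : Set (FreeGroup (Fin g ⊕ Fin g)))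

theorem pm_surjective (g : ℕ) : Function.Surjective (pm g) :=
  PresentedGroup.mk_surjective _

theorem pm_rel (g : ℕ) : pm g (surfRel g) = 1 :=
  PresentedGroup.one_of_mem (rels := {surfRel g}) (Set.mem_singleton _)

/-- homomorphisms of the surface group -/
def toS {g : ℕ} {G : Type} [Group G] (f : FreeGroup (Fin g ⊕ Fin g) →* G)
    (hf : f (surfRel g) = 1) : SurfaceGroup g →* G :=
  PresentedGroup.toGroup (rels := {surfRel g}) (f := fun s => f (FreeGroup.of s)) (by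
    intro r hr
    rw [Set.mem_singleton_iff] at hr
    subst hr
    have h1 : FreeGroup.lift (fun s => f (FreeGroup.of s)) = f := by
      ext s : 1
      simp
    rw [h1]
    exact hf)

theorem toS_pm {g : ℕ} {G : Type} [Group G] (f : FreeGroup (Fin g ⊕ Fin g) →* G)
    (hf : f (surfRel g) = 1) (w : FreeGroup (Fin g ⊕ Fin g)) : toS f hf (pm g w) = f w := by
  have h1 : (toS f hf).comp (pm g) = f := by
    ext s : 1
    have h2 : FreeGroup.lift (fun s => f (FreeGroup.of s)) (FreeGroup.of s) =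
      f (FreeGroup.of s) := FreeGroup.lift_apply_of
    exact h2
  exact DFunLike.congr_fun h1 w

theorem SL_ext {R : Type} [CommRing R] {A B : SpecialLinearGroup (Fin 2) R}
    (h : ∀ i j, A.1 i j = B.1 i j) : A = B := Subtype.ext (Matrix.ext h)

theorem slmap {R R' : Type} [CommRing R] [CommRing R'] (φ : R →+* R')
    (A : SpecialLinearGroup (Fin 2) R) (i j : Fin 2) :
    (SpecialLinearGroup.map φ A).1 i j = φ (A.1 i j) := rfl

/-- the parameters of the slice -/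
structure Dat {R : Type} [CommRing R] (𝔫 : Ideal R) (n : ℕ) where
  /-- parameter of `a_0` -/
  x0 : 𝔫
  /-- parameter of `b_0` -/
  u : 𝔫
  /-- diagonal parameters -/
  xs : Fin n × Bool → 𝔫
  /-- upper right entries -/
  ys : Fin n × Bool → 𝔫
  /-- lower left entries -/
  ws : Fin n × Bool → 𝔫

section slice

variable {R : Type} [CommRing R] {𝔫 : Ideal R} {z : R} {n : ℕ}

theorem mk_inverse (h : LR R 𝔫) {a : R} (ha : a ∈ 𝔫) :
    Ideal.Quotient.mk 𝔫 (Ring.inverse (1 + a)) = 1 := by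
  rw [map_inverse (h.unit a ha), map_add, map_one, Ideal.Quotient.eq_zero_iff_mem.2 ha, add_zero,
    Ring.inverse_one]

theorem mk_tau (h : LR R 𝔫) {x : R} (hx : x ∈ 𝔫) : Ideal.Quotient.mk 𝔫 (tau z x) = 1 := by
  unfold tau
  rw [map_mul, mk_inverse h (Ideal.mul_mem_right _ _ hx), map_add, map_one,
    Ideal.Quotient.eq_zero_iff_mem.2 (Ideal.mul_mem_right _ _ hx), add_zero, mul_one]

theorem mk_al (h : LR R 𝔫) {x e : R} (hx : x ∈ 𝔫) (he : e ∈ 𝔫) :
    Ideal.Quotient.mk 𝔫 (al 𝔫 z x e) = 1 := by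
  unfold al
  rw [map_mul, mk_tau h hx, one_mul, map_add, map_one,
    Ideal.Quotient.eq_zero_iff_mem.2 (Ideal.mul_mem_right _ _ (h.asq_mem he)), add_zero]

theorem mk_lam (h : LR R 𝔫) {x : R} (hx : x ∈ 𝔫) :
    Ideal.Quotient.mk 𝔫 (lam z x) = Ideal.Quotient.mk 𝔫 z := by
  unfold lam
  rw [map_mul, mk_tau h hx, mul_one]

theorem mk_MM (h : LR R 𝔫) (hz : z ^ 2 + z + 1 = 0) (x y w : 𝔫) :
    SpecialLinearGroup.map (Ideal.Quotient.mk 𝔫) (MM h hz x y w) = 1 := by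
  have h1 := mk_al (z := z) h x.2 (Ideal.mul_mem_right (w : R) _ y.2)
  have h2 := mk_al (z := z + 1) h x.2 (Ideal.mul_mem_right (w : R) _ y.2)
  refine SL_ext fun i j => ?_
  rw [slmap]
  fin_cases i <;> fin_cases j
  · exact h1
  · exact Ideal.Quotient.eq_zero_iff_mem.2 y.2
  · exact Ideal.Quotient.eq_zero_iff_mem.2 w.2
  · exact h2

/-- the free matrices -/
noncomputable def Dat.M (h : LR R 𝔫) (hz : z ^ 2 + z + 1 = 0) (D : Dat 𝔫 n) (j : Fin n × Bool) :
    SpecialLinearGroup (Fin 2) R := MM h hz (D.xs j) (D.ys j) (D.ws j)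

/-- the product of the commutators of the free matrices -/
noncomputable def Dat.P (h : LR R 𝔫) (hz : z ^ 2 + z + 1 = 0) (D : Dat 𝔫 n) :
    SpecialLinearGroup (Fin 2) R :=
  (List.ofFn fun i : Fin n => D.M h hz (i, false) * D.M h hz (i, true) * (D.M h hz (i, false))⁻¹ *
    (D.M h hz (i, true))⁻¹).prod

theorem mk_P (h : LR R 𝔫) (hz : z ^ 2 + z + 1 = 0) (D : Dat 𝔫 n) :
    SpecialLinearGroup.map (Ideal.Quotient.mk 𝔫) (D.P h hz) = 1 := by
  unfold Dat.P
  rw [map_list_prod]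
  refine List.prod_eq_one fun g hg => ?_
  rw [List.mem_map] at hg
  obtain ⟨g', hg', rfl⟩ := hg
  rw [List.mem_ofFn] at hg'
  obtain ⟨i, rfl⟩ := hg'
  unfold Dat.M
  rw [map_mul, map_mul, map_mul, map_inv, map_inv, mk_MM, mk_MM]
  simp

theorem dt_mem (h : LR R 𝔫) (hz : z ^ 2 + z + 1 = 0) (D : Dat 𝔫 n) :
    dt (lam z (D.x0 : R)) (lam (z + 1) (D.x0 : R)) (D.P h hz).1 + 1 ∈ 𝔫 := by
  rw [← Ideal.Quotient.eq_zero_iff_mem]
  have h1 : ∀ i j, Ideal.Quotient.mk 𝔫 ((D.P h hz).1 i j) = (1 : Matrix (Fin 2) (Fin 2) (R ⧸ 𝔫)) i j := by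
    intro i j
    have := congrArg (fun g : SpecialLinearGroup (Fin 2) (R ⧸ 𝔫) => g.1 i j) (mk_P h hz D)
    simpa using this
  unfold dt
  simp only [map_add, map_mul, map_one, h1, mk_lam h D.x0.2]
  simp only [Matrix.one_apply_eq, Matrix.one_apply_ne (show (0 : Fin 2) ≠ 1 by decide),
    one_mul, zero_mul, add_zero]
  have h2 : (2 : R ⧸ 𝔫) = 0 := by
    rw [← map_ofNat (Ideal.Quotient.mk 𝔫) 2, h.two, map_zero]
  linear_combination (2 * Ideal.Quotient.mk 𝔫 z * Ideal.Quotient.mk 𝔫 z +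
    2 * Ideal.Quotient.mk 𝔫 z + 1) * h2

/-- the images of the generators `a_i` -/
noncomputable def Dat.ga (h : LR R 𝔫) (hz : z ^ 2 + z + 1 = 0) (D : Dat 𝔫 n) :
    Fin (n + 1) → SpecialLinearGroup (Fin 2) R :=
  Fin.cons (A0 h hz D.x0) fun i => D.M h hz (i, false)

/-- the images of the generators `b_i` -/
noncomputable def Dat.gb (h : LR R 𝔫) (hz : z ^ 2 + z + 1 = 0) (D : Dat 𝔫 n) :
    Fin (n + 1) → SpecialLinearGroup (Fin 2) R :=
  Fin.cons (B0 h hz D.u (lam_mul h hz D.x0.2) (dt_mem h hz D)) fun i => D.M h hz (i, true)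

/-- the representation of the free group -/
noncomputable def Dat.fr (h : LR R 𝔫) (hz : z ^ 2 + z + 1 = 0) (D : Dat 𝔫 n) :
    FreeGroup (Fin (n + 1) ⊕ Fin (n + 1)) →* SpecialLinearGroup (Fin 2) R :=
  FreeGroup.lift (Sum.elim (D.ga h hz) (D.gb h hz))

/-- the equation -/
noncomputable def Dat.Q (h : LR R 𝔫) (hz : z ^ 2 + z + 1 = 0) (D : Dat 𝔫 n) : R :=
  QQ (lam z (D.x0 : R)) (lam (z + 1) (D.x0 : R)) (D.P h hz).1

theorem fr_rel (h : LR R 𝔫) (hz : z ^ 2 + z + 1 = 0) (D : Dat 𝔫 n) :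
    D.fr h hz (surfRel (n + 1)) = A0 h hz D.x0 * B0 h hz D.u (lam_mul h hz D.x0.2) (dt_mem h hz D) *
      (A0 h hz D.x0)⁻¹ * (B0 h hz D.u (lam_mul h hz D.x0.2) (dt_mem h hz D))⁻¹ * D.P h hz := by
  unfold surfRel genA genB
  rw [List.ofFn_succ, List.prod_cons, map_mul, map_list_prod, List.map_ofFn]
  congr 1
  · simp [Dat.fr, Dat.ga, Dat.gb]
  · unfold Dat.P
    congr 2
    funext i
    simp [Dat.fr, Dat.ga, Dat.gb]

/-- the relation holds if `Q` is in the ideal -/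
theorem fr_rel_mod (h : LR R 𝔫) (hz : z ^ 2 + z + 1 = 0) (D : Dat 𝔫 n) (I : Ideal R)
    (hQ : D.Q h hz ∈ I) :
    SpecialLinearGroup.map (Ideal.Quotient.mk I) (D.fr h hz (surfRel (n + 1))) = 1 := by
  set φ := SpecialLinearGroup.map (n := Fin 2) (Ideal.Quotient.mk I) with hφ
  set A := A0 h hz D.x0 with hA
  set B := B0 h hz D.u (lam_mul h hz D.x0.2) (dt_mem h hz D) with hB
  set P := D.P h hz with hP
  have key : φ (P * A * B) = φ (B * A) := by
    apply Subtype.ext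
    rw [hφ]
    have h1 := rel_mod (z := z) (u := (D.u : R)) h P.2 (lam_mul h hz D.x0.2)
    have h2 : (P * A * B).1 = (B * A).1 + D.Q h hz •
        !![kap 𝔫 z D.u (dt (lam z (D.x0 : R)) (lam (z + 1) (D.x0 : R)) P.1) * lam z (D.x0 : R), 0;
          0, kap 𝔫 (z + 1) D.u (dt (lam z (D.x0 : R)) (lam (z + 1) (D.x0 : R)) P.1) *
            lam (z + 1) (D.x0 : R)] := h1
    ext i j
    rw [SpecialLinearGroup.map_apply_coe, SpecialLinearGroup.map_apply_coe, h2]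
    simp only [RingHom.mapMatrix_apply, Matrix.map_apply, Matrix.add_apply, Matrix.smul_apply,
      map_add, smul_eq_mul, map_mul, Ideal.Quotient.eq_zero_iff_mem.2 hQ, zero_mul, add_zero]
  rw [fr_rel]
  change φ (A * B * A⁻¹ * B⁻¹ * P) = 1
  have h3 : φ P * φ A * φ B = φ B * φ A := by rw [← map_mul, ← map_mul, key, map_mul]
  rw [map_mul, map_mul, map_mul, map_mul, map_inv, map_inv]
  have h4 : φ P = φ B * φ A * (φ B)⁻¹ * (φ A)⁻¹ := by
    rw [← h3]; group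
  rw [h4]
  group

/-- the representation of the surface group -/
noncomputable def Dat.rep (h : LR R 𝔫) (hz : z ^ 2 + z + 1 = 0) (D : Dat 𝔫 n) (I : Ideal R)
    (hQ : D.Q h hz ∈ I) : SurfaceGroup (n + 1) →* SpecialLinearGroup (Fin 2) (R ⧸ I) :=
  toS ((SpecialLinearGroup.map (Ideal.Quotient.mk I)).comp (D.fr h hz)) (fr_rel_mod h hz D I hQ)

theorem rep_pm (h : LR R 𝔫) (hz : z ^ 2 + z + 1 = 0) (D : Dat 𝔫 n) (I : Ideal R)
    (hQ : D.Q h hz ∈ I) (w : FreeGroup (Fin (n + 1) ⊕ Fin (n + 1))) :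
    D.rep h hz I hQ (pm (n + 1) w) =
      SpecialLinearGroup.map (Ideal.Quotient.mk I) (D.fr h hz w) :=
  toS_pm _ _ w

end slice

/-! ### functoriality -/

section map

variable {R R' : Type} [CommRing R] [CommRing R'] {𝔫 : Ideal R} {𝔫' : Ideal R'} {z : R} {n : ℕ}

theorem map_tau (h : LR R 𝔫) (φ : R →+* R') {x : R} (hx : x ∈ 𝔫) :
    φ (tau z x) = tau (φ z) (φ x) := by
  unfold tau
  rw [map_mul, map_inverse (h.unit _ (Ideal.mul_mem_right _ _ hx))]
  simp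

theorem map_al (h : LR R 𝔫) (h' : LR R' 𝔫') (φ : R →+* R') (hφ : ∀ n ∈ 𝔫, φ n ∈ 𝔫') {x e : R}
    (hx : x ∈ 𝔫) (he : e ∈ 𝔫) : φ (al 𝔫 z x e) = al 𝔫' (φ z) (φ x) (φ e) := by
  unfold al
  rw [map_mul, map_tau h φ hx, map_add, map_mul, h.map_asq h' φ hφ he, map_one]

theorem map_lam (h : LR R 𝔫) (φ : R →+* R') {x : R} (hx : x ∈ 𝔫) :
    φ (lam z x) = lam (φ z) (φ x) := by
  unfold lam
  rw [map_mul, map_tau h φ hx]

theorem map_kap (h : LR R 𝔫) (h' : LR R' 𝔫') (φ : R →+* R') (hφ : ∀ n ∈ 𝔫, φ n ∈ 𝔫') {u d : R}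
    (hu : u ∈ 𝔫) (hd : d + 1 ∈ 𝔫) : φ (kap 𝔫 z u d) = kap 𝔫' (φ z) (φ u) (φ d) := by
  unfold kap
  rw [map_mul, map_tau h φ hu, map_add, map_mul, h.map_asq h' φ hφ (inv_add_one h hd), map_add,
    map_inverse (unit_of_one_add h hd), map_one]

end map

end Pool.Agent.SuDiv
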