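import Pool.Agent.Lib.MP_305fdd_al.Su.Div.Slice

/-!
# MP_305fdd_al, surface groups, block DIV: weights and the involution on the slice
-/

set_option autoImplicit false
set_option linter.unusedSectionVars false

namespace Pool.Agent.SuDiv

open Matrix Pool.Agent.Su

section wts

variable {E J k : Type} [Field k] [Finite E] [Finite J] [CharP k 2]

theorem asq_sub {e : S E J k} (he : e ∈ Jn E J k 1) (N : ℕ) :
    asq (Jn E J k 1) e - ∑ i ∈ Finset.range N, e ^ 2 ^ i ∈ Jn E J k N := by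
  have h := LR_S (E := E) (J := J) (k := k)
  set q := asq (Jn E J k 1) e with hq
  set p := ∑ i ∈ Finset.range N, e ^ 2 ^ i with hp
  have h1 : q ^ 2 + q = e := h.asq_eq he
  have h2 : p ^ 2 + p = e + e ^ 2 ^ N := as_fin h.two e N
  have hp1 : p ∈ Jn E J k 1 := by
    refine Ideal.sum_mem _ fun i _ => Ideal.pow_mem_of_mem _ he _ (by positivity)
  have h3 : q - p ∈ Jn E J k 1 := sub_mem (h.asq_mem he) hp1
  have h4 : (q - p) * (1 + (q - p)) = e ^ 2 ^ N := by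
    linear_combination h1 + h2 + (e - p - p * q) * h.two
  obtain ⟨u, hu⟩ := h.unit _ h3
  rw [← hu] at h4
  have h5 : q - p = e ^ 2 ^ N * ((u⁻¹ : (S E J k)ˣ) : S E J k) := by
    rw [← h4, mul_assoc, Units.mul_inv, mul_one]
  rw [h5]
  exact Ideal.mul_mem_right _ _ (Jn_mono (Nat.lt_two_pow_self).le (pow_Jn he _))

theorem mul_Wt0 {a b : S E J k} (ha : a ∈ Wt E J k 0) (hb : b ∈ Wt E J k 0) :
    a * b ∈ Wt E J k 0 := by
  have := Wt_mul ha hb
  rwa [add_zero] at this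

theorem pow_Wt0 {a : S E J k} (ha : a ∈ Wt E J k 0) (n : ℕ) : a ^ n ∈ Wt E J k 0 := by
  induction n with
  | zero => rw [pow_zero]; exact one_Wt
  | succ n ih => rw [pow_succ]; exact mul_Wt0 ih ha

theorem asq_Wt {e : S E J k} (he : e ∈ Jn E J k 1) (h0 : e ∈ Wt E J k 0) :
    asq (Jn E J k 1) e ∈ Wt E J k 0 := by
  intro m hm
  have h1 := (mem_Jn'.1 (asq_sub he (m.degree + 1))) m (Nat.lt_succ_self _)
  rw [map_sub, sub_eq_zero] at h1
  have h2 : ∑ i ∈ Finset.range (m.degree + 1), e ^ 2 ^ i ∈ Wt E J k 0 :=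
    AddSubgroup.sum_mem _ fun i _ => pow_Wt0 h0 _
  exact h2 m (by rwa [← h1])

theorem inv_Wt {d : S E J k} (hd : IsUnit d) (h0 : d ∈ Wt E J k 0) :
    Ring.inverse d ∈ Wt E J k 0 := by
  have h1 := Ring.mul_inverse_cancel _ hd
  have h2 := congrArg (pr 0) h1
  rw [pr_mul h0, pr_eq one_Wt] at h2
  have h3 : pr 0 (Ring.inverse d) = Ring.inverse d := by
    have := congrArg (Ring.inverse d * ·) h2
    simp only [mul_one] at this
    rwa [← mul_assoc, Ring.inverse_mul_cancel _ hd, one_mul] at this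
  rw [← h3]
  exact pr_mem _ _

theorem C_Wt (a : k) : (MvPowerSeries.C a : S E J k) ∈ Wt E J k 0 := by
  classical
  intro m hm
  rw [MvPowerSeries.coeff_C] at hm
  split_ifs at hm with h
  · rw [h]; simp [wd]
  · exact absurd rfl hm

theorem X_Wt (v : V E J) : (MvPowerSeries.X v : S E J k) ∈ Wt E J k ((yw v : ℤ) - zw v) := by
  classical
  intro m hm
  rw [MvPowerSeries.coeff_X] at hm
  split_ifs at hm with h
  · rw [h]; simp [wd]
  · exact absurd rfl hm

theorem X_Jn (v : V E J) : (MvPowerSeries.X v : S E J k) ∈ Jn E J k 1 := by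
  classical
  rw [mem_Jn']
  intro m hm
  rw [MvPowerSeries.coeff_X, if_neg]
  intro h
  rw [h] at hm
  simp at hm

variable {z : S E J k}

theorem tau_Wt (hz : z ∈ Wt E J k 0) {x : S E J k} (hx : x ∈ Jn E J k 1) (h0 : x ∈ Wt E J k 0) :
    tau z x ∈ Wt E J k 0 := by
  unfold tau
  refine mul_Wt0 (add_mem one_Wt (mul_Wt0 h0 hz)) (inv_Wt ?_ ?_)
  · exact LR_S.unit _ (Ideal.mul_mem_right _ _ hx)
  · exact add_mem one_Wt (mul_Wt0 h0 (add_mem hz one_Wt))

theorem al_Wt (hz : z ∈ Wt E J k 0) {x e : S E J k} (hx : x ∈ Jn E J k 1) (h0 : x ∈ Wt E J k 0)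
    (he : e ∈ Jn E J k 1) (he0 : e ∈ Wt E J k 0) : al (Jn E J k 1) z x e ∈ Wt E J k 0 := by
  unfold al
  exact mul_Wt0 (tau_Wt hz hx h0) (add_mem one_Wt (mul_Wt0 (asq_Wt he he0) hz))

theorem lam_Wt (hz : z ∈ Wt E J k 0) {x : S E J k} (hx : x ∈ Jn E J k 1) (h0 : x ∈ Wt E J k 0) :
    lam z x ∈ Wt E J k 0 := mul_Wt0 hz (tau_Wt hz hx h0)

theorem kap_Wt (hz : z ∈ Wt E J k 0) {u d : S E J k} (hx : u ∈ Jn E J k 1) (h0 : u ∈ Wt E J k 0)
    (he : d + 1 ∈ Jn E J k 1) (he0 : d ∈ Wt E J k 0) : kap (Jn E J k 1) z u d ∈ Wt E J k 0 := by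
  unfold kap
  refine mul_Wt0 (tau_Wt hz hx h0) (add_mem one_Wt (mul_Wt0 (asq_Wt (inv_add_one LR_S he)
    (add_mem (inv_Wt (unit_of_one_add LR_S he) he0) one_Wt)) hz))

/-- the weight of the entries -/
def wij (i j : Fin 2) : ℤ := (j : ℕ) - (i : ℕ)

variable (E J k) in
/-- the matrices of weight zero -/
def GW : Subgroup (SpecialLinearGroup (Fin 2) (S E J k)) where
  carrier := {g | ∀ i j, g.1 i j ∈ Wt E J k (wij i j)}
  mul_mem' {a b} ha hb i j := by
    have h1 : (a * b).1 i j = ∑ l, a.1 i l * b.1 l j := Matrix.mul_apply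
    rw [h1]
    refine AddSubgroup.sum_mem _ fun l _ => ?_
    have := Wt_mul (ha i l) (hb l j)
    have e : wij i l + wij l j = wij i j := by unfold wij; ring
    rwa [e] at this
  one_mem' i j := by
    have h1 : (1 : SpecialLinearGroup (Fin 2) (S E J k)).1 i j =
      (1 : Matrix (Fin 2) (Fin 2) (S E J k)) i j := rfl
    rw [h1, Matrix.one_apply]
    split_ifs with h
    · subst h
      have e : wij i i = 0 := by unfold wij; ring
      rw [e]
      exact one_Wt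
    · exact zero_mem _
  inv_mem' {a} ha i j := by
    rw [Matrix.SpecialLinearGroup.SL2_inv_expl]
    fin_cases i <;> fin_cases j
    · exact ha 1 1
    · exact neg_mem (ha 0 1)
    · exact neg_mem (ha 1 0)
    · exact ha 0 0

theorem mem_GW {g : SpecialLinearGroup (Fin 2) (S E J k)} :
    g ∈ GW E J k ↔ ∀ i j, g.1 i j ∈ Wt E J k (wij i j) := Iff.rfl

/-- the matrices invariant under the involution -/
def GT {R : Type} [CommRing R] (θ : R →+* R) : Subgroup (SpecialLinearGroup (Fin 2) R) where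
  carrier := {g | ∀ i j, θ (g.1 i j) = (-1) ^ ((i : ℕ) + (j : ℕ)) * g.1 i.rev j.rev}
  mul_mem' {a b} ha hb i j := by
    have h1 : ∀ i j, (a * b).1 i j = a.1 i 0 * b.1 0 j + a.1 i 1 * b.1 1 j := fun i j => by
      have : (a * b).1 i j = ∑ l, a.1 i l * b.1 l j := Matrix.mul_apply
      rw [this, Fin.sum_univ_two]
    rw [h1, h1, map_add, map_mul, map_mul, ha, ha, hb, hb]
    have e0 : Fin.rev (0 : Fin 2) = 1 := rfl
    have e1 : Fin.rev (1 : Fin 2) = 0 := rfl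
    rw [e0, e1, pow_add, pow_add, pow_add, pow_add, pow_add]
    simp only [Fin.val_zero, Fin.val_one, pow_zero, pow_one]
    ring
  one_mem' i j := by
    have h1 : ∀ i j, (1 : SpecialLinearGroup (Fin 2) R).1 i j =
      (1 : Matrix (Fin 2) (Fin 2) R) i j := fun i j => rfl
    rw [h1, h1]
    fin_cases i <;> fin_cases j <;> simp
  inv_mem' {a} ha i j := by
    have h1 : ∀ i j, (a⁻¹).1 i j = !![a.1 1 1, -a.1 0 1; -a.1 1 0, a.1 0 0] i j := fun i j => by
      rw [Matrix.SpecialLinearGroup.SL2_inv_expl]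
      rfl
    rw [h1, h1]
    have h00 := ha 0 0
    have h01 := ha 0 1
    have h10 := ha 1 0
    have h11 := ha 1 1
    have e0 : Fin.rev (0 : Fin 2) = 1 := rfl
    have e1 : Fin.rev (1 : Fin 2) = 0 := rfl
    rw [e0] at h00 h01 h10
    rw [e1] at h01 h10 h11
    fin_cases i <;> fin_cases j
    · simpa using h11
    · simpa using congrArg Neg.neg h01
    · simpa using congrArg Neg.neg h10
    · simpa using h00

theorem mem_GT {R : Type} [CommRing R] {θ : R →+* R} (h2 : (2 : R) = 0)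
    {g : SpecialLinearGroup (Fin 2) R} :
    g ∈ GT θ ↔ ∀ i j, θ (g.1 i j) = g.1 i.rev j.rev := by
  have h1 : (-1 : R) = 1 := by linear_combination (-1 : R) * h2
  change (∀ i j, θ (g.1 i j) = (-1) ^ ((i : ℕ) + (j : ℕ)) * g.1 i.rev j.rev) ↔ _
  simp only [h1, one_pow, one_mul]

end wts

/-! ### the involution on the matrices of the slice -/

section inv

variable {R : Type} [CommRing R] {𝔫 : Ideal R} {z : R} {n : ℕ}

theorem MM_GT (h : LR R 𝔫) (hz : z ^ 2 + z + 1 = 0) (θ : R →+* R) (hθ : ∀ n ∈ 𝔫, θ n ∈ 𝔫)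
    (hθz : θ z = z + 1) {x y w : 𝔫} (hx : θ x = x) (hy : θ y = w) (hw : θ w = y) :
    MM h hz x y w ∈ GT θ := by
  rw [mem_GT h.two]
  have e0 : Fin.rev (0 : Fin 2) = 1 := rfl
  have e1 : Fin.rev (1 : Fin 2) = 0 := rfl
  have hyw : θ ((y : R) * w) = y * w := by rw [map_mul, hy, hw, mul_comm]
  have he : (y : R) * w ∈ 𝔫 := Ideal.mul_mem_right _ _ y.2
  intro i j
  fin_cases i <;> fin_cases j
  · change θ (al 𝔫 z x (y * w)) = al 𝔫 (z + 1) x (y * w)
    rw [map_al h h θ hθ x.2 he, hθz, hx, hyw]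
  · exact hy
  · exact hw
  · change θ (al 𝔫 (z + 1) x (y * w)) = al 𝔫 z x (y * w)
    rw [map_al h h θ hθ x.2 he, map_add, map_one, hθz, hx, hyw, zz h.two]

theorem A0_GT (h : LR R 𝔫) (hz : z ^ 2 + z + 1 = 0) (θ : R →+* R)
    (hθz : θ z = z + 1) {x : 𝔫} (hx : θ x = x) : A0 h hz x ∈ GT θ := by
  rw [mem_GT h.two]
  intro i j
  fin_cases i <;> fin_cases j
  · change θ (lam z x) = lam (z + 1) x
    rw [map_lam h θ x.2, hθz, hx]
  · exact map_zero θ
  · exact map_zero θ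
  · change θ (lam (z + 1) x) = lam z x
    rw [map_lam h θ x.2, map_add, map_one, hθz, hx, zz h.two]

theorem dt_inv {θ : R →+* R} (h2 : (2 : R) = 0) {l l' : R} (hl : θ l = l') (hl' : θ l' = l)
    {P : SpecialLinearGroup (Fin 2) R} (hP : P ∈ GT θ) : θ (dt l l' P.1) = dt l l' P.1 := by
  rw [mem_GT h2] at hP
  unfold dt
  rw [map_add, map_mul, map_add, map_add, map_mul, map_mul, map_mul, hl, hl', hP, hP, hP, hP]
  have e0 : Fin.rev (0 : Fin 2) = 1 := rfl
  have e1 : Fin.rev (1 : Fin 2) = 0 := rfl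
  rw [e0, e1]
  ring

theorem B0_GT (h : LR R 𝔫) (hz : z ^ 2 + z + 1 = 0) (θ : R →+* R) (hθ : ∀ n ∈ 𝔫, θ n ∈ 𝔫)
    (hθz : θ z = z + 1) {u : 𝔫} (hu : θ u = u) {l l' : R} (hl : θ l = l') (hl' : θ l' = l)
    {P : SpecialLinearGroup (Fin 2) R} (hP : P ∈ GT θ) (hll : l * l' = 1)
    (hd : dt l l' P.1 + 1 ∈ 𝔫) : B0 h hz u hll hd ∈ GT θ := by
  have hdt := dt_inv h.two hl hl' hP
  have hP' := (mem_GT h.two).1 hP
  rw [mem_GT h.two]
  have e0 : Fin.rev (0 : Fin 2) = 1 := rfl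
  have e1 : Fin.rev (1 : Fin 2) = 0 := rfl
  have hk : θ (kap 𝔫 z u (dt l l' P.1)) = kap 𝔫 (z + 1) u (dt l l' P.1) := by
    rw [map_kap h h θ hθ u.2 hd, hθz, hu, hdt]
  have hk' : θ (kap 𝔫 (z + 1) u (dt l l' P.1)) = kap 𝔫 z u (dt l l' P.1) := by
    rw [map_kap h h θ hθ u.2 hd, map_add, map_one, hθz, hu, hdt, zz h.two]
  intro i j
  fin_cases i <;> fin_cases j
  · change θ (kap 𝔫 z u (dt l l' P.1) * (l + P.1 1 1 * l')) =
      kap 𝔫 (z + 1) u (dt l l' P.1) * (l' + P.1 0 0 * l)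
    rw [map_mul, map_add, map_mul, hk, hP', e1, hl, hl']
  · change θ (kap 𝔫 (z + 1) u (dt l l' P.1) * (P.1 0 1 * l')) =
      kap 𝔫 z u (dt l l' P.1) * (P.1 1 0 * l)
    rw [map_mul, map_mul, hk', hP', e1, e0, hl']
  · change θ (kap 𝔫 z u (dt l l' P.1) * (P.1 1 0 * l)) =
      kap 𝔫 (z + 1) u (dt l l' P.1) * (P.1 0 1 * l')
    rw [map_mul, map_mul, hk, hP', e1, e0, hl]
  · change θ (kap 𝔫 (z + 1) u (dt l l' P.1) * (l' + P.1 0 0 * l)) =
      kap 𝔫 z u (dt l l' P.1) * (l + P.1 1 1 * l')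
    rw [map_mul, map_add, map_mul, hk', hP', e0, hl, hl']

theorem P_mem (h : LR R 𝔫) (hz : z ^ 2 + z + 1 = 0) (D : Dat 𝔫 n)
    (H : Subgroup (SpecialLinearGroup (Fin 2) R)) (hM : ∀ j, D.M h hz j ∈ H) : D.P h hz ∈ H := by
  unfold Dat.P
  refine Subgroup.list_prod_mem _ fun g hg => ?_
  rw [List.mem_ofFn] at hg
  obtain ⟨i, rfl⟩ := hg
  exact mul_mem (mul_mem (mul_mem (hM _) (hM _)) (inv_mem (hM _))) (inv_mem (hM _))

theorem fr_mem (h : LR R 𝔫) (hz : z ^ 2 + z + 1 = 0) (D : Dat 𝔫 n)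
    (H : Subgroup (SpecialLinearGroup (Fin 2) R)) (hM : ∀ j, D.M h hz j ∈ H)
    (hA : A0 h hz D.x0 ∈ H)
    (hB : B0 h hz D.u (lam_mul h hz D.x0.2) (dt_mem h hz D) ∈ H)
    (w : FreeGroup (Fin (n + 1) ⊕ Fin (n + 1))) : D.fr h hz w ∈ H := by
  induction w using FreeGroup.induction_on with
  | C1 => rw [map_one]; exact one_mem _
  | of s =>
    unfold Dat.fr
    rw [FreeGroup.lift_apply_of]
    rcases s with i | i
    · refine Fin.cases ?_ (fun i => ?_) i
      · exact hA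
      · exact hM _
    · refine Fin.cases ?_ (fun i => ?_) i
      · exact hB
      · exact hM _
  | inv_of s ih => rw [map_inv]; exact inv_mem ih
  | mul a b ha hb => rw [map_mul]; exact mul_mem ha hb

end inv

end Pool.Agent.SuDiv
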