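import Pool.Agent.Lib.MP_305fdd_al.Su.Div.UniQ

/-!
# MP_305fdd_al, surface groups, block DIV: the leading form of the equation of the slice
-/

set_option autoImplicit false
set_option linter.unusedSectionVars false

namespace Pool.Agent.SuDiv

open Matrix Pool.Agent.Su

theorem mul1 {R : Type} [CommRing R] (A B : SpecialLinearGroup (Fin 2) R) :
    (A * B).1 = A.1 * B.1 := rfl

theorem one1 {R : Type} [CommRing R] : (1 : SpecialLinearGroup (Fin 2) R).1 = 1 := rfl

section pp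

variable {E J k : Type} [Field k] [Finite E] [Finite J]

/-- `g ≡ 1 + ω` modulo terms of order three on the diagonal -/
structure PP (g : Matrix (Fin 2) (Fin 2) (S E J k)) (ω : S E J k) : Prop where
  om : ω ∈ Jn E J k 2
  all : ∀ i j, (g - 1) i j ∈ Jn E J k 2
  diag : ∀ i, (g - 1) i i - ω ∈ Jn E J k 3

theorem PP.one : PP (1 : Matrix (Fin 2) (Fin 2) (S E J k)) 0 where
  om := zero_mem _
  all i j := by rw [sub_self]; exact zero_mem _
  diag i := by rw [sub_self, Matrix.zero_apply, sub_zero]; exact zero_mem _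

theorem PP.mul {g g' : Matrix (Fin 2) (Fin 2) (S E J k)} {ω ω' : S E J k} (h : PP g ω)
    (h' : PP g' ω') : PP (g * g') (ω + ω') := by
  have key : g * g' - 1 = (g - 1) * (g' - 1) + (g - 1) + (g' - 1) := by noncomm_ring
  have h4 : ∀ i j, ((g - 1) * (g' - 1)) i j ∈ Jn E J k 4 := by
    intro i j
    rw [Matrix.mul_apply]
    exact Ideal.sum_mem _ fun l _ => Jn_mul (h.all i l) (h'.all l j)
  refine ⟨add_mem h.om h'.om, fun i j => ?_, fun i => ?_⟩
  · rw [key, Matrix.add_apply, Matrix.add_apply]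
    exact add_mem (add_mem (Jn_mono (by norm_num) (h4 i j)) (h.all i j)) (h'.all i j)
  · rw [key, Matrix.add_apply, Matrix.add_apply]
    have e : ((g - 1) * (g' - 1)) i i + (g - 1) i i + (g' - 1) i i - (ω + ω') =
        ((g - 1) * (g' - 1)) i i + ((g - 1) i i - ω) + ((g' - 1) i i - ω') := by ring
    rw [e]
    exact add_mem (add_mem (Jn_mono (by norm_num) (h4 i i)) (h.diag i)) (h'.diag i)

theorem PP.prod {n : ℕ} (f : Fin n → SpecialLinearGroup (Fin 2) (S E J k)) (ω : Fin n → S E J k)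
    (h : ∀ i, PP (f i).1 (ω i)) : PP (List.ofFn f).prod.1 (∑ i, ω i) := by
  induction n with
  | zero =>
    rw [List.ofFn_zero, List.prod_nil, Finset.univ_eq_empty, Finset.sum_empty]
    exact PP.one
  | succ n ih =>
    rw [List.ofFn_succ, List.prod_cons, Fin.sum_univ_succ]
    exact (h 0).mul (ih _ _ fun i => h i.succ)

/-- commutators of matrices `≡ 1` -/
theorem PP.comm (h2 : (2 : S E J k) = 0) {A B : SpecialLinearGroup (Fin 2) (S E J k)}
    (hA : ∀ i j, (A.1 - 1) i j ∈ Jn E J k 1) (hB : ∀ i j, (B.1 - 1) i j ∈ Jn E J k 1) :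
    PP (A * B * A⁻¹ * B⁻¹).1 (A.1 0 1 * B.1 1 0 + B.1 0 1 * A.1 1 0) := by
  set α := A.1 - 1 with hα
  set β := B.1 - 1 with hβ
  set G := (A⁻¹ * B⁻¹).1 with hG
  have key : (A * B * A⁻¹ * B⁻¹).1 - 1 = (α * β - β * α) * G := by
    have e1 : (A * B * A⁻¹ * B⁻¹).1 = A.1 * B.1 * G := by
      have : A * B * A⁻¹ * B⁻¹ = A * B * (A⁻¹ * B⁻¹) := by group
      rw [this]
      rfl
    have e2 : B.1 * A.1 * G = 1 := by
      have : B * A * (A⁻¹ * B⁻¹) = 1 := by group
      have h := congrArg (fun g : SpecialLinearGroup (Fin 2) (S E J k) => g.1) this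
      exact h
    have e3 : α * β - β * α = A.1 * B.1 - B.1 * A.1 := by rw [hα, hβ]; noncomm_ring
    rw [e1, e3, sub_mul, e2]
  have hinv : ∀ A : SpecialLinearGroup (Fin 2) (S E J k), (∀ i j, (A.1 - 1) i j ∈ Jn E J k 1) →
      ∀ i j, (A⁻¹.1 - 1) i j ∈ Jn E J k 1 := by
    intro A hA i j
    have e : A⁻¹.1 - 1 = - (A⁻¹.1 * (A.1 - 1)) := by
      have : A⁻¹.1 * A.1 = 1 := by
        rw [← mul1, inv_mul_cancel, one1]
      rw [mul_sub, this, mul_one, neg_sub]
    rw [e, Matrix.neg_apply, Matrix.mul_apply]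
    exact neg_mem (Ideal.sum_mem _ fun l _ => Ideal.mul_mem_left _ _ (hA l j))
  have hG1 : ∀ i j, (G - 1) i j ∈ Jn E J k 1 := by
    intro i j
    have e : G - 1 = A⁻¹.1 * (B⁻¹.1 - 1) + (A⁻¹.1 - 1) := by
      rw [hG, mul1]; noncomm_ring
    rw [e, Matrix.add_apply, Matrix.mul_apply]
    exact add_mem (Ideal.sum_mem _ fun l _ => Ideal.mul_mem_left _ _ (hinv B hB l j)) (hinv A hA i j)
  have hD : ∀ i j, (α * β - β * α) i j ∈ Jn E J k 2 := by
    intro i j
    rw [Matrix.sub_apply, Matrix.mul_apply, Matrix.mul_apply]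
    exact sub_mem (Ideal.sum_mem _ fun l _ => Jn_mul (hA i l) (hB l j))
      (Ideal.sum_mem _ fun l _ => Jn_mul (hB i l) (hA l j))
  have hα01 : α 0 1 = A.1 0 1 := by rw [hα, Matrix.sub_apply]; simp
  have hα10 : α 1 0 = A.1 1 0 := by rw [hα, Matrix.sub_apply]; simp
  have hβ01 : β 0 1 = B.1 0 1 := by rw [hβ, Matrix.sub_apply]; simp
  have hβ10 : β 1 0 = B.1 1 0 := by rw [hβ, Matrix.sub_apply]; simp
  refine ⟨?_, fun i j => ?_, fun i => ?_⟩
  · rw [← hα01, ← hβ10, ← hβ01, ← hα10]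
    exact add_mem (Jn_mul (hA 0 1) (hB 1 0)) (Jn_mul (hB 0 1) (hA 1 0))
  · rw [key, Matrix.mul_apply]
    exact Ideal.sum_mem _ fun l _ => Ideal.mul_mem_right _ _ (hD i l)
  · rw [key]
    have e : (α * β - β * α) * G = (α * β - β * α) * (G - 1) + (α * β - β * α) := by noncomm_ring
    rw [e, Matrix.add_apply]
    have h3 : ((α * β - β * α) * (G - 1)) i i ∈ Jn E J k 3 := by
      rw [Matrix.mul_apply]
      exact Ideal.sum_mem _ fun l _ => Jn_mul (hD i l) (hG1 l i)
    have h5 : (α * β - β * α) i i = A.1 0 1 * B.1 1 0 + B.1 0 1 * A.1 1 0 := by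
      rw [Matrix.sub_apply, Matrix.mul_apply, Matrix.mul_apply, Fin.sum_univ_two, Fin.sum_univ_two]
      fin_cases i
      · change α 0 0 * β 0 0 + α 0 1 * β 1 0 - (β 0 0 * α 0 0 + β 0 1 * α 1 0) = _
        rw [hα01, hα10, hβ01, hβ10]
        linear_combination (- B.1 0 1 * A.1 1 0) * h2
      · change α 1 0 * β 0 1 + α 1 1 * β 1 1 - (β 1 0 * α 0 1 + β 1 1 * α 1 1) = _
        rw [hα01, hα10, hβ01, hβ10]
        linear_combination (- A.1 0 1 * B.1 1 0) * h2
    rw [h5, add_sub_cancel_right]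
    exact h3

end pp

section uni

variable {k : Type} [Field k] [CharP k 2] {n : ℕ} {σ : k →+* k} {ζ : k}

theorem M_one (h : Ze σ ζ) (j : JJ n) (i i' : Fin 2) :
    (((uD k n).M (hS k n) h.rootC j).1 - 1) i i' ∈ nn k n := by
  have h1 : SpecialLinearGroup.map (Ideal.Quotient.mk (nn k n))
    ((uD k n).M (hS k n) h.rootC j) = 1 := mk_MM (hS k n) h.rootC _ _ _
  have h2 : Ideal.Quotient.mk (nn k n) (((uD k n).M (hS k n) h.rootC j).1 i i') =
      (1 : Matrix (Fin 2) (Fin 2) (SS k n ⧸ nn k n)) i i' := by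
    rw [← slmap, h1]; rfl
  rw [← Ideal.Quotient.eq_zero_iff_mem, Matrix.sub_apply, map_sub, h2, Matrix.one_apply,
    Matrix.one_apply]
  split_ifs <;> simp

theorem om_eq : ((om (EE n) k (bar n) : MvPolynomial (V (EE n) (JJ n)) k) : SS k n) =
    ∑ i : Fin n, (((uD k n).ys (i, false) : SS k n) * (uD k n).ws (i, true) +
      ((uD k n).ys (i, true) : SS k n) * (uD k n).ws (i, false)) := by
  unfold om
  have h1 : ∀ s : Finset (JJ n), ∀ f : JJ n → MvPolynomial (V (EE n) (JJ n)) k,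
      ((∑ j ∈ s, f j : MvPolynomial (V (EE n) (JJ n)) k) : SS k n) = ∑ j ∈ s, (f j : SS k n) :=
    fun s f => map_sum (MvPolynomial.coeToMvPowerSeries.ringHom (σ := V (EE n) (JJ n)) (R := k)) f s
  rw [h1, Fintype.sum_prod_type]
  refine Finset.sum_congr rfl fun i _ => ?_
  rw [Fintype.sum_bool, add_comm]
  simp only [MvPolynomial.coe_mul, MvPolynomial.coe_X]
  rfl

theorem PP_P (h : Ze σ ζ) : PP ((uD k n).P (hS k n) h.rootC).1
    ((om (EE n) k (bar n) : MvPolynomial (V (EE n) (JJ n)) k) : SS k n) := by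
  rw [om_eq]
  unfold Dat.P
  refine PP.prod _ _ fun i => ?_
  exact PP.comm (hS k n).two (M_one h (i, false)) (M_one h (i, true))

instance JJ_nontrivial [NeZero n] : Nontrivial (JJ n) :=
  ⟨⟨(0, false), (0, true), by simp⟩⟩

theorem HQ_Q [NeZero n] (h : Ze σ ζ) : HQ σ (bar n) ((uD k n).Q (hS k n) h.rootC) := by
  have h2 := (hS k n).two
  have hP := PP_P (n := n) h
  set ω : SS k n := ((om (EE n) k (bar n) : MvPolynomial (V (EE n) (JJ n)) k) : SS k n) with hω
  have hPW := mem_GW.1 (P_GW (n := n) h)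
  have hPT := (mem_GT h2).1 (P_GT (n := n) h)
  have hl := lam_Wt (C_Wt ζ) (uD k n).x0.2 (x0_Wt (k := k) (n := n))
  have hl' := lam_Wt (z1_Wt (ζ := ζ)) (uD k n).x0.2 (x0_Wt (k := k) (n := n))
  have hsw := lam_sw (n := n) h
  have hsw' := lam_sw' (n := n) h
  have hlz : lam (MvPowerSeries.C ζ) ((uD k n).x0 : SS k n) +
      lam (MvPowerSeries.C ζ + 1) ((uD k n).x0 : SS k n) - 1 ∈ nn k n := by
    rw [← Ideal.Quotient.eq_zero_iff_mem, map_sub, map_add, mk_lam (hS k n) (uD k n).x0.2,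
      mk_lam (hS k n) (uD k n).x0.2, map_add, map_one]
    have h3 : (2 : SS k n ⧸ nn k n) = 0 := by
      rw [← map_ofNat (Ideal.Quotient.mk (nn k n)) 2, h2, map_zero]
    linear_combination (Ideal.Quotient.mk (nn k n) (MvPowerSeries.C ζ)) * h3
  unfold Dat.Q QQ
  set P := (uD k n).P (hS k n) h.rootC with hPdef
  set l := lam (MvPowerSeries.C ζ) ((uD k n).x0 : SS k n) with hldef
  set l' := lam (MvPowerSeries.C ζ + 1) ((uD k n).x0 : SS k n) with hldef'
  have e00 : (P.1 - 1) 0 0 = P.1 0 0 + 1 := by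
    rw [Matrix.sub_apply, Matrix.one_apply_eq]; linear_combination (-1 : SS k n) * h2
  have e11 : (P.1 - 1) 1 1 = P.1 1 1 + 1 := by
    rw [Matrix.sub_apply, Matrix.one_apply_eq]; linear_combination (-1 : SS k n) * h2
  have key : l * (P.1 0 0 + 1) + l' * (P.1 1 1 + 1) - ω ∈ Jn (EE n) (JJ n) k 3 := by
    have e : l * (P.1 0 0 + 1) + l' * (P.1 1 1 + 1) - ω =
        l * ((P.1 - 1) 0 0 - ω) + l' * ((P.1 - 1) 1 1 - ω) + (l + l' - 1) * ω := by
      rw [e00, e11]; ring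
    rw [e]
    exact add_mem (add_mem (Ideal.mul_mem_left _ _ (hP.diag 0)) (Ideal.mul_mem_left _ _ (hP.diag 1)))
      (Jn_mul hlz hP.om)
  refine ⟨?_, ?_, ?_, ?_⟩
  · have := add_mem (Jn_mono (show 2 ≤ 3 by norm_num) key) hP.om
    rwa [sub_add_cancel] at this
  · have h4 := lead_of_lt (show 2 < 3 by norm_num) key
    rw [lead_sub, sub_eq_zero] at h4
    rw [h4]
    exact lead_coe (om_homogeneous (EE n) k (bar n))
  · exact add_mem (mul_Wt0 hl (add_mem (hPW 0 0) one_Wt)) (mul_Wt0 hl' (add_mem (hPW 1 1) one_Wt))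
  · rw [map_add, map_mul, map_mul, map_add, map_add, hPT, hPT, map_one, hsw, hsw']
    exact add_comm _ _

end uni

end Pool.Agent.SuDiv
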