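import Pool.Agent.Lib.MP_305fdd_al.Su.Div.Uni

/-!
# MP_305fdd_al, surface groups, block DIV: the universal slice and its equation
-/

set_option autoImplicit false
set_option linter.unusedSectionVars false

namespace Pool.Agent.SuDiv

open Matrix Pool.Agent.Su

/-- the conjugation of the field with four elements -/
structure Ze {k : Type} [Field k] (σ : k →+* k) (ζ : k) : Prop where
  root : ζ ^ 2 + ζ + 1 = 0
  swap : σ ζ = ζ + 1
  invol : ∀ a, σ (σ a) = a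

/-- the indices of the free matrices -/
abbrev JJ (n : ℕ) : Type := Fin n × Bool

/-- the indices of the parameters of weight zero -/
abbrev EE (n : ℕ) : Type := Bool ⊕ JJ n

/-- the power series ring of the slice -/
abbrev SS (k : Type) (n : ℕ) : Type := S (EE n) (JJ n) k

/-- its maximal ideal -/
abbrev nn (k : Type) [Field k] (n : ℕ) : Ideal (SS k n) := Jn (EE n) (JJ n) k 1

/-- the exchange of the two matrices of a handle -/
def bar (n : ℕ) : JJ n ≃ JJ n := Equiv.prodCongr (Equiv.refl _) Equiv.boolNot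

theorem bar_bar (n : ℕ) (j : JJ n) : bar n (bar n j) = j := by
  rcases j with ⟨i, b⟩
  cases b <;> rfl

/-- the variables as elements of the maximal ideal -/
noncomputable def vv (k : Type) [Field k] [CharP k 2] {n : ℕ} (v : V (EE n) (JJ n)) : nn k n :=
  ⟨MvPowerSeries.X v, X_Jn v⟩

/-- the universal parameters -/
noncomputable def uD (k : Type) [Field k] [CharP k 2] (n : ℕ) : Dat (nn k n) n where
  x0 := vv k (Sum.inl (Sum.inl false))
  u := vv k (Sum.inl (Sum.inl true))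
  xs j := vv k (Sum.inl (Sum.inr j))
  ys j := vv k (Sum.inr (Sum.inl j))
  ws j := vv k (Sum.inr (Sum.inr j))

section uni

variable {k : Type} [Field k] [CharP k 2] {n : ℕ} {σ : k →+* k} {ζ : k}

theorem tH_C (σ : k →+* k) (a : k) : tH σ (MvPowerSeries.C a : SS k n) = MvPowerSeries.C (σ a) := by
  have := tH_coe (E := EE n) (J := JJ n) σ (MvPolynomial.C a)
  rw [th_C, MvPolynomial.coe_C, MvPolynomial.coe_C] at this
  exact this

theorem tH_X (σ : k →+* k) (v : V (EE n) (JJ n)) :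
    tH σ (MvPowerSeries.X v : SS k n) = MvPowerSeries.X (sw (EE n) (JJ n) v) := by
  have := tH_coe (E := EE n) (J := JJ n) σ (MvPolynomial.X v)
  rw [th_X, MvPolynomial.coe_X, MvPolynomial.coe_X] at this
  exact this

theorem Ze.rootC (h : Ze σ ζ) :
    (MvPowerSeries.C ζ : SS k n) ^ 2 + MvPowerSeries.C ζ + 1 = 0 := by
  rw [← map_pow, ← map_add, ← map_one (MvPowerSeries.C (σ := V (EE n) (JJ n)) (R := k)), ← map_add,
    h.root, map_zero]

theorem Ze.swapC (h : Ze σ ζ) :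
    tH σ (MvPowerSeries.C ζ : SS k n) = MvPowerSeries.C ζ + 1 := by
  rw [tH_C, h.swap, map_add, map_one]

/-- the Artin-Schreier structure on the power series ring -/
theorem hS (k : Type) [Field k] [CharP k 2] (n : ℕ) : LR (SS k n) (nn k n) := LR_S

theorem M_GT (h : Ze σ ζ) (j : JJ n) : (uD k n).M (hS k n) h.rootC j ∈ GT (tH σ) := by
  unfold Dat.M
  refine MM_GT (hS k n) h.rootC (tH σ) (fun _ => tH_Jn σ) h.swapC ?_ ?_ ?_
  · exact tH_X σ _
  · exact tH_X σ _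
  · exact tH_X σ _

theorem P_GT (h : Ze σ ζ) : (uD k n).P (hS k n) h.rootC ∈ GT (tH σ) :=
  P_mem _ _ _ _ (M_GT h)

theorem lam_sw (h : Ze σ ζ) : tH σ (lam (MvPowerSeries.C ζ) ((uD k n).x0 : SS k n)) =
    lam (MvPowerSeries.C ζ + 1) ((uD k n).x0 : SS k n) := by
  rw [map_lam (hS k n) (tH σ) (uD k n).x0.2, h.swapC]
  congr 1
  exact tH_X σ _

theorem lam_sw' (h : Ze σ ζ) : tH σ (lam (MvPowerSeries.C ζ + 1) ((uD k n).x0 : SS k n)) =
    lam (MvPowerSeries.C ζ) ((uD k n).x0 : SS k n) := by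
  rw [map_lam (hS k n) (tH σ) (uD k n).x0.2, map_add, map_one, h.swapC, zz (hS k n).two]
  congr 1
  exact tH_X σ _

theorem fr_GT (h : Ze σ ζ) (w : FreeGroup (Fin (n + 1) ⊕ Fin (n + 1))) :
    (uD k n).fr (hS k n) h.rootC w ∈ GT (tH σ) := by
  refine fr_mem _ _ _ _ (M_GT h) ?_ ?_ w
  · exact A0_GT (hS k n) h.rootC (tH σ) h.swapC (tH_X σ _)
  · exact B0_GT (hS k n) h.rootC (tH σ) (fun _ => tH_Jn σ) h.swapC (tH_X σ _) (lam_sw h) (lam_sw' h)
      (P_GT h) _ _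

theorem x0_Wt : ((uD k n).x0 : SS k n) ∈ Wt (EE n) (JJ n) k 0 := X_Wt _

theorem u_Wt : ((uD k n).u : SS k n) ∈ Wt (EE n) (JJ n) k 0 := X_Wt _

theorem xs_Wt (j : JJ n) : ((uD k n).xs j : SS k n) ∈ Wt (EE n) (JJ n) k 0 := X_Wt _

theorem ys_Wt (j : JJ n) : ((uD k n).ys j : SS k n) ∈ Wt (EE n) (JJ n) k 1 := X_Wt _

theorem ws_Wt (j : JJ n) : ((uD k n).ws j : SS k n) ∈ Wt (EE n) (JJ n) k (-1) := X_Wt _

theorem z1_Wt : (MvPowerSeries.C ζ + 1 : SS k n) ∈ Wt (EE n) (JJ n) k 0 :=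
  add_mem (C_Wt _) one_Wt

theorem M_GW (h : Ze σ ζ) (j : JJ n) : (uD k n).M (hS k n) h.rootC j ∈ GW (EE n) (JJ n) k := by
  rw [mem_GW]
  have he : ((uD k n).ys j : SS k n) * (uD k n).ws j ∈ nn k n :=
    Ideal.mul_mem_right _ _ ((uD k n).ys j).2
  have he0 : ((uD k n).ys j : SS k n) * (uD k n).ws j ∈ Wt (EE n) (JJ n) k 0 := by
    have := Wt_mul (ys_Wt (k := k) j) (ws_Wt j)
    rwa [add_neg_cancel] at this
  intro i i'
  fin_cases i <;> fin_cases i'
  · exact al_Wt (C_Wt ζ) ((uD k n).xs j).2 (xs_Wt j) he he0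
  · exact ys_Wt j
  · exact ws_Wt j
  · exact al_Wt z1_Wt ((uD k n).xs j).2 (xs_Wt j) he he0

theorem P_GW (h : Ze σ ζ) : (uD k n).P (hS k n) h.rootC ∈ GW (EE n) (JJ n) k :=
  P_mem _ _ _ _ (M_GW h)

theorem fr_GW (h : Ze σ ζ) (w : FreeGroup (Fin (n + 1) ⊕ Fin (n + 1))) :
    (uD k n).fr (hS k n) h.rootC w ∈ GW (EE n) (JJ n) k := by
  have hl := lam_Wt (C_Wt ζ) (uD k n).x0.2 (x0_Wt (k := k) (n := n))
  have hl' := lam_Wt (z1_Wt (ζ := ζ)) (uD k n).x0.2 (x0_Wt (k := k) (n := n))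
  have hP := mem_GW.1 (P_GW (n := n) h)
  have h00 : ((uD k n).P (hS k n) h.rootC).1 0 0 ∈ Wt (EE n) (JJ n) k 0 := hP 0 0
  have h01 : ((uD k n).P (hS k n) h.rootC).1 0 1 ∈ Wt (EE n) (JJ n) k 1 := hP 0 1
  have h10 : ((uD k n).P (hS k n) h.rootC).1 1 0 ∈ Wt (EE n) (JJ n) k (-1) := hP 1 0
  have h11 : ((uD k n).P (hS k n) h.rootC).1 1 1 ∈ Wt (EE n) (JJ n) k 0 := hP 1 1
  have hd : dt (lam (MvPowerSeries.C ζ) ((uD k n).x0 : SS k n))
      (lam (MvPowerSeries.C ζ + 1) ((uD k n).x0 : SS k n)) ((uD k n).P (hS k n) h.rootC).1 ∈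
      Wt (EE n) (JJ n) k 0 := by
    unfold dt
    refine add_mem (mul_Wt0 (add_mem hl (mul_Wt0 h11 hl')) (add_mem hl' (mul_Wt0 h00 hl))) ?_
    have := Wt_mul h01 h10
    rwa [add_neg_cancel] at this
  have hk := kap_Wt (C_Wt ζ) (uD k n).u.2 (u_Wt (k := k) (n := n)) (dt_mem (hS k n) h.rootC (uD k n)) hd
  have hk' := kap_Wt (z1_Wt (ζ := ζ)) (uD k n).u.2 (u_Wt (k := k) (n := n))
    (dt_mem (hS k n) h.rootC (uD k n)) hd
  refine fr_mem _ _ _ _ (M_GW h) ?_ ?_ w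
  · rw [mem_GW]
    intro i j
    fin_cases i <;> fin_cases j
    · exact hl
    · exact zero_mem _
    · exact zero_mem _
    · exact hl'
  · rw [mem_GW]
    intro i j
    fin_cases i <;> fin_cases j
    · exact mul_Wt0 hk (add_mem hl (mul_Wt0 h11 hl'))
    · have h1 := Wt_mul h01 hl'
      have h2 := Wt_mul hk' h1
      rw [add_zero, zero_add] at h2
      exact h2
    · have h1 := Wt_mul h10 hl
      have h2 := Wt_mul hk h1
      rw [add_zero, zero_add] at h2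
      exact h2
    · exact mul_Wt0 hk' (add_mem hl' (mul_Wt0 h00 hl))

end uni

end Pool.Agent.SuDiv
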